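import Pool.Agent.W258.P4.Spec2

set_option autoImplicit false
open Matrix
open scoped ComplexOrder BigOperators

namespace Pool.W258.P4.Blk0

theorem sum_mul (m : ℕ) (f : ℕ → ℝ) (n : ℕ) :
    ∑ i ∈ Finset.range (n * m), f i = ∑ t ∈ Finset.range n, ∑ p ∈ Finset.range m, f (m * t + p) := by
  induction n with
  | zero => simp
  | succ n ih =>
    rw [Nat.succ_mul, Finset.sum_range_add, ih, Finset.sum_range_succ, Nat.mul_comm n m]

/-- the product belonging to one word -/
noncomputable def Cw (A : Matrix (Fin 4) (Fin 4) ℂ) (σ : Equiv.Perm (Fin 4)) (T : ℕ) : ℂ :=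
  ∏ j ∈ Finset.range 4, A (σ (Fin.ofNat 4 (dg 4 T (1 + j) / 4))) (σ (Fin.ofNat 4 (dg 4 T (1 + j) % 4)))

theorem dg_lt (T j : ℕ) : dg 4 T j < 16 := by
  unfold dg
  exact Nat.mod_lt _ (by norm_num)

theorem csw_div (c : ℕ) (hc : c < 16) : csw c / 4 = c % 4 := by
  interval_cases c <;> rfl

theorem csw_mod (c : ℕ) (hc : c < 16) : csw c % 4 = c / 4 := by
  interval_cases c <;> rfl

theorem evM_eq (A : Matrix (Fin 4) (Fin 4) ℂ) (hA : A.IsHermitian) (σ : Equiv.Perm (Fin 4))
    (T T' : ℕ) : evM A σ (Mf 0 T T' 0) = (starRingEnd ℂ) (Cw A σ T) * Cw A σ T' := by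
  have hH : ∀ i j, A j i = (starRingEnd ℂ) (A i j) := fun i j => (hA.apply j i).symm
  have h1 : ∀ i, i < 4 → Mf 0 T T' 0 i = dg 4 T' (1 + i) := by
    intro i hi
    interval_cases i <;> rfl
  have h2 : ∀ i, i < 4 → Mf 0 T T' 0 (4 + i) = csw (dg 4 T (1 + i)) := by
    intro i hi
    interval_cases i <;> rfl
  unfold evM
  rw [show (8 : ℕ) = 4 + 4 from rfl, Finset.prod_range_add, mul_comm]
  refine congrArg₂ (fun x y : ℂ => x * y) ?_ ?_
  · unfold Cw
    rw [map_prod]
    refine Finset.prod_congr rfl fun i hi => ?_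
    have hi4 := Finset.mem_range.mp hi
    rw [h2 i hi4, csw_div _ (dg_lt _ _), csw_mod _ (dg_lt _ _), hH]
  · unfold Cw
    refine Finset.prod_congr rfl fun i hi => ?_
    rw [h1 i (Finset.mem_range.mp hi)]

/-- the vector of the block -/
noncomputable def zv (nc : ℕ) (A : Matrix (Fin 4) (Fin 4) ℂ) (u : ℕ → ℂ) (bar Ts : ℕ)
    (σ : Equiv.Perm (Fin 4)) (t p : ℕ) : ℂ :=
  (if bar = 0 then u (pactN nc σ p) else (starRingEnd ℂ) (u (pactN nc σ p))) * Cw A σ (dg 32 Ts t)

theorem Phi_eq (nc : ℕ) (A : Matrix (Fin 4) (Fin 4) ℂ) (hA : A.IsHermitian) (u : ℕ → ℂ)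
    (bar Ts t t' p q : ℕ) :
    Phi nc A u (if bar = 0 then p else q) (if bar = 0 then q else p)
      (Mf 0 (dg 32 Ts t) (dg 32 Ts t') 0) =
    ∑ σ : Equiv.Perm (Fin 4), ((zv nc A u bar Ts σ t p).re * (zv nc A u bar Ts σ t' q).re +
      (zv nc A u bar Ts σ t p).im * (zv nc A u bar Ts σ t' q).im) := by
  have key : ∀ z w : ℂ, z.re * w.re + z.im * w.im = ((starRingEnd ℂ) z * w).re := by
    intro z w
    simp [Complex.mul_re]
  unfold Phi
  rw [Complex.re_sum]
  refine Finset.sum_congr rfl fun σ _ => ?_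
  rw [key, evM_eq A hA]
  congr 1
  unfold zv
  by_cases hb : bar = 0
  · simp only [hb, if_true, map_mul]
    ring
  · simp only [hb, if_false, map_mul, Complex.conj_conj]
    ring

end Pool.W258.P4.Blk0

namespace Pool.W258.P4
open Blk0

theorem blk0_ : Pool.W258.P4.P_BLK 0 1 := by
  intro nc bar nT Ts A u Y hA hY
  have hH := hA.isHermitian
  have hsg : sgR 0 0 = 1 := by
    have : sbit 0 0 = 0 := rfl
    simp [sgR, this]
  have hform : ∀ x : ℕ → ℕ → ℝ, 0 ≤ ∑ t ∈ Finset.range nT, ∑ p ∈ Finset.range nc,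
      ∑ t' ∈ Finset.range nT, ∑ q ∈ Finset.range nc,
        Y (nc * t + p) (nc * t' + q) * x t p * x t' q := by
    intro x
    have h := hY (fun a => x (a / nc) (a % nc))
    rw [sum_mul] at h
    refine h.trans_eq ?_
    refine Finset.sum_congr rfl fun t _ => Finset.sum_congr rfl fun p hp => ?_
    rw [sum_mul]
    refine Finset.sum_congr rfl fun t' _ => Finset.sum_congr rfl fun q hq => ?_
    have hp' := Finset.mem_range.mp hp
    have hq' := Finset.mem_range.mp hq
    have hnc : 0 < nc := by omega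
    have e1 : (nc * t + p) / nc = t := by
      rw [Nat.mul_add_div hnc, Nat.div_eq_of_lt hp', add_zero]
    have e2 : (nc * t + p) % nc = p := by
      rw [Nat.mul_add_mod, Nat.mod_eq_of_lt hp']
    have e3 : (nc * t' + q) / nc = t' := by
      rw [Nat.mul_add_div hnc, Nat.div_eq_of_lt hq', add_zero]
    have e4 : (nc * t' + q) % nc = q := by
      rw [Nat.mul_add_mod, Nat.mod_eq_of_lt hq']
    simp only [e1, e2, e3, e4]
  have hsum : blkF nc A u 0 bar 1 nT Ts Y = ∑ σ : Equiv.Perm (Fin 4),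
      ((∑ t ∈ Finset.range nT, ∑ p ∈ Finset.range nc, ∑ t' ∈ Finset.range nT,
        ∑ q ∈ Finset.range nc, Y (nc * t + p) (nc * t' + q) * (zv nc A u bar Ts σ t p).re *
          (zv nc A u bar Ts σ t' q).re) +
      (∑ t ∈ Finset.range nT, ∑ p ∈ Finset.range nc, ∑ t' ∈ Finset.range nT,
        ∑ q ∈ Finset.range nc, Y (nc * t + p) (nc * t' + q) * (zv nc A u bar Ts σ t p).im *
          (zv nc A u bar Ts σ t' q).im)) := by
    unfold blkF
    simp only [Finset.sum_range_one, hsg, one_mul, Phi_eq nc A hH]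
    simp only [← Finset.sum_add_distrib]
    rw [Finset.sum_comm' (s := (Finset.univ : Finset (Equiv.Perm (Fin 4))))
      (t := fun _ => Finset.range nT) (t' := Finset.range nT) (s' := fun _ => Finset.univ)
      (by intro x y; simp)]
    refine Finset.sum_congr rfl fun t _ => ?_
    rw [Finset.sum_comm' (s := (Finset.univ : Finset (Equiv.Perm (Fin 4))))
      (t := fun _ => Finset.range nc) (t' := Finset.range nc) (s' := fun _ => Finset.univ)
      (by intro x y; simp)]
    rw [Finset.sum_comm]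
    refine Finset.sum_congr rfl fun p _ => ?_
    rw [Finset.sum_comm' (s := (Finset.univ : Finset (Equiv.Perm (Fin 4))))
      (t := fun _ => Finset.range nT) (t' := Finset.range nT) (s' := fun _ => Finset.univ)
      (by intro x y; simp)]
    refine Finset.sum_congr rfl fun t' _ => ?_
    rw [Finset.sum_comm' (s := (Finset.univ : Finset (Equiv.Perm (Fin 4))))
      (t := fun _ => Finset.range nc) (t' := Finset.range nc) (s' := fun _ => Finset.univ)
      (by intro x y; simp)]
    refine Finset.sum_congr rfl fun q _ => ?_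
    rw [Finset.mul_sum]
    refine Finset.sum_congr rfl fun σ _ => ?_
    ring
  rw [hsum]
  refine Finset.sum_nonneg fun σ _ => add_nonneg ?_ ?_
  · exact hform (fun t p => (zv nc A u bar Ts σ t p).re)
  · exact hform (fun t p => (zv nc A u bar Ts σ t p).im)

end Pool.W258.P4
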