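import Pool.Agent.W258.P4.Spec2

set_option autoImplicit false
open Matrix
open scoped ComplexOrder BigOperators MatrixOrder

namespace Pool.W258.P4

theorem blk2_dg16 (T m : ℕ) : dg 4 T m < 16 := by
  show Nat.mod _ _ < 16
  exact Nat.mod_lt _ (by norm_num)

theorem blk2_ofNat (a b : ℕ) (hb : b < 4) : Fin.ofNat 4 ((4 * a + b) / 4) = Fin.ofNat 4 a := by
  congr 1; omega

theorem blk2_evM (A : Matrix (Fin 4) (Fin 4) ℂ) (hA : A.IsHermitian) (σ : Equiv.Perm (Fin 4)) (T T' k l s : ℕ)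
    (hk : k < 4) (hl : l < 4)
    (h0 : Mf 2 T T' s 0 = 4 * (dg 4 T 0 / 4) + k) (h1 : Mf 2 T T' s 1 = 4 * (dg 4 T 0 % 4) + l) :
    evM A σ (Mf 2 T T' s) =
      (starRingEnd ℂ) (A (σ (Fin.ofNat 4 (dg 4 T 1 / 4))) (σ (Fin.ofNat 4 (dg 4 T 1 % 4)))
        * A (σ (Fin.ofNat 4 (dg 4 T 2 / 4))) (σ (Fin.ofNat 4 (dg 4 T 2 % 4)))
        * A (σ (Fin.ofNat 4 (dg 4 T 3 / 4))) (σ (Fin.ofNat 4 (dg 4 T 3 % 4))))
      * (A (σ (Fin.ofNat 4 (dg 4 T' 1 / 4))) (σ (Fin.ofNat 4 (dg 4 T' 1 % 4)))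
        * A (σ (Fin.ofNat 4 (dg 4 T' 2 / 4))) (σ (Fin.ofNat 4 (dg 4 T' 2 % 4)))
        * A (σ (Fin.ofNat 4 (dg 4 T' 3 / 4))) (σ (Fin.ofNat 4 (dg 4 T' 3 % 4))))
      * (A (σ (Fin.ofNat 4 (dg 4 T 0 / 4))) (σ (Fin.ofNat 4 k)) * A (σ (Fin.ofNat 4 (dg 4 T 0 % 4))) (σ (Fin.ofNat 4 l))) := by
  have h2 : Mf 2 T T' s 2 = dg 4 T' 1 := rfl
  have h3 : Mf 2 T T' s 3 = dg 4 T' 2 := rfl
  have h4 : Mf 2 T T' s 4 = dg 4 T' 3 := rfl
  have h5 : Mf 2 T T' s 5 = 4 * (dg 4 T 1 % 4) + dg 4 T 1 / 4 := rfl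
  have h6 : Mf 2 T T' s 6 = 4 * (dg 4 T 2 % 4) + dg 4 T 2 / 4 := rfl
  have h7 : Mf 2 T T' s 7 = 4 * (dg 4 T 3 % 4) + dg 4 T 3 / 4 := rfl
  have b1 := blk2_dg16 T 1
  have b2 := blk2_dg16 T 2
  have b3 := blk2_dg16 T 3
  have hst : ∀ x y : Fin 4, (starRingEnd ℂ) (A x y) = A y x := fun x y => hA.apply y x
  unfold evM
  simp only [Finset.prod_range_succ, Finset.prod_range_zero, one_mul, h0, h1, h2, h3, h4, h5, h6, h7]
  have e1 : ∀ a b : ℕ, b < 4 → (4 * a + b) / 4 = a := fun a b h => by omega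
  have e2 : ∀ a b : ℕ, b < 4 → (4 * a + b) % 4 = b := fun a b h => by omega
  rw [e1 _ _ hk, e2 _ _ hk, e1 _ _ hl, e2 _ _ hl, e1 _ (dg 4 T 1 / 4) (by omega), e2 _ (dg 4 T 1 / 4) (by omega),
    e1 _ (dg 4 T 2 / 4) (by omega), e2 _ (dg 4 T 2 / 4) (by omega), e1 _ (dg 4 T 3 / 4) (by omega),
    e2 _ (dg 4 T 3 / 4) (by omega)]
  simp only [map_mul, hst]
  ring

/-- the index (t, p) -/
theorem blk2_reindex (nT nc : ℕ) (f : ℕ → ℝ) :
    ∑ al ∈ Finset.range (nT * nc), f al = ∑ t ∈ Finset.range nT, ∑ p ∈ Finset.range nc, f (nc * t + p) := by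
  induction nT with
  | zero => simp
  | succ n ih =>
    rw [Nat.succ_mul, Finset.sum_range_add, ih, Finset.sum_range_succ]
    congr 1
    refine Finset.sum_congr rfl fun p _ => ?_
    rw [Nat.mul_comm n nc]

theorem blk2_pos (nT nc : ℕ) (Y : ℕ → ℕ → ℝ)
    (hY : ∀ x : ℕ → ℝ, 0 ≤ ∑ al ∈ Finset.range (nT * nc), ∑ be ∈ Finset.range (nT * nc), Y al be * x al * x be)
    (x : ℕ → ℕ → ℝ) :
    0 ≤ ∑ t ∈ Finset.range nT, ∑ t' ∈ Finset.range nT, ∑ p ∈ Finset.range nc, ∑ q ∈ Finset.range nc,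
      Y (nc * t + p) (nc * t' + q) * (x t p * x t' q) := by
  have h := hY (fun al => x (al / nc) (al % nc))
  rw [blk2_reindex] at h
  refine h.trans_eq ?_
  refine Finset.sum_congr rfl fun t _ => ?_
  rw [Finset.sum_comm]
  have : ∀ p ∈ Finset.range nc, ∑ be ∈ Finset.range (nT * nc),
      Y (nc * t + p) be * x ((nc * t + p) / nc) ((nc * t + p) % nc) * x (be / nc) (be % nc)
      = ∑ t' ∈ Finset.range nT, ∑ q ∈ Finset.range nc, Y (nc * t + p) (nc * t' + q) * (x t p * x t' q) := by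
    intro p hp
    have hp' : p < nc := Finset.mem_range.1 hp
    have e1 : (nc * t + p) / nc = t := by
      rw [Nat.mul_add_div (by omega), Nat.div_eq_of_lt hp', Nat.add_zero]
    have e2 : (nc * t + p) % nc = p := by
      rw [Nat.mul_add_mod, Nat.mod_eq_of_lt hp']
    rw [blk2_reindex]
    refine Finset.sum_congr rfl fun t' _ => Finset.sum_congr rfl fun q hq => ?_
    have hq' : q < nc := Finset.mem_range.1 hq
    have e3 : (nc * t' + q) / nc = t' := by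
      rw [Nat.mul_add_div (by omega), Nat.div_eq_of_lt hq', Nat.add_zero]
    have e4 : (nc * t' + q) % nc = q := by
      rw [Nat.mul_add_mod, Nat.mod_eq_of_lt hq']
    rw [e1, e2, e3, e4]
    ring
  rw [Finset.sum_comm, Finset.sum_congr rfl this, Finset.sum_comm]

theorem blk2_posC (nT nc : ℕ) (Y : ℕ → ℕ → ℝ)
    (hY : ∀ x : ℕ → ℝ, 0 ≤ ∑ al ∈ Finset.range (nT * nc), ∑ be ∈ Finset.range (nT * nc), Y al be * x al * x be)
    (y : ℕ → ℕ → ℂ) :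
    0 ≤ ∑ t ∈ Finset.range nT, ∑ t' ∈ Finset.range nT, ∑ p ∈ Finset.range nc, ∑ q ∈ Finset.range nc,
      Y (nc * t + p) (nc * t' + q) * ((starRingEnd ℂ) (y t p) * y t' q).re := by
  have h1 := blk2_pos nT nc Y hY (fun t p => (y t p).re)
  have h2 := blk2_pos nT nc Y hY (fun t p => (y t p).im)
  refine (add_nonneg h1 h2).trans_eq ?_
  simp only [← Finset.sum_add_distrib]
  refine Finset.sum_congr rfl fun t _ => Finset.sum_congr rfl fun t' _ => Finset.sum_congr rfl fun p _ =>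
    Finset.sum_congr rfl fun q _ => ?_
  simp only [Complex.mul_re, Complex.conj_re, Complex.conj_im]
  ring

/-- the vector -/
noncomputable def blk2_y (nc bar Ts : ℕ) (A B : Matrix (Fin 4) (Fin 4) ℂ) (u : ℕ → ℂ) (σ : Equiv.Perm (Fin 4)) (m n : Fin 4)
    (t p : ℕ) : ℂ :=
  (if bar = 0 then u (pactN nc σ p) else (starRingEnd ℂ) (u (pactN nc σ p))) *
  ((A (σ (Fin.ofNat 4 (dg 4 (dg 32 Ts t) 1 / 4))) (σ (Fin.ofNat 4 (dg 4 (dg 32 Ts t) 1 % 4)))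
        * A (σ (Fin.ofNat 4 (dg 4 (dg 32 Ts t) 2 / 4))) (σ (Fin.ofNat 4 (dg 4 (dg 32 Ts t) 2 % 4)))
        * A (σ (Fin.ofNat 4 (dg 4 (dg 32 Ts t) 3 / 4))) (σ (Fin.ofNat 4 (dg 4 (dg 32 Ts t) 3 % 4)))) *
    (B m (σ (Fin.ofNat 4 (dg 4 (dg 32 Ts t) 0 / 4))) * B n (σ (Fin.ofNat 4 (dg 4 (dg 32 Ts t) 0 % 4)))
     - B n (σ (Fin.ofNat 4 (dg 4 (dg 32 Ts t) 0 / 4))) * B m (σ (Fin.ofNat 4 (dg 4 (dg 32 Ts t) 0 % 4)))))

theorem blk2_det (B : Matrix (Fin 4) (Fin 4) ℂ) (i j k l : Fin 4) :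
    (∑ m, (starRingEnd ℂ) (B m i) * B m k) * (∑ m, (starRingEnd ℂ) (B m j) * B m l)
    - (∑ m, (starRingEnd ℂ) (B m i) * B m l) * (∑ m, (starRingEnd ℂ) (B m j) * B m k)
    = ∑ m, ∑ n, (1 / 2 : ℂ) * ((starRingEnd ℂ) (B m i * B n j - B n i * B m j) * (B m k * B n l - B n k * B m l)) := by
  simp only [map_sub, map_mul]
  have h1 : ∀ a b c d : Fin 4, (∑ m, (starRingEnd ℂ) (B m a) * B m b) * (∑ m, (starRingEnd ℂ) (B m c) * B m d)
      = ∑ m, ∑ n, (starRingEnd ℂ) (B m a) * B m b * ((starRingEnd ℂ) (B n c) * B n d) := by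
    intro a b c d
    rw [Finset.sum_mul_sum]
  have h2 : ∀ a b c d : Fin 4, (∑ m, (starRingEnd ℂ) (B m a) * B m b) * (∑ m, (starRingEnd ℂ) (B m c) * B m d)
      = ∑ m, ∑ n, (starRingEnd ℂ) (B n a) * B n b * ((starRingEnd ℂ) (B m c) * B m d) := by
    intro a b c d
    rw [h1, Finset.sum_comm]
  have h3 : ∀ a b c d : Fin 4, (∑ m, (starRingEnd ℂ) (B m a) * B m b) * (∑ m, (starRingEnd ℂ) (B m c) * B m d)
      = ∑ m, ∑ n, (1 / 2 : ℂ) * ((starRingEnd ℂ) (B m a) * B m b * ((starRingEnd ℂ) (B n c) * B n d)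
        + (starRingEnd ℂ) (B n a) * B n b * ((starRingEnd ℂ) (B m c) * B m d)) := by
    intro a b c d
    have e : ∑ m, ∑ n, (1 / 2 : ℂ) * ((starRingEnd ℂ) (B m a) * B m b * ((starRingEnd ℂ) (B n c) * B n d)
        + (starRingEnd ℂ) (B n a) * B n b * ((starRingEnd ℂ) (B m c) * B m d))
        = (1 / 2 : ℂ) * (∑ m, ∑ n, (starRingEnd ℂ) (B m a) * B m b * ((starRingEnd ℂ) (B n c) * B n d)
          + ∑ m, ∑ n, (starRingEnd ℂ) (B n a) * B n b * ((starRingEnd ℂ) (B m c) * B m d)) := by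
      simp only [mul_add, Finset.sum_add_distrib, Finset.mul_sum]
    rw [e, ← h1, ← h2]
    ring
  rw [h3 i k j l, h3 i l j k, ← Finset.sum_sub_distrib]
  refine Finset.sum_congr rfl fun m _ => ?_
  rw [← Finset.sum_sub_distrib]
  refine Finset.sum_congr rfl fun n _ => ?_
  ring

theorem blk2_term (nc bar Ts : ℕ) (A B : Matrix (Fin 4) (Fin 4) ℂ) (u : ℕ → ℂ) (hA : A.IsHermitian) (hB : A = Bᴴ * B)
    (t t' p q : ℕ) :
    ∑ s ∈ Finset.range 2, sgR 2 s * Phi nc A u (if bar = 0 then p else q) (if bar = 0 then q else p)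
      (Mf 2 (dg 32 Ts t) (dg 32 Ts t') s)
    = ∑ z : Equiv.Perm (Fin 4) × Fin 4 × Fin 4, (1 / 2 : ℝ) *
      ((starRingEnd ℂ) (blk2_y nc bar Ts A B u z.1 z.2.1 z.2.2 t p) * blk2_y nc bar Ts A B u z.1 z.2.1 z.2.2 t' q).re := by
  have hs0 : sgR 2 0 = 1 := by
    unfold sgR
    rw [if_pos]
    rfl
  have hs1 : sgR 2 1 = -1 := by
    unfold sgR
    rw [if_neg]
    decide
  have b0 := blk2_dg16 (dg 32 Ts t') 0
  have hBA : ∀ a b, A a b = ∑ m, (starRingEnd ℂ) (B m a) * B m b := by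
    intro a b
    rw [hB, Matrix.mul_apply]
    rfl
  rw [Finset.sum_range_succ, Finset.sum_range_one, hs0, hs1]
  rw [Fintype.sum_prod_type]
  simp only [Fintype.sum_prod_type]
  unfold Phi
  rw [one_mul, neg_one_mul, ← sub_eq_add_neg, ← Complex.sub_re, ← Finset.sum_sub_distrib, Complex.re_sum]
  refine Finset.sum_congr rfl fun σ _ => ?_
  rw [blk2_evM A hA σ (dg 32 Ts t) (dg 32 Ts t') (dg 4 (dg 32 Ts t') 0 / 4) (dg 4 (dg 32 Ts t') 0 % 4) 0 (by omega) (by omega) rfl rfl,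
    blk2_evM A hA σ (dg 32 Ts t) (dg 32 Ts t') (dg 4 (dg 32 Ts t') 0 % 4) (dg 4 (dg 32 Ts t') 0 / 4) 1 (by omega) (by omega) rfl rfl]
  set C := A (σ (Fin.ofNat 4 (dg 4 (dg 32 Ts t) 1 / 4))) (σ (Fin.ofNat 4 (dg 4 (dg 32 Ts t) 1 % 4)))
        * A (σ (Fin.ofNat 4 (dg 4 (dg 32 Ts t) 2 / 4))) (σ (Fin.ofNat 4 (dg 4 (dg 32 Ts t) 2 % 4)))
        * A (σ (Fin.ofNat 4 (dg 4 (dg 32 Ts t) 3 / 4))) (σ (Fin.ofNat 4 (dg 4 (dg 32 Ts t) 3 % 4))) with hC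
  set C' := A (σ (Fin.ofNat 4 (dg 4 (dg 32 Ts t') 1 / 4))) (σ (Fin.ofNat 4 (dg 4 (dg 32 Ts t') 1 % 4)))
        * A (σ (Fin.ofNat 4 (dg 4 (dg 32 Ts t') 2 / 4))) (σ (Fin.ofNat 4 (dg 4 (dg 32 Ts t') 2 % 4)))
        * A (σ (Fin.ofNat 4 (dg 4 (dg 32 Ts t') 3 / 4))) (σ (Fin.ofNat 4 (dg 4 (dg 32 Ts t') 3 % 4))) with hC'
  have hd := blk2_det B (σ (Fin.ofNat 4 (dg 4 (dg 32 Ts t) 0 / 4))) (σ (Fin.ofNat 4 (dg 4 (dg 32 Ts t) 0 % 4)))
    (σ (Fin.ofNat 4 (dg 4 (dg 32 Ts t') 0 / 4))) (σ (Fin.ofNat 4 (dg 4 (dg 32 Ts t') 0 % 4)))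
  rw [← hBA, ← hBA, ← hBA, ← hBA] at hd
  set i := σ (Fin.ofNat 4 (dg 4 (dg 32 Ts t) 0 / 4))
  set j := σ (Fin.ofNat 4 (dg 4 (dg 32 Ts t) 0 % 4))
  set k := σ (Fin.ofNat 4 (dg 4 (dg 32 Ts t') 0 / 4))
  set l := σ (Fin.ofNat 4 (dg 4 (dg 32 Ts t') 0 % 4))
  set P := (starRingEnd ℂ) (u (pactN nc σ (if bar = 0 then p else q))) * u (pactN nc σ (if bar = 0 then q else p)) with hP
  have hP2 : P = (starRingEnd ℂ) (if bar = 0 then u (pactN nc σ p) else (starRingEnd ℂ) (u (pactN nc σ p)))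
      * (if bar = 0 then u (pactN nc σ q) else (starRingEnd ℂ) (u (pactN nc σ q))) := by
    rw [hP]
    by_cases hb : bar = 0
    · simp only [if_pos hb]
    · simp only [if_neg hb, Complex.conj_conj]
      ring
  have e1 : P * ((starRingEnd ℂ) C * C' * (A i k * A j l)) - P * ((starRingEnd ℂ) C * C' * (A i l * A j k))
      = P * (starRingEnd ℂ) C * C' * (A i k * A j l - A i l * A j k) := by ring
  rw [e1, hd, Finset.mul_sum, Complex.re_sum]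
  refine Finset.sum_congr rfl fun m _ => ?_
  rw [Finset.mul_sum, Complex.re_sum]
  refine Finset.sum_congr rfl fun n _ => ?_
  rw [hP2]
  have e2 : (starRingEnd ℂ) (blk2_y nc bar Ts A B u σ m n t p) * blk2_y nc bar Ts A B u σ m n t' q
      = ((starRingEnd ℂ) (if bar = 0 then u (pactN nc σ p) else (starRingEnd ℂ) (u (pactN nc σ p)))
      * (if bar = 0 then u (pactN nc σ q) else (starRingEnd ℂ) (u (pactN nc σ q)))) * (starRingEnd ℂ) C * C' *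
        ((starRingEnd ℂ) (B m i * B n j - B n i * B m j) * (B m k * B n l - B n k * B m l)) := by
    unfold blk2_y
    rw [← hC, ← hC']
    rw [map_mul, map_mul (starRingEnd ℂ) C]
    ring
  rw [e2]
  have e3 : ∀ X Z : ℂ, X * (1 / 2 * Z) = ((1 / 2 : ℝ) : ℂ) * (X * Z) := by
    intro X Z
    push_cast
    ring
  rw [e3, Complex.re_ofReal_mul]

theorem blk2_ : P_BLK 2 2 := by
  intro nc bar nT Ts A u Y hA hY
  obtain ⟨B, hB⟩ := CStarAlgebra.nonneg_iff_eq_star_mul_self.mp hA.nonneg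
  rw [Matrix.star_eq_conjTranspose] at hB
  unfold blkF
  have key : ∀ z : Equiv.Perm (Fin 4) × Fin 4 × Fin 4,
      0 ≤ ∑ t ∈ Finset.range nT, ∑ t' ∈ Finset.range nT, ∑ p ∈ Finset.range nc, ∑ q ∈ Finset.range nc,
      Y (nc * t + p) (nc * t' + q) * ((starRingEnd ℂ) (blk2_y nc bar Ts A B u z.1 z.2.1 z.2.2 t p) * blk2_y nc bar Ts A B u z.1 z.2.1 z.2.2 t' q).re :=
    fun z => blk2_posC nT nc Y hY _
  have hsum : 0 ≤ ∑ z : Equiv.Perm (Fin 4) × Fin 4 × Fin 4, (1 / 2 : ℝ) *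
      ∑ t ∈ Finset.range nT, ∑ t' ∈ Finset.range nT, ∑ p ∈ Finset.range nc, ∑ q ∈ Finset.range nc,
      Y (nc * t + p) (nc * t' + q) * ((starRingEnd ℂ) (blk2_y nc bar Ts A B u z.1 z.2.1 z.2.2 t p) * blk2_y nc bar Ts A B u z.1 z.2.1 z.2.2 t' q).re :=
    Finset.sum_nonneg fun z _ => mul_nonneg (by norm_num) (key z)
  refine hsum.trans_eq ?_
  simp only [Finset.mul_sum]
  rw [Finset.sum_comm]
  refine Finset.sum_congr rfl fun t _ => ?_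
  rw [Finset.sum_comm]
  refine Finset.sum_congr rfl fun t' _ => ?_
  rw [Finset.sum_comm]
  conv_rhs => rw [Finset.sum_comm]
  refine Finset.sum_congr rfl fun p _ => ?_
  rw [Finset.sum_comm]
  conv_rhs => rw [Finset.sum_comm]
  refine Finset.sum_congr rfl fun q _ => ?_
  have ht := blk2_term nc bar Ts A B u hA.1 hB t t' p q
  have e4 : ∀ s ∈ Finset.range 2, sgR 2 s * (Y (nc * t + p) (nc * t' + q) *
        Phi nc A u (if bar = 0 then p else q) (if bar = 0 then q else p) (Mf 2 (dg 32 Ts t) (dg 32 Ts t') s))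
      = Y (nc * t + p) (nc * t' + q) * (sgR 2 s *
        Phi nc A u (if bar = 0 then p else q) (if bar = 0 then q else p) (Mf 2 (dg 32 Ts t) (dg 32 Ts t') s)) := by
    intro s _
    ring
  conv_rhs => rw [Finset.sum_congr rfl e4, ← Finset.mul_sum, ht, Finset.mul_sum]
  refine Finset.sum_congr rfl fun z _ => ?_
  ring

end Pool.W258.P4
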