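import Pool.Agent.W258.P4.Spec2

set_option autoImplicit false
set_option maxHeartbeats 4000000
set_option maxRecDepth 1000000
open Matrix
open scoped ComplexOrder BigOperators

namespace Pool.W258.P4.Blk4A

/-- the free part sums to the determinant -/
theorem free_det (B : Matrix (Fin 4) (Fin 4) ℂ) :
    ∑ s ∈ Finset.range 24, ((sgR 4 s : ℝ) : ℂ) * ∏ i ∈ Finset.range 4, B (Fin.ofNat 4 i) (Fin.ofNat 4 (dg 2 (gtab s) i))
      = B.det := by
  have hs : ∀ (f : ℕ → ℂ), ∑ s ∈ Finset.range 24, ((sgR 4 s : ℝ) : ℂ) * f s = f 0 - f 1 - f 2 + f 3 + f 4 - f 5 - f 6 + f 7 + f 8 - f 9 - f 10 + f 11 + f 12 - f 13 - f 14 + f 15 + f 16 - f 17 - f 18 + f 19 + f 20 - f 21 - f 22 + f 23 := by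
    intro f
    simp only [Finset.sum_range_succ, Finset.sum_range_zero]
    have h0 : sgR 4 0 = 1 := by unfold sgR; exact if_pos (by decide)
    have h1 : sgR 4 1 = -1 := by unfold sgR; exact if_neg (by decide)
    have h2 : sgR 4 2 = -1 := by unfold sgR; exact if_neg (by decide)
    have h3 : sgR 4 3 = 1 := by unfold sgR; exact if_pos (by decide)
    have h4 : sgR 4 4 = 1 := by unfold sgR; exact if_pos (by decide)
    have h5 : sgR 4 5 = -1 := by unfold sgR; exact if_neg (by decide)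
    have h6 : sgR 4 6 = -1 := by unfold sgR; exact if_neg (by decide)
    have h7 : sgR 4 7 = 1 := by unfold sgR; exact if_pos (by decide)
    have h8 : sgR 4 8 = 1 := by unfold sgR; exact if_pos (by decide)
    have h9 : sgR 4 9 = -1 := by unfold sgR; exact if_neg (by decide)
    have h10 : sgR 4 10 = -1 := by unfold sgR; exact if_neg (by decide)
    have h11 : sgR 4 11 = 1 := by unfold sgR; exact if_pos (by decide)
    have h12 : sgR 4 12 = 1 := by unfold sgR; exact if_pos (by decide)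
    have h13 : sgR 4 13 = -1 := by unfold sgR; exact if_neg (by decide)
    have h14 : sgR 4 14 = -1 := by unfold sgR; exact if_neg (by decide)
    have h15 : sgR 4 15 = 1 := by unfold sgR; exact if_pos (by decide)
    have h16 : sgR 4 16 = 1 := by unfold sgR; exact if_pos (by decide)
    have h17 : sgR 4 17 = -1 := by unfold sgR; exact if_neg (by decide)
    have h18 : sgR 4 18 = -1 := by unfold sgR; exact if_neg (by decide)
    have h19 : sgR 4 19 = 1 := by unfold sgR; exact if_pos (by decide)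
    have h20 : sgR 4 20 = 1 := by unfold sgR; exact if_pos (by decide)
    have h21 : sgR 4 21 = -1 := by unfold sgR; exact if_neg (by decide)
    have h22 : sgR 4 22 = -1 := by unfold sgR; exact if_neg (by decide)
    have h23 : sgR 4 23 = 1 := by unfold sgR; exact if_pos (by decide)
    rw [h0, h1, h2, h3, h4, h5, h6, h7, h8, h9, h10, h11, h12, h13, h14, h15, h16, h17, h18, h19, h20, h21, h22, h23]
    push_cast
    ring
  rw [hs]
  simp only [Finset.prod_range_succ, Finset.prod_range_zero]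
  have d0_0 : (dg 2 (gtab 0) 0) = 0 := rfl
  have d0_1 : (dg 2 (gtab 0) 1) = 1 := rfl
  have d0_2 : (dg 2 (gtab 0) 2) = 2 := rfl
  have d0_3 : (dg 2 (gtab 0) 3) = 3 := rfl
  have d1_0 : (dg 2 (gtab 1) 0) = 0 := rfl
  have d1_1 : (dg 2 (gtab 1) 1) = 1 := rfl
  have d1_2 : (dg 2 (gtab 1) 2) = 3 := rfl
  have d1_3 : (dg 2 (gtab 1) 3) = 2 := rfl
  have d2_0 : (dg 2 (gtab 2) 0) = 0 := rfl
  have d2_1 : (dg 2 (gtab 2) 1) = 2 := rfl
  have d2_2 : (dg 2 (gtab 2) 2) = 1 := rfl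
  have d2_3 : (dg 2 (gtab 2) 3) = 3 := rfl
  have d3_0 : (dg 2 (gtab 3) 0) = 0 := rfl
  have d3_1 : (dg 2 (gtab 3) 1) = 2 := rfl
  have d3_2 : (dg 2 (gtab 3) 2) = 3 := rfl
  have d3_3 : (dg 2 (gtab 3) 3) = 1 := rfl
  have d4_0 : (dg 2 (gtab 4) 0) = 0 := rfl
  have d4_1 : (dg 2 (gtab 4) 1) = 3 := rfl
  have d4_2 : (dg 2 (gtab 4) 2) = 1 := rfl
  have d4_3 : (dg 2 (gtab 4) 3) = 2 := rfl
  have d5_0 : (dg 2 (gtab 5) 0) = 0 := rfl
  have d5_1 : (dg 2 (gtab 5) 1) = 3 := rfl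
  have d5_2 : (dg 2 (gtab 5) 2) = 2 := rfl
  have d5_3 : (dg 2 (gtab 5) 3) = 1 := rfl
  have d6_0 : (dg 2 (gtab 6) 0) = 1 := rfl
  have d6_1 : (dg 2 (gtab 6) 1) = 0 := rfl
  have d6_2 : (dg 2 (gtab 6) 2) = 2 := rfl
  have d6_3 : (dg 2 (gtab 6) 3) = 3 := rfl
  have d7_0 : (dg 2 (gtab 7) 0) = 1 := rfl
  have d7_1 : (dg 2 (gtab 7) 1) = 0 := rfl
  have d7_2 : (dg 2 (gtab 7) 2) = 3 := rfl
  have d7_3 : (dg 2 (gtab 7) 3) = 2 := rfl
  have d8_0 : (dg 2 (gtab 8) 0) = 1 := rfl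
  have d8_1 : (dg 2 (gtab 8) 1) = 2 := rfl
  have d8_2 : (dg 2 (gtab 8) 2) = 0 := rfl
  have d8_3 : (dg 2 (gtab 8) 3) = 3 := rfl
  have d9_0 : (dg 2 (gtab 9) 0) = 1 := rfl
  have d9_1 : (dg 2 (gtab 9) 1) = 2 := rfl
  have d9_2 : (dg 2 (gtab 9) 2) = 3 := rfl
  have d9_3 : (dg 2 (gtab 9) 3) = 0 := rfl
  have d10_0 : (dg 2 (gtab 10) 0) = 1 := rfl
  have d10_1 : (dg 2 (gtab 10) 1) = 3 := rfl
  have d10_2 : (dg 2 (gtab 10) 2) = 0 := rfl
  have d10_3 : (dg 2 (gtab 10) 3) = 2 := rfl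
  have d11_0 : (dg 2 (gtab 11) 0) = 1 := rfl
  have d11_1 : (dg 2 (gtab 11) 1) = 3 := rfl
  have d11_2 : (dg 2 (gtab 11) 2) = 2 := rfl
  have d11_3 : (dg 2 (gtab 11) 3) = 0 := rfl
  have d12_0 : (dg 2 (gtab 12) 0) = 2 := rfl
  have d12_1 : (dg 2 (gtab 12) 1) = 0 := rfl
  have d12_2 : (dg 2 (gtab 12) 2) = 1 := rfl
  have d12_3 : (dg 2 (gtab 12) 3) = 3 := rfl
  have d13_0 : (dg 2 (gtab 13) 0) = 2 := rfl
  have d13_1 : (dg 2 (gtab 13) 1) = 0 := rfl
  have d13_2 : (dg 2 (gtab 13) 2) = 3 := rfl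
  have d13_3 : (dg 2 (gtab 13) 3) = 1 := rfl
  have d14_0 : (dg 2 (gtab 14) 0) = 2 := rfl
  have d14_1 : (dg 2 (gtab 14) 1) = 1 := rfl
  have d14_2 : (dg 2 (gtab 14) 2) = 0 := rfl
  have d14_3 : (dg 2 (gtab 14) 3) = 3 := rfl
  have d15_0 : (dg 2 (gtab 15) 0) = 2 := rfl
  have d15_1 : (dg 2 (gtab 15) 1) = 1 := rfl
  have d15_2 : (dg 2 (gtab 15) 2) = 3 := rfl
  have d15_3 : (dg 2 (gtab 15) 3) = 0 := rfl
  have d16_0 : (dg 2 (gtab 16) 0) = 2 := rfl
  have d16_1 : (dg 2 (gtab 16) 1) = 3 := rfl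
  have d16_2 : (dg 2 (gtab 16) 2) = 0 := rfl
  have d16_3 : (dg 2 (gtab 16) 3) = 1 := rfl
  have d17_0 : (dg 2 (gtab 17) 0) = 2 := rfl
  have d17_1 : (dg 2 (gtab 17) 1) = 3 := rfl
  have d17_2 : (dg 2 (gtab 17) 2) = 1 := rfl
  have d17_3 : (dg 2 (gtab 17) 3) = 0 := rfl
  have d18_0 : (dg 2 (gtab 18) 0) = 3 := rfl
  have d18_1 : (dg 2 (gtab 18) 1) = 0 := rfl
  have d18_2 : (dg 2 (gtab 18) 2) = 1 := rfl
  have d18_3 : (dg 2 (gtab 18) 3) = 2 := rfl
  have d19_0 : (dg 2 (gtab 19) 0) = 3 := rfl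
  have d19_1 : (dg 2 (gtab 19) 1) = 0 := rfl
  have d19_2 : (dg 2 (gtab 19) 2) = 2 := rfl
  have d19_3 : (dg 2 (gtab 19) 3) = 1 := rfl
  have d20_0 : (dg 2 (gtab 20) 0) = 3 := rfl
  have d20_1 : (dg 2 (gtab 20) 1) = 1 := rfl
  have d20_2 : (dg 2 (gtab 20) 2) = 0 := rfl
  have d20_3 : (dg 2 (gtab 20) 3) = 2 := rfl
  have d21_0 : (dg 2 (gtab 21) 0) = 3 := rfl
  have d21_1 : (dg 2 (gtab 21) 1) = 1 := rfl
  have d21_2 : (dg 2 (gtab 21) 2) = 2 := rfl
  have d21_3 : (dg 2 (gtab 21) 3) = 0 := rfl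
  have d22_0 : (dg 2 (gtab 22) 0) = 3 := rfl
  have d22_1 : (dg 2 (gtab 22) 1) = 2 := rfl
  have d22_2 : (dg 2 (gtab 22) 2) = 0 := rfl
  have d22_3 : (dg 2 (gtab 22) 3) = 1 := rfl
  have d23_0 : (dg 2 (gtab 23) 0) = 3 := rfl
  have d23_1 : (dg 2 (gtab 23) 1) = 2 := rfl
  have d23_2 : (dg 2 (gtab 23) 2) = 1 := rfl
  have d23_3 : (dg 2 (gtab 23) 3) = 0 := rfl
  have o0 : (Fin.ofNat 4 0 : Fin 4) = 0 := rfl
  have o1 : (Fin.ofNat 4 1 : Fin 4) = 1 := rfl
  have o2 : (Fin.ofNat 4 2 : Fin 4) = 2 := rfl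
  have o3 : (Fin.ofNat 4 3 : Fin 4) = 3 := rfl
  rw [d0_0, d0_1, d0_2, d0_3, d1_0, d1_1, d1_2, d1_3, d2_0, d2_1, d2_2, d2_3, d3_0, d3_1, d3_2, d3_3, d4_0, d4_1, d4_2, d4_3, d5_0, d5_1, d5_2, d5_3, d6_0, d6_1, d6_2, d6_3, d7_0, d7_1, d7_2, d7_3, d8_0, d8_1, d8_2, d8_3, d9_0, d9_1, d9_2, d9_3, d10_0, d10_1, d10_2, d10_3, d11_0, d11_1, d11_2, d11_3, d12_0, d12_1, d12_2, d12_3, d13_0, d13_1, d13_2, d13_3, d14_0, d14_1, d14_2, d14_3, d15_0, d15_1, d15_2, d15_3, d16_0, d16_1, d16_2, d16_3, d17_0, d17_1, d17_2, d17_3, d18_0, d18_1, d18_2, d18_3, d19_0, d19_1, d19_2, d19_3, d20_0, d20_1, d20_2, d20_3, d21_0, d21_1, d21_2, d21_3, d22_0, d22_1, d22_2, d22_3, d23_0, d23_1, d23_2, d23_3]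
  rw [o0, o1, o2, o3]
  rw [Matrix.det_succ_row_zero]
  simp [Fin.sum_univ_succ, Matrix.det_fin_three, Matrix.submatrix_apply, Fin.succAbove]
  ring

theorem sum_pairs (nc nT : ℕ) (f : ℕ → ℝ) :
    ∑ al ∈ Finset.range (nT * nc), f al = ∑ t ∈ Finset.range nT, ∑ p ∈ Finset.range nc, f (nc * t + p) := by
  induction nT with
  | zero => simp
  | succ n ih =>
    rw [Finset.sum_range_succ, ← ih, Nat.succ_mul, Finset.sum_range_add]
    congr 1
    apply Finset.sum_congr rfl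
    intro p _
    rw [Nat.mul_comm nc n]

/-- the form of a Gram matrix on complex vectors -/
theorem gram_nonneg (nc nT : ℕ) (Y : ℕ → ℕ → ℝ)
    (hY : ∀ x : ℕ → ℝ, 0 ≤ ∑ al ∈ Finset.range (nT * nc), ∑ be ∈ Finset.range (nT * nc), Y al be * x al * x be)
    (z : ℕ → ℕ → ℂ) :
    0 ≤ ∑ t ∈ Finset.range nT, ∑ t' ∈ Finset.range nT, ∑ p ∈ Finset.range nc, ∑ q ∈ Finset.range nc,
      Y (nc * t + p) (nc * t' + q) * ((starRingEnd ℂ) (z t p) * z t' q).re := by
  have key : ∀ x : ℕ → ℕ → ℝ, 0 ≤ ∑ t ∈ Finset.range nT, ∑ t' ∈ Finset.range nT, ∑ p ∈ Finset.range nc,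
      ∑ q ∈ Finset.range nc, Y (nc * t + p) (nc * t' + q) * (x t p * x t' q) := by
    intro x
    have h := hY (fun al => x (al / nc) (al % nc))
    rw [sum_pairs] at h
    have e : ∑ t ∈ Finset.range nT, ∑ p ∈ Finset.range nc,
        ∑ be ∈ Finset.range (nT * nc), Y (nc * t + p) be * x ((nc * t + p) / nc) ((nc * t + p) % nc) * x (be / nc) (be % nc)
        = ∑ t ∈ Finset.range nT, ∑ t' ∈ Finset.range nT, ∑ p ∈ Finset.range nc,
      ∑ q ∈ Finset.range nc, Y (nc * t + p) (nc * t' + q) * (x t p * x t' q) := by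
      apply Finset.sum_congr rfl
      intro t _
      rw [Finset.sum_comm]
      rw [sum_pairs]
      apply Finset.sum_congr rfl
      intro t' _
      rw [Finset.sum_comm]
      apply Finset.sum_congr rfl
      intro p hp
      apply Finset.sum_congr rfl
      intro q hq
      have hp' := Finset.mem_range.mp hp
      have hq' := Finset.mem_range.mp hq
      have hn : 0 < nc := by omega
      rw [Nat.mul_add_div hn, Nat.mul_add_div hn, Nat.div_eq_of_lt hp', Nat.div_eq_of_lt hq',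
        Nat.mul_add_mod, Nat.mul_add_mod, Nat.mod_eq_of_lt hp', Nat.mod_eq_of_lt hq']
      simp only [Nat.add_zero]
      ring
    rw [e] at h
    exact h
  have h1 := key (fun t p => (z t p).re)
  have h2 := key (fun t p => (z t p).im)
  have h3 := add_nonneg h1 h2
  rw [← Finset.sum_add_distrib] at h3
  refine le_of_le_of_eq h3 ?_
  apply Finset.sum_congr rfl
  intro t _
  rw [← Finset.sum_add_distrib]
  apply Finset.sum_congr rfl
  intro t' _
  rw [← Finset.sum_add_distrib]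
  apply Finset.sum_congr rfl
  intro p _
  rw [← Finset.sum_add_distrib]
  apply Finset.sum_congr rfl
  intro q _
  simp only [Complex.mul_re, Complex.conj_re, Complex.conj_im]
  ring

/-- the product of the two entries at the codes 1, 2 of T -/
noncomputable def CC (B : Matrix (Fin 4) (Fin 4) ℂ) (T : ℕ) : ℂ :=
  B (Fin.ofNat 4 (dg 4 T 1 / 4)) (Fin.ofNat 4 (dg 4 T 1 % 4)) * B (Fin.ofNat 4 (dg 4 T 2 / 4)) (Fin.ofNat 4 (dg 4 T 2 % 4))

theorem csw_div (c : ℕ) (h : c < 16) : csw c / 4 = c % 4 := by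
  have : csw c = 4 * (c % 4) + c / 4 := rfl
  omega
theorem csw_mod (c : ℕ) (h : c < 16) : csw c % 4 = c / 4 := by
  have : csw c = 4 * (c % 4) + c / 4 := rfl
  omega

theorem dg4_lt (n i : ℕ) : dg 4 n i < 16 := by
  have : dg 4 n i = (n >>> (4 * i)) % 16 := rfl
  omega
theorem dg2_lt (n i : ℕ) : dg 2 n i < 4 := by
  have : dg 2 n i = (n >>> (2 * i)) % 4 := rfl
  omega

theorem evM_split (A : Matrix (Fin 4) (Fin 4) ℂ) (hA : A.IsHermitian) (σ : Equiv.Perm (Fin 4)) (T T' s : ℕ) :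
    evM A σ (Mf 4 T T' s)
      = (∏ i ∈ Finset.range 4, (A.submatrix σ σ) (Fin.ofNat 4 i) (Fin.ofNat 4 (dg 2 (gtab s) i)))
        * (CC (A.submatrix σ σ) T' * (starRingEnd ℂ) (CC (A.submatrix σ σ) T)) := by
  have hh : ∀ i j, (starRingEnd ℂ) (A i j) = A j i := fun i j => hA.apply j i
  have m0 : Mf 4 T T' s 0 = 4 * 0 + dg 2 (gtab s) 0 := rfl
  have m1 : Mf 4 T T' s 1 = 4 * 1 + dg 2 (gtab s) 1 := rfl
  have m2 : Mf 4 T T' s 2 = 4 * 2 + dg 2 (gtab s) 2 := rfl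
  have m3 : Mf 4 T T' s 3 = 4 * 3 + dg 2 (gtab s) 3 := rfl
  have m4 : Mf 4 T T' s 4 = dg 4 T' 1 := rfl
  have m5 : Mf 4 T T' s 5 = dg 4 T' 2 := rfl
  have m6 : Mf 4 T T' s 6 = csw (dg 4 T 1) := rfl
  have m7 : Mf 4 T T' s 7 = csw (dg 4 T 2) := rfl
  have l0 := dg2_lt (gtab s) 0
  have l1 := dg2_lt (gtab s) 1
  have l2 := dg2_lt (gtab s) 2
  have l3 := dg2_lt (gtab s) 3
  unfold evM
  simp only [Finset.prod_range_succ, Finset.prod_range_zero]
  rw [m0, m1, m2, m3, m4, m5, m6, m7]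
  rw [show (4 * 0 + dg 2 (gtab s) 0) / 4 = 0 by omega, show (4 * 0 + dg 2 (gtab s) 0) % 4 = dg 2 (gtab s) 0 by omega,
    show (4 * 1 + dg 2 (gtab s) 1) / 4 = 1 by omega, show (4 * 1 + dg 2 (gtab s) 1) % 4 = dg 2 (gtab s) 1 by omega,
    show (4 * 2 + dg 2 (gtab s) 2) / 4 = 2 by omega, show (4 * 2 + dg 2 (gtab s) 2) % 4 = dg 2 (gtab s) 2 by omega,
    show (4 * 3 + dg 2 (gtab s) 3) / 4 = 3 by omega, show (4 * 3 + dg 2 (gtab s) 3) % 4 = dg 2 (gtab s) 3 by omega,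
    csw_div _ (dg4_lt T 1), csw_div _ (dg4_lt T 2), csw_mod _ (dg4_lt T 1), csw_mod _ (dg4_lt T 2)]
  unfold CC
  simp only [Matrix.submatrix_apply, map_mul, hh]
  ring

end Pool.W258.P4.Blk4A

namespace Pool.W258.P4
open Blk4A

theorem blk4_ : Pool.W258.P4.P_BLK 4 24 := by
  intro nc bar nT Ts A u Y hA hY
  have hH : A.IsHermitian := hA.1
  -- for every permutation
  have hdet : ∀ σ : Equiv.Perm (Fin 4), ∃ d : ℝ, 0 ≤ d ∧ ((A.submatrix σ σ).det = (d : ℂ)) := by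
    intro σ
    have h := (hA.submatrix σ).det_nonneg
    have h' := Complex.nonneg_iff.mp h
    exact ⟨(A.submatrix σ σ).det.re, h'.1, Complex.ext (by rw [Complex.ofReal_re]) (by rw [Complex.ofReal_im]; exact h'.2.symm)⟩
  choose d hd0 hd using hdet
  -- the vectors
  let z : Equiv.Perm (Fin 4) → ℕ → ℕ → ℂ := fun σ t p =>
    (if bar = 0 then u (pactN nc σ p) else (starRingEnd ℂ) (u (pactN nc σ p))) * CC (A.submatrix σ σ) (dg 32 Ts t)
  have hterm : ∀ t t' p q : ℕ,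
      ∑ s ∈ Finset.range 24, sgR 4 s * Phi nc A u (if bar = 0 then p else q) (if bar = 0 then q else p)
        (Mf 4 (dg 32 Ts t) (dg 32 Ts t') s)
      = ∑ σ : Equiv.Perm (Fin 4), d σ * ((starRingEnd ℂ) (z σ t p) * z σ t' q).re := by
    intro t t' p q
    have e1 : ∀ s, sgR 4 s * Phi nc A u (if bar = 0 then p else q) (if bar = 0 then q else p)
        (Mf 4 (dg 32 Ts t) (dg 32 Ts t') s)
        = (∑ σ : Equiv.Perm (Fin 4), ((sgR 4 s : ℝ) : ℂ) *
          (∏ i ∈ Finset.range 4, (A.submatrix σ σ) (Fin.ofNat 4 i) (Fin.ofNat 4 (dg 2 (gtab s) i))) *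
          ((starRingEnd ℂ) (z σ t p) * z σ t' q)).re := by
      intro s
      unfold Phi
      rw [← Complex.re_ofReal_mul, Finset.mul_sum]
      congr 1
      apply Finset.sum_congr rfl
      intro σ _
      rw [evM_split A hH]
      by_cases hb : bar = 0
      · simp only [z, hb, if_true, map_mul]
        ring
      · simp only [z, hb, if_false, map_mul, Complex.conj_conj]
        ring
    simp only [e1]
    rw [← Complex.re_sum, Finset.sum_comm, Complex.re_sum]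
    apply Finset.sum_congr rfl
    intro σ _
    rw [← Finset.sum_mul, free_det, hd, Complex.re_ofReal_mul]
  have hform : blkF nc A u 4 bar 24 nT Ts Y
      = ∑ σ : Equiv.Perm (Fin 4), d σ * ∑ t ∈ Finset.range nT, ∑ t' ∈ Finset.range nT, ∑ p ∈ Finset.range nc,
          ∑ q ∈ Finset.range nc, Y (nc * t + p) (nc * t' + q) * ((starRingEnd ℂ) (z σ t p) * z σ t' q).re := by
    have eL : ∀ t t', ∑ s ∈ Finset.range 24, sgR 4 s * ∑ p ∈ Finset.range nc, ∑ q ∈ Finset.range nc,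
        Y (nc * t + p) (nc * t' + q) * Phi nc A u (if bar = 0 then p else q) (if bar = 0 then q else p)
          (Mf 4 (dg 32 Ts t) (dg 32 Ts t') s)
        = ∑ p ∈ Finset.range nc, ∑ q ∈ Finset.range nc, Y (nc * t + p) (nc * t' + q) *
          ∑ σ : Equiv.Perm (Fin 4), d σ * ((starRingEnd ℂ) (z σ t p) * z σ t' q).re := by
      intro t t'
      have e1 : ∀ s ∈ Finset.range 24, sgR 4 s * ∑ p ∈ Finset.range nc, ∑ q ∈ Finset.range nc,
          Y (nc * t + p) (nc * t' + q) * Phi nc A u (if bar = 0 then p else q) (if bar = 0 then q else p)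
            (Mf 4 (dg 32 Ts t) (dg 32 Ts t') s)
          = ∑ p ∈ Finset.range nc, ∑ q ∈ Finset.range nc,
            Y (nc * t + p) (nc * t' + q) * (sgR 4 s * Phi nc A u (if bar = 0 then p else q) (if bar = 0 then q else p)
            (Mf 4 (dg 32 Ts t) (dg 32 Ts t') s)) := by
        intro s _
        rw [Finset.mul_sum]
        apply Finset.sum_congr rfl
        intro p _
        rw [Finset.mul_sum]
        apply Finset.sum_congr rfl
        intro q _
        ring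
      rw [Finset.sum_congr rfl e1, Finset.sum_comm]
      apply Finset.sum_congr rfl
      intro p _
      rw [Finset.sum_comm]
      apply Finset.sum_congr rfl
      intro q _
      rw [← Finset.mul_sum, hterm]
    have eL2 : blkF nc A u 4 bar 24 nT Ts Y
        = ∑ t ∈ Finset.range nT, ∑ t' ∈ Finset.range nT, ∑ p ∈ Finset.range nc, ∑ q ∈ Finset.range nc,
          Y (nc * t + p) (nc * t' + q) *
          ∑ σ : Equiv.Perm (Fin 4), d σ * ((starRingEnd ℂ) (z σ t p) * z σ t' q).re := by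
      unfold blkF
      apply Finset.sum_congr rfl
      intro t _
      apply Finset.sum_congr rfl
      intro t' _
      exact eL t t'
    rw [eL2]
    have eR : ∀ σ : Equiv.Perm (Fin 4), d σ * ∑ t ∈ Finset.range nT, ∑ t' ∈ Finset.range nT, ∑ p ∈ Finset.range nc,
          ∑ q ∈ Finset.range nc, Y (nc * t + p) (nc * t' + q) * ((starRingEnd ℂ) (z σ t p) * z σ t' q).re
        = ∑ t ∈ Finset.range nT, ∑ t' ∈ Finset.range nT, ∑ p ∈ Finset.range nc,
          ∑ q ∈ Finset.range nc, Y (nc * t + p) (nc * t' + q) * (d σ * ((starRingEnd ℂ) (z σ t p) * z σ t' q).re) := by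
      intro σ
      rw [Finset.mul_sum]
      apply Finset.sum_congr rfl
      intro t _
      rw [Finset.mul_sum]
      apply Finset.sum_congr rfl
      intro t' _
      rw [Finset.mul_sum]
      apply Finset.sum_congr rfl
      intro p _
      rw [Finset.mul_sum]
      apply Finset.sum_congr rfl
      intro q _
      ring
    rw [Finset.sum_congr rfl (fun σ _ => eR σ)]
    symm
    rw [Finset.sum_comm]
    apply Finset.sum_congr rfl
    intro t _
    rw [Finset.sum_comm]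
    apply Finset.sum_congr rfl
    intro t' _
    rw [Finset.sum_comm]
    apply Finset.sum_congr rfl
    intro p _
    rw [Finset.sum_comm]
    apply Finset.sum_congr rfl
    intro q _
    rw [Finset.mul_sum]
  rw [hform]
  apply Finset.sum_nonneg
  intro σ _
  exact mul_nonneg (hd0 σ) (gram_nonneg nc nT Y hY (z σ))

end Pool.W258.P4
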