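import Pool.Agent.W258.P4.Data211

set_option autoImplicit false
set_option maxHeartbeats 4000000
set_option maxRecDepth 1000000

namespace Pool.W258.P4

theorem key211 : keyOK md211 = true := by decide +kernel
theorem thok211 : thOK md211 th211 = true := by decide +kernel
theorem hint211_0 : hintOK md211 bd211_0 = true := by decide +kernel
theorem hint211_1 : hintOK md211 bd211_1 = true := by decide +kernel
theorem hint211_2 : hintOK md211 bd211_2 = true := by decide +kernel
theorem cst211_0 : cstOK 8 bd211_0 = true := by decide +kernel
theorem cst211_1 : cstOK 108 bd211_1 = true := by decide +kernel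
theorem cst211_2 : cstOK 92 bd211_2 = true := by decide +kernel
theorem row211_0 : rowOK 8 bd211_0 = true := by decide +kernel
theorem row211_1 : rowOK 108 bd211_1 = true := by decide +kernel
theorem row211_2 : rowOK 92 bd211_2 = true := by decide +kernel
/-- the blocks -/
def bs211 : List BD := [bd211_0, bd211_1, bd211_2]
theorem tot211 : decide ((bs211.map (fun b => blockZ md211 b)).sum = tgtZ md211 true den211 th211) = true := by decide +kernel

end Pool.W258.P4
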