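import Pool.Agent.W258.P4.Data22

set_option autoImplicit false
set_option maxHeartbeats 4000000
set_option maxRecDepth 1000000

namespace Pool.W258.P4

theorem key22 : keyOK md22 = true := by decide +kernel
theorem thok22 : thOK md22 th22 = true := by decide +kernel
theorem hint22_0 : hintOK md22 bd22_0 = true := by decide +kernel
theorem hint22_1 : hintOK md22 bd22_1 = true := by decide +kernel
theorem cst22_0 : cstOK 81 bd22_0 = true := by decide +kernel
theorem cst22_1 : cstOK 69 bd22_1 = true := by decide +kernel
theorem row22_0 : rowOK 81 bd22_0 = true := by decide +kernel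
theorem row22_1 : rowOK 69 bd22_1 = true := by decide +kernel
/-- the blocks -/
def bs22 : List BD := [bd22_0, bd22_1]
theorem tot22 : decide ((bs22.map (fun b => blockZ md22 b)).sum = tgtZ md22 false den22 th22) = true := by decide +kernel

end Pool.W258.P4
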