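import Pool.Agent.W258.P4.Data31

set_option autoImplicit false
set_option maxHeartbeats 4000000
set_option maxRecDepth 1000000

namespace Pool.W258.P4

theorem key31 : keyOK md31 = true := by decide +kernel
theorem thok31 : thOK md31 th31 = true := by decide +kernel
theorem hint31_0 : hintOK md31 bd31_0 = true := by decide +kernel
theorem hint31_1 : hintOK md31 bd31_1 = true := by decide +kernel
theorem hint31_2 : hintOK md31 bd31_2 = true := by decide +kernel
theorem hint31_3 : hintOK md31 bd31_3 = true := by decide +kernel
theorem cst31_0 : cstOK 8 bd31_0 = true := by decide +kernel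
theorem cst31_1 : cstOK 108 bd31_1 = true := by decide +kernel
theorem cst31_2 : cstOK 108 bd31_2 = true := by decide +kernel
theorem cst31_3 : cstOK 92 bd31_3 = true := by decide +kernel
theorem row31_0 : rowOK 8 bd31_0 = true := by decide +kernel
theorem row31_1 : rowOK 108 bd31_1 = true := by decide +kernel
theorem row31_2 : rowOK 108 bd31_2 = true := by decide +kernel
theorem row31_3 : rowOK 92 bd31_3 = true := by decide +kernel
/-- the blocks -/
def bs31 : List BD := [bd31_0, bd31_1, bd31_2, bd31_3]
theorem tot31 : decide ((bs31.map (fun b => blockZ md31 b)).sum = tgtZ md31 false den31 th31) = true := by decide +kernel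

end Pool.W258.P4
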