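import Pool.Agent.W258.P4.Spec

/-!
# P4-DET: permanent minus determinant of a 4x4 positive semidefinite matrix is nonnegative
-/

set_option autoImplicit false
open Matrix
open scoped ComplexOrder BigOperators Kronecker

namespace Pool.W258.P4.Det

/-- permanents by expansion along the first row -/
noncomputable def pm : (n : ℕ) → (Fin n → Fin n → ℂ) → ℂ
  | 0, _ => 1
  | n + 1, M => ∑ p : Fin (n + 1), M 0 p * pm n (fun t s => M t.succ (Equiv.swap 0 p s.succ))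

lemma pm_eq (n : ℕ) : ∀ M : Fin n → Fin n → ℂ,
    ∑ σ : Equiv.Perm (Fin n), ∏ t, M t (σ t) = pm n M := by
  induction n with
  | zero => intro M; simp [pm]
  | succ n ih =>
    intro M
    rw [← Equiv.sum_comp Equiv.Perm.decomposeFin.symm, Fintype.sum_prod_type]
    unfold pm
    refine Finset.sum_congr rfl (fun p _ => ?_)
    rw [← ih, Finset.mul_sum]
    refine Finset.sum_congr rfl (fun e _ => ?_)
    rw [Fin.prod_univ_succ, Equiv.Perm.decomposeFin_symm_apply_zero]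
    simp only [Equiv.Perm.decomposeFin_symm_apply_succ]

lemma sg_sum (A : Matrix (Fin 4) (Fin 4) ℂ) :
    ∑ σ : Equiv.Perm (Fin 4), pr A σ * sg σ = A.det := by
  rw [← Matrix.det_transpose, Matrix.det_apply]
  refine Finset.sum_congr rfl (fun σ _ => ?_)
  unfold pr sg
  rw [mul_comm]
  simp only [Matrix.transpose_apply, Units.smul_def, zsmul_eq_mul]

lemma pm1 (M : Fin 1 → Fin 1 → ℂ) : pm 1 M = M 0 0 := by
  rw [pm, Fin.sum_univ_one, pm]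
  ring

lemma pm2 (M : Fin 2 → Fin 2 → ℂ) : pm 2 M = M 0 0 * M 1 1 + M 0 1 * M 1 0 := by
  have s0 : (Equiv.swap (0 : Fin 2) 0) 1 = 1 := by decide
  have s1 : (Equiv.swap (0 : Fin 2) 1) 1 = 0 := by decide
  rw [pm, Fin.sum_univ_two, pm1, pm1]
  have f0 : (Fin.succ (0 : Fin 1)) = 1 := rfl
  simp only [f0, s0, s1]

lemma pm3 (M : Fin 3 → Fin 3 → ℂ) : pm 3 M =
    M 0 0 * (M 1 1 * M 2 2 + M 1 2 * M 2 1) + M 0 1 * (M 1 0 * M 2 2 + M 1 2 * M 2 0)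
      + M 0 2 * (M 1 0 * M 2 1 + M 1 1 * M 2 0) := by
  rw [pm, Fin.sum_univ_three, pm2, pm2, pm2]
  have a1 : (Equiv.swap (0 : Fin 3) 0) 1 = 1 := by decide
  have a2 : (Equiv.swap (0 : Fin 3) 0) 2 = 2 := by decide
  have b1 : (Equiv.swap (0 : Fin 3) 1) 1 = 0 := by decide
  have b2 : (Equiv.swap (0 : Fin 3) 1) 2 = 2 := by decide
  have c1 : (Equiv.swap (0 : Fin 3) 2) 1 = 1 := by decide
  have c2 : (Equiv.swap (0 : Fin 3) 2) 2 = 0 := by decide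
  have f0 : (Fin.succ (0 : Fin 2)) = 1 := rfl
  have f1 : (Fin.succ (1 : Fin 2)) = 2 := rfl
  simp only [f0, f1, a1, a2, b1, b2, c1, c2]
  ring

lemma pm4 (A : Fin 4 → Fin 4 → ℂ) : pm 4 A =
    A 0 0 * (A 1 1 * (A 2 2 * A 3 3 + A 2 3 * A 3 2) + A 1 2 * (A 2 1 * A 3 3 + A 2 3 * A 3 1)
      + A 1 3 * (A 2 1 * A 3 2 + A 2 2 * A 3 1))
    + A 0 1 * (A 1 0 * (A 2 2 * A 3 3 + A 2 3 * A 3 2) + A 1 2 * (A 2 0 * A 3 3 + A 2 3 * A 3 0)
      + A 1 3 * (A 2 0 * A 3 2 + A 2 2 * A 3 0))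
    + A 0 2 * (A 1 0 * (A 2 1 * A 3 3 + A 2 3 * A 3 1) + A 1 1 * (A 2 0 * A 3 3 + A 2 3 * A 3 0)
      + A 1 3 * (A 2 0 * A 3 1 + A 2 1 * A 3 0))
    + A 0 3 * (A 1 0 * (A 2 1 * A 3 2 + A 2 2 * A 3 1) + A 1 1 * (A 2 0 * A 3 2 + A 2 2 * A 3 0)
      + A 1 2 * (A 2 0 * A 3 1 + A 2 1 * A 3 0)) := by
  rw [pm, Fin.sum_univ_four, pm3, pm3, pm3, pm3]
  have a1 : (Equiv.swap (0 : Fin 4) 0) 1 = 1 := by decide
  have a2 : (Equiv.swap (0 : Fin 4) 0) 2 = 2 := by decide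
  have a3 : (Equiv.swap (0 : Fin 4) 0) 3 = 3 := by decide
  have b1 : (Equiv.swap (0 : Fin 4) 1) 1 = 0 := by decide
  have b2 : (Equiv.swap (0 : Fin 4) 1) 2 = 2 := by decide
  have b3 : (Equiv.swap (0 : Fin 4) 1) 3 = 3 := by decide
  have c1 : (Equiv.swap (0 : Fin 4) 2) 1 = 1 := by decide
  have c2 : (Equiv.swap (0 : Fin 4) 2) 2 = 0 := by decide
  have c3 : (Equiv.swap (0 : Fin 4) 2) 3 = 3 := by decide
  have d1 : (Equiv.swap (0 : Fin 4) 3) 1 = 1 := by decide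
  have d2 : (Equiv.swap (0 : Fin 4) 3) 2 = 2 := by decide
  have d3 : (Equiv.swap (0 : Fin 4) 3) 3 = 0 := by decide
  have f0 : (Fin.succ (0 : Fin 3)) = 1 := rfl
  have f1 : (Fin.succ (1 : Fin 3)) = 2 := rfl
  have f2 : (Fin.succ (2 : Fin 3)) = 3 := rfl
  simp only [f0, f1, f2, a1, a2, a3, b1, b2, b3, c1, c2, c3, d1, d2, d3]
  ring

lemma det4 (A : Matrix (Fin 4) (Fin 4) ℂ) : A.det =
    A 0 0 * (A 1 1 * (A 2 2 * A 3 3 - A 2 3 * A 3 2) - A 1 2 * (A 2 1 * A 3 3 - A 2 3 * A 3 1)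
      + A 1 3 * (A 2 1 * A 3 2 - A 2 2 * A 3 1))
    - A 0 1 * (A 1 0 * (A 2 2 * A 3 3 - A 2 3 * A 3 2) - A 1 2 * (A 2 0 * A 3 3 - A 2 3 * A 3 0)
      + A 1 3 * (A 2 0 * A 3 2 - A 2 2 * A 3 0))
    + A 0 2 * (A 1 0 * (A 2 1 * A 3 3 - A 2 3 * A 3 1) - A 1 1 * (A 2 0 * A 3 3 - A 2 3 * A 3 0)
      + A 1 3 * (A 2 0 * A 3 1 - A 2 1 * A 3 0))
    - A 0 3 * (A 1 0 * (A 2 1 * A 3 2 - A 2 2 * A 3 1) - A 1 1 * (A 2 0 * A 3 2 - A 2 2 * A 3 0)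
      + A 1 2 * (A 2 0 * A 3 1 - A 2 1 * A 3 0)) := by
  rw [Matrix.det_succ_row_zero, Fin.sum_univ_four]
  simp only [Matrix.det_fin_three, Matrix.submatrix_apply]
  have e : ∀ p : Fin 4, p.succAbove = fun i => p.succAbove i := fun p => rfl
  have f0 : (Fin.succ (0 : Fin 3)) = 1 := rfl
  have f1 : (Fin.succ (1 : Fin 3)) = 2 := rfl
  have f2 : (Fin.succ (2 : Fin 3)) = 3 := rfl
  have a0 : (Fin.succAbove (0 : Fin 4) 0) = 1 := rfl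
  have a1 : (Fin.succAbove (0 : Fin 4) 1) = 2 := rfl
  have a2 : (Fin.succAbove (0 : Fin 4) 2) = 3 := rfl
  have b0 : (Fin.succAbove (1 : Fin 4) 0) = 0 := rfl
  have b1 : (Fin.succAbove (1 : Fin 4) 1) = 2 := rfl
  have b2 : (Fin.succAbove (1 : Fin 4) 2) = 3 := rfl
  have c0 : (Fin.succAbove (2 : Fin 4) 0) = 0 := rfl
  have c1 : (Fin.succAbove (2 : Fin 4) 1) = 1 := rfl
  have c2 : (Fin.succAbove (2 : Fin 4) 2) = 3 := rfl
  have d0 : (Fin.succAbove (3 : Fin 4) 0) = 0 := rfl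
  have d1 : (Fin.succAbove (3 : Fin 4) 1) = 1 := rfl
  have d2 : (Fin.succAbove (3 : Fin 4) 2) = 2 := rfl
  simp only [f0, f1, f2, a0, a1, a2, b0, b1, b2, c0, c1, c2, d0, d1, d2]
  have v0 : ((0 : Fin 4) : ℕ) = 0 := rfl
  have v1 : ((1 : Fin 4) : ℕ) = 1 := rfl
  have v2 : ((2 : Fin 4) : ℕ) = 2 := rfl
  have v3 : ((3 : Fin 4) : ℕ) = 3 := rfl
  rw [v0, v1, v2, v3]
  ring

/-- values of the antisymmetric and symmetric weights -/
def ww (s : ℂ) (x1 x2 x3 : ℂ) : Fin 4 × Fin 4 → ℂ := fun p =>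
  (!![0, 0, 0, 0; 0, 0, x3, s * x2; 0, s * x3, 0, x1; 0, x2, s * x1, 0] : Matrix (Fin 4) (Fin 4) ℂ)
    p.1 p.2

/-- weights of the second step -/
def uu (s : ℂ) (x2 x3 : ℂ) : Fin 4 → ℂ := ![0, 0, s * x3, x2]

lemma kron_nonneg (A : Matrix (Fin 4) (Fin 4) ℂ) (hA : A.PosSemidef) (w : Fin 4 × Fin 4 → ℂ) :
    0 ≤ star w ⬝ᵥ ((A ⊗ₖ A) *ᵥ w) := (hA.kronecker hA).dotProduct_mulVec_nonneg w

lemma ident (A : Matrix (Fin 4) (Fin 4) ℂ) (hA : A.PosSemidef) :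
    pm 4 (fun i j => A i j) - A.det =
      (1 / 2) * (star (ww 1 (A 0 1) (A 0 2) (A 0 3)) ⬝ᵥ ((A ⊗ₖ A) *ᵥ (ww 1 (A 0 1) (A 0 2) (A 0 3)))
        + star (ww (-1) (A 0 1) (A 0 2) (A 0 3)) ⬝ᵥ ((A ⊗ₖ A) *ᵥ (ww (-1) (A 0 1) (A 0 2) (A 0 3))))
      + A 0 0 * (star (uu 1 (A 1 2) (A 1 3)) ⬝ᵥ (A *ᵥ (uu 1 (A 1 2) (A 1 3)))
        + star (uu (-1) (A 1 2) (A 1 3)) ⬝ᵥ (A *ᵥ (uu (-1) (A 1 2) (A 1 3))))
      + 2 * (A 0 0 * (A 1 1 * (A 2 3 * A 3 2))) := by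
  have c1 : star (A 0 1) = A 1 0 := hA.1.apply 1 0
  have c2 : star (A 0 2) = A 2 0 := hA.1.apply 2 0
  have c3 : star (A 0 3) = A 3 0 := hA.1.apply 3 0
  have c4 : star (A 1 2) = A 2 1 := hA.1.apply 2 1
  have c5 : star (A 1 3) = A 3 1 := hA.1.apply 3 1
  rw [pm4, det4]
  simp only [dotProduct, mulVec, Fintype.sum_prod_type, Fin.sum_univ_four, kroneckerMap_apply,
    Pi.star_apply]
  simp only [ww, uu, Matrix.of_apply, Matrix.cons_val, star_zero, star_mul', star_one, star_neg,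
    c1, c2, c3, c4, c5]
  ring

theorem det_ : P_DET := by
  intro A hA
  have h1 : Qdet A = pm 4 (fun i j => A i j) - A.det := by
    rw [← pm_eq, ← sg_sum]
    unfold Qdet
    simp only [mul_sub, mul_one, Finset.sum_sub_distrib]
    rfl
  have n0 : 0 ≤ A 0 0 := hA.diag_nonneg
  have n1 : 0 ≤ A 1 1 := hA.diag_nonneg
  have c6 : A 3 2 = star (A 2 3) := (hA.1.apply 3 2).symm
  have n2 : 0 ≤ A 2 3 * A 3 2 := by
    rw [c6]
    exact mul_star_self_nonneg _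
  have h2 : 0 ≤ Qdet A := by
    rw [h1, ident A hA]
    have k1 := kron_nonneg A hA (ww 1 (A 0 1) (A 0 2) (A 0 3))
    have k2 := kron_nonneg A hA (ww (-1) (A 0 1) (A 0 2) (A 0 3))
    have k3 := hA.dotProduct_mulVec_nonneg (uu 1 (A 1 2) (A 1 3))
    have k4 := hA.dotProduct_mulVec_nonneg (uu (-1) (A 1 2) (A 1 3))
    have half : (0 : ℂ) ≤ 1 / 2 := by
      rw [Complex.le_def]; norm_num
    have two : (0 : ℂ) ≤ 2 := by
      rw [Complex.le_def]; norm_num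
    exact add_nonneg (add_nonneg (mul_nonneg half (add_nonneg k1 k2))
      (mul_nonneg n0 (add_nonneg k3 k4))) (mul_nonneg two (mul_nonneg n0 (mul_nonneg n1 n2)))
  exact (Complex.le_def.1 h2).1

end Pool.W258.P4.Det

namespace Pool.W258.P4

theorem det_ : Pool.W258.P4.P_DET := Det.det_

end Pool.W258.P4
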