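import Pool.Agent.W258.P4.Spec

set_option autoImplicit false
open Matrix
open scoped ComplexOrder BigOperators

namespace Pool.W258.P4

theorem entry_eq (A : Matrix (Fin 4) (Fin 4) ℂ) (σ τ : Equiv.Perm (Fin 4)) :
    ∏ t : Fin 4, A (σ t) (τ t) = pr A (τ * σ⁻¹) := by
  unfold pr
  rw [← Equiv.prod_comp σ (fun s => A s ((τ * σ⁻¹) s))]
  refine Finset.prod_congr rfl fun t _ => ?_
  simp

theorem sum_shift (A : Matrix (Fin 4) (Fin 4) ℂ) (σ : Equiv.Perm (Fin 4))
    (x : Equiv.Perm (Fin 4) → ℂ) :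
    ∑ τ : Equiv.Perm (Fin 4), pr A (τ * σ⁻¹) * x τ =
      ∑ ρ : Equiv.Perm (Fin 4), pr A ρ * x (ρ * σ) := by
  rw [← Equiv.sum_comp (Equiv.mulRight σ) (fun τ => pr A (τ * σ⁻¹) * x τ)]
  refine Finset.sum_congr rfl fun ρ _ => ?_
  simp [mul_assoc]

theorem perm_eq (A : Matrix (Fin 4) (Fin 4) ℂ) :
    Matrix.permanent A = ∑ ρ : Equiv.Perm (Fin 4), pr A ρ := by
  unfold Matrix.permanent
  rw [← Equiv.sum_comp (Equiv.inv (Equiv.Perm (Fin 4))) (fun ρ => pr A ρ)]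
  refine Finset.sum_congr rfl fun σ _ => ?_
  unfold pr
  rw [← Equiv.prod_comp σ (fun s => A s ((Equiv.inv (Equiv.Perm (Fin 4)) σ) s))]
  refine Finset.prod_congr rfl fun t _ => ?_
  simp

theorem fin_ : P_FIN := by
  intro hQ A hA
  have hmv : ∀ (x : Equiv.Perm (Fin 4) → ℂ) (σ : Equiv.Perm (Fin 4)),
      ((Matrix.of (fun (σ : Equiv.Perm (Fin 4)) (τ : Equiv.Perm (Fin 4)) =>
            ∏ t : Fin 4, A (σ t) (τ t))).mulVec x) σ =
        ∑ ρ : Equiv.Perm (Fin 4), pr A ρ * x (ρ * σ) := by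
    intro x σ
    rw [← sum_shift]
    change ∑ τ, (∏ t : Fin 4, A (σ t) (τ t)) * x τ = _
    refine Finset.sum_congr rfl fun τ _ => ?_
    rw [entry_eq]
  constructor
  · funext σ
    rw [hmv]
    simp only [mul_one, Pi.smul_apply, smul_eq_mul]
    exact (perm_eq A).symm
  · intro μ x hx hM
    have h0 := hQ A hA x
    have hN : ∑ σ : Equiv.Perm (Fin 4), (starRingEnd ℂ) (x σ) * x σ =
        ((∑ σ : Equiv.Perm (Fin 4), Complex.normSq (x σ) : ℝ) : ℂ) := by
      rw [Complex.ofReal_sum]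
      refine Finset.sum_congr rfl fun σ _ => ?_
      rw [mul_comm, Complex.mul_conj]
    have hpos : 0 < ∑ σ : Equiv.Perm (Fin 4), Complex.normSq (x σ) := by
      obtain ⟨σ, hσ⟩ := Function.ne_iff.mp hx
      refine Finset.sum_pos' (fun τ _ => Complex.normSq_nonneg _) ⟨σ, Finset.mem_univ _, ?_⟩
      exact Complex.normSq_pos.mpr hσ
    have hE : ∀ σ, ∑ ρ : Equiv.Perm (Fin 4), pr A ρ * x (ρ * σ) = μ * x σ := by
      intro σ
      rw [← hmv, hM]
      rfl
    have hQe : Qreg A x = (Matrix.permanent A - μ) *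
        ((∑ σ : Equiv.Perm (Fin 4), Complex.normSq (x σ) : ℝ) : ℂ) := by
      unfold Qreg
      have h1 : ∀ ρ : Equiv.Perm (Fin 4), pr A ρ * ∑ σ : Equiv.Perm (Fin 4),
          (starRingEnd ℂ) (x σ) * (x σ - x (ρ * σ)) =
          pr A ρ * (∑ σ : Equiv.Perm (Fin 4), (starRingEnd ℂ) (x σ) * x σ) -
            ∑ σ : Equiv.Perm (Fin 4), (starRingEnd ℂ) (x σ) * (pr A ρ * x (ρ * σ)) := by
        intro ρ
        rw [Finset.mul_sum, Finset.mul_sum, ← Finset.sum_sub_distrib]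
        refine Finset.sum_congr rfl fun σ _ => ?_
        ring
      rw [Finset.sum_congr rfl fun ρ _ => h1 ρ, Finset.sum_sub_distrib, ← Finset.sum_mul,
        ← perm_eq, Finset.sum_comm]
      have h2 : ∑ σ : Equiv.Perm (Fin 4), ∑ ρ : Equiv.Perm (Fin 4),
          (starRingEnd ℂ) (x σ) * (pr A ρ * x (ρ * σ)) =
          μ * ∑ σ : Equiv.Perm (Fin 4), (starRingEnd ℂ) (x σ) * x σ := by
        rw [Finset.mul_sum]
        refine Finset.sum_congr rfl fun σ _ => ?_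
        rw [← Finset.mul_sum, hE σ]
        ring
      rw [h2, hN]
      ring
    rw [hQe, Complex.re_mul_ofReal] at h0
    have h3 := nonneg_of_mul_nonneg_left h0 hpos
    rw [Complex.sub_re] at h3
    linarith

end Pool.W258.P4
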