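import Pool.Agent.W258.P4.Spec2

set_option autoImplicit false
open Matrix
open scoped ComplexOrder BigOperators

namespace Pool.W258.P4

/-- every permutation table is the table of a permutation -/
theorem ga_tab : ∀ gi : Fin 24, ∃ h : Equiv.Perm (Fin 4), ∀ a : Fin 4, dg 2 (gtab gi) a = (h a : ℕ) := by
  decide +kernel

theorem ga_pac3 : ∀ (h : Equiv.Perm (Fin 4)) (p : Fin 3),
    Nat.sub (Nat.xor (h 0 : ℕ) (h p.succ : ℕ)) 1 = (pact h p : ℕ) := by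
  decide +kernel

theorem ga_pact : ∀ (σ h : Equiv.Perm (Fin 4)) (p : Fin 3), pact σ (pact h p) = pact (σ * h) p := by
  decide +kernel

theorem ga_pactN (nc : ℕ) (hnc : nc = 3 ∨ nc = 4) (g : ℕ) (h : Equiv.Perm (Fin 4))
    (hg : ∀ a : Fin 4, dg 2 g a = (h a : ℕ)) (p : ℕ) (hp : p < nc) (σ : Equiv.Perm (Fin 4)) :
    pactN nc σ (pac nc g p) = pactN nc (σ * h) p := by
  rcases hnc with rfl | rfl
  · have h1 : pac 3 g p = (pact h ⟨p, hp⟩ : ℕ) := by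
      have e0 : dg 2 g 0 = (h 0 : ℕ) := hg 0
      have e1 : dg 2 g (Nat.add p 1) = (h (Fin.succ (⟨p, hp⟩ : Fin 3)) : ℕ) := hg (Fin.succ (⟨p, hp⟩ : Fin 3))
      have e2 := ga_pac3 h ⟨p, hp⟩
      show Nat.sub (Nat.xor (dg 2 g 0) (dg 2 g (Nat.add p 1))) 1 = _
      rw [e0, e1]; exact e2
    have h2 : (Fin.ofNat 3 p : Fin 3) = ⟨p, hp⟩ := by
      apply Fin.ext; show p % 3 = p; exact Nat.mod_eq_of_lt hp
    have h3 : (Fin.ofNat 3 ((pact h ⟨p, hp⟩ : Fin 3) : ℕ) : Fin 3) = pact h ⟨p, hp⟩ := by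
      apply Fin.ext; show ((pact h ⟨p, hp⟩ : Fin 3) : ℕ) % 3 = _; exact Nat.mod_eq_of_lt (Fin.isLt _)
    unfold pactN
    rw [if_neg (by norm_num), if_neg (by norm_num), h1, h2, h3, ga_pact]
  · have h1 : pac 4 g p = (h ⟨p, hp⟩ : ℕ) := hg ⟨p, hp⟩
    have h2 : (Fin.ofNat 4 p : Fin 4) = ⟨p, hp⟩ := by
      apply Fin.ext; show p % 4 = p; exact Nat.mod_eq_of_lt hp
    have h3 : (Fin.ofNat 4 ((h ⟨p, hp⟩ : Fin 4) : ℕ) : Fin 4) = h ⟨p, hp⟩ := by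
      apply Fin.ext; show ((h ⟨p, hp⟩ : Fin 4) : ℕ) % 4 = _; exact Nat.mod_eq_of_lt (Fin.isLt _)
    unfold pactN
    rw [if_pos rfl, if_pos rfl, h1, h2, h3]; rfl

theorem ga_evM (A : Matrix (Fin 4) (Fin 4) ℂ) (g : ℕ) (h : Equiv.Perm (Fin 4))
    (hg : ∀ a : Fin 4, dg 2 g a = (h a : ℕ)) (M : ℕ → ℕ) (hM : ∀ i, i < 8 → M i < 16)
    (σ : Equiv.Perm (Fin 4)) :
    evM A σ (fun i => cact g (M i)) = evM A (σ * h) M := by
  unfold evM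
  apply Finset.prod_congr rfl
  intro i hi
  have hc := hM i (Finset.mem_range.mp hi)
  have h1 : M i / 4 < 4 := by omega
  have h2 : M i % 4 < 4 := by omega
  have e1 : dg 2 g (Nat.div (M i) 4) = (h ⟨M i / 4, h1⟩ : ℕ) := hg ⟨M i / 4, h1⟩
  have e2 : dg 2 g (Nat.mod (M i) 4) = (h ⟨M i % 4, h2⟩ : ℕ) := hg ⟨M i % 4, h2⟩
  have hca : cact g (M i) = 4 * (h ⟨M i / 4, h1⟩ : ℕ) + (h ⟨M i % 4, h2⟩ : ℕ) := by
    show 4 * (dg 2 g (Nat.div (M i) 4)) + (dg 2 g (Nat.mod (M i) 4)) = _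
    rw [e1, e2]
  have l1 : (h ⟨M i / 4, h1⟩ : ℕ) < 4 := Fin.isLt _
  have l2 : (h ⟨M i % 4, h2⟩ : ℕ) < 4 := Fin.isLt _
  have f1 : (Fin.ofNat 4 (cact g (M i) / 4) : Fin 4) = h ⟨M i / 4, h1⟩ := by
    apply Fin.ext; show (cact g (M i) / 4) % 4 = _; rw [hca]; omega
  have f2 : (Fin.ofNat 4 (cact g (M i) % 4) : Fin 4) = h ⟨M i % 4, h2⟩ := by
    apply Fin.ext; show (cact g (M i) % 4) % 4 = _; rw [hca]; omega
  have f3 : (Fin.ofNat 4 (M i / 4) : Fin 4) = ⟨M i / 4, h1⟩ := by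
    apply Fin.ext; show (M i / 4) % 4 = _; exact Nat.mod_eq_of_lt h1
  have f4 : (Fin.ofNat 4 (M i % 4) : Fin 4) = ⟨M i % 4, h2⟩ := by
    apply Fin.ext; show (M i % 4) % 4 = _; exact Nat.mod_eq_of_lt h2
  show A (σ (Fin.ofNat 4 (cact g (M i) / 4))) (σ (Fin.ofNat 4 (cact g (M i) % 4))) = _
  rw [f1, f2, f3, f4]; rfl

theorem ga_ : P_GA := by
  intro nc hnc A u gi p q M hgi hp hq hM
  obtain ⟨h, hg⟩ := ga_tab ⟨gi, hgi⟩
  have hg' : ∀ a : Fin 4, dg 2 (gtab gi) a = (h a : ℕ) := hg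
  unfold Phi
  congr 1
  rw [← Equiv.sum_comp (Equiv.mulRight h) (fun σ : Equiv.Perm (Fin 4) =>
    (starRingEnd ℂ) (u (pactN nc σ p)) * u (pactN nc σ q) * evM A σ M)]
  apply Finset.sum_congr rfl
  intro σ _
  rw [ga_pactN nc hnc _ h hg' p hp σ, ga_pactN nc hnc _ h hg' q hq σ, ga_evM A _ h hg' M hM σ]
  rfl

end Pool.W258.P4
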