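import Mathlib
set_option autoImplicit false
set_option maxHeartbeats 4000000
set_option maxRecDepth 1000000

namespace Pool.W258.P4

/-- sum over i < n, as a kernel friendly recursion -/
def nsum (n : ℕ) (f : ℕ → ℕ) : ℕ := Nat.rec (motive := fun _ => ℕ) 0 (fun i s => Nat.add s (f i)) n
def zsum (n : ℕ) (f : ℕ → ℤ) : ℤ := Nat.rec (motive := fun _ => ℤ) 0 (fun i s => Int.add s (f i)) n
def nall (n : ℕ) (f : ℕ → Bool) : Bool := Nat.rec (motive := fun _ => Bool) true (fun i s => cond s (f i) false) n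
def lsum {α : Type} (l : List α) (f : α → ℕ) : ℕ := List.rec (motive := fun _ => ℕ) 0 (fun a _ s => Nat.add (f a) s) l
def lall {α : Type} (l : List α) (f : α → Bool) : Bool := List.rec (motive := fun _ => Bool) true (fun a _ s => cond (f a) s false) l

/-- digit i of n in base 2^w -/
def dg (w n i : ℕ) : ℕ := Nat.mod (Nat.shiftRight n (Nat.mul w i)) (Nat.pow 2 w)
/-- the 24 permutation tables, 8 bits each -/
def GT : ℕ := 669236436005411928080145373044091295208890640391302853860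
/-- their signs, one bit each (1 for odd) -/
def SG : ℕ := 6710886
def gtab (i : ℕ) : ℕ := dg 8 GT i
def cact (g c : ℕ) : ℕ := Nat.add (Nat.mul 4 (dg 2 g (Nat.div c 4))) (dg 2 g (Nat.mod c 4))
def csw (c : ℕ) : ℕ := Nat.add (Nat.mul 4 (Nat.mod c 4)) (Nat.div c 4)
def pac (nc g p : ℕ) : ℕ := cond (Nat.beq nc 4) (dg 2 g p) (Nat.sub (Nat.xor (dg 2 g 0) (dg 2 g (Nat.add p 1))) 1)
/-- code of the multiset of the f (M i), i < 8 -/
def mcd (f : ℕ → ℕ) : ℕ := nsum 8 (fun i => Nat.shiftLeft 1 (Nat.mul 4 (f i)))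
/-- the code transformation of a hint -/
def tf (g tr c : ℕ) : ℕ := cact g (cond (Nat.beq tr 0) c (csw c))

structure MD where
  nc : ℕ
  nm : ℕ
  MT : ℕ
  MC : ℕ
  IDX : ℕ
  KEY : ℕ
  KH : ℕ

structure BD where
  kd : ℕ
  bar : ℕ
  ns : ℕ
  nT : ℕ
  Ts : ℕ
  H : List ℕ
  rows : List ℕ
  R : List (ℕ × ℕ)
  rp : ℕ
  D0 : ℕ
  D1 : ℕ

/-- free part -/
def frcod (kd T T' s i : ℕ) : ℕ :=
  cond (Nat.beq kd 2)
    (cond (Nat.beq i 0)
      (Nat.add (Nat.mul 4 (Nat.div (dg 4 T 0) 4)) (cond (Nat.beq s 0) (Nat.div (dg 4 T' 0) 4) (Nat.mod (dg 4 T' 0) 4)))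
      (Nat.add (Nat.mul 4 (Nat.mod (dg 4 T 0) 4)) (cond (Nat.beq s 0) (Nat.mod (dg 4 T' 0) 4) (Nat.div (dg 4 T' 0) 4))))
    (Nat.add (Nat.mul 4 i) (dg 2 (gtab s) i))
/-- the monomial of the pair T, T', summand s -/
def Mf (kd T T' s i : ℕ) : ℕ :=
  cond (Nat.blt i kd) (frcod kd T T' s i)
    (cond (Nat.blt i (Nat.add kd (Nat.div (Nat.sub 8 kd) 2)))
      (dg 4 T' (Nat.add 1 (Nat.sub i kd)))
      (csw (dg 4 T (Nat.add 1 (Nat.sub i (Nat.add kd (Nat.div (Nat.sub 8 kd) 2)))))))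
def sbit (kd s : ℕ) : ℕ := cond (Nat.beq kd 2) s (cond (Nat.beq kd 4) (dg 1 SG s) 0)

def hnt (b : BD) (t t' s : ℕ) : ℕ := dg 16 (b.H.getD t 0) (Nat.add (Nat.mul t' b.ns) s)

def hintOK (md : MD) (b : BD) : Bool :=
  nall b.nT fun t => nall b.nT fun t' => nall b.ns fun s =>
    cond (Nat.blt (Nat.mod (hnt b t t' s) 32) 24)
      (cond (Nat.blt (Nat.div (hnt b t t' s) 64) md.nm)
        (Nat.beq (mcd (fun i => tf (gtab (Nat.mod (hnt b t t' s) 32)) (Nat.mod (Nat.div (hnt b t t' s) 32) 2)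
            (Mf b.kd (dg 32 b.Ts t) (dg 32 b.Ts t') s i)))
          (dg 64 md.MC (Nat.div (hnt b t t' s) 64))) false) false

/-- index of the key of (m, p, q) -/
def idx (md : MD) (m p q : ℕ) : ℕ := dg 8 (dg 128 md.IDX m) (Nat.add (Nat.mul 4 p) q)
/-- the same, p and q exchanged when e is not 0 -/
def idxs (md : MD) (e m p q : ℕ) : ℕ := cond (Nat.beq e 0) (idx md m p q) (idx md m q p)

def oYN : ℕ := 2361183241434822606848
/-- evaluation of the argument before it is passed on -/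
def frc1 {β : Type} (n : ℕ) (f : ℕ → β) : β := Nat.rec (motive := fun _ => β) (f 0) (fun k _ => f (Nat.succ k)) n

/-- index of (p, q) in the packed table im, p and q exchanged when e is not 0 -/
def ixs (im e p q : ℕ) : ℕ := cond (Nat.beq e 0) (dg 8 im (Nat.add (Nat.mul 4 p) q)) (dg 8 im (Nat.add (Nat.mul 4 q) p))

def entS (nc g e im : ℕ) (rowf : ℕ → ℕ) (c0 : ℕ) : ℕ :=
  nsum nc fun p => nsum nc fun q =>
    Nat.mul (dg 72 (rowf p) (Nat.add c0 q)) (Nat.shiftLeft 1 (Nat.mul 96 (ixs im e (pac nc g p) (pac nc g q))))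
def entO (nc g e im : ℕ) : ℕ :=
  nsum nc fun p => nsum nc fun q => (Nat.shiftLeft 1 (Nat.mul 96 (ixs im e (pac nc g p) (pac nc g q))))

def entZ (md : MD) (b : BD) (t t' h : ℕ) : ℤ :=
  frc1 (gtab (Nat.mod h 32)) fun g => frc1 (dg 128 md.IDX (Nat.div h 64)) fun im =>
   frc1 (Nat.xor b.bar (Nat.mod (Nat.div h 32) 2)) fun e =>
    Int.sub (Int.ofNat (entS md.nc g e im (fun p => b.rows.getD (Nat.add (Nat.mul md.nc t) p) 0) (Nat.mul md.nc t')))
      (Int.ofNat (Nat.mul oYN (entO md.nc g e im)))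

def blockZ (md : MD) (b : BD) : ℤ :=
  zsum b.nT fun t => zsum b.nT fun t' => zsum b.ns fun s =>
    frc1 (hnt b t t' s) fun h =>
    cond (Nat.beq (sbit b.kd s) 0) (entZ md b t t' h) (Int.neg (entZ md b t t' h))

def oM : ℕ := 32768

def rowOK (N : ℕ) (b : BD) : Bool :=
  nall N fun al =>
    Nat.beq
      (Nat.add (lsum b.R (fun r => Nat.mul (Nat.mul r.1 (dg 72 r.2 al)) r.2))
        (Nat.add (Nat.mul (Nat.mul (Nat.mul oM oM) b.rp) b.D0) (Nat.mul oYN b.rp)))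
      (Nat.add (b.rows.getD al 0)
        (Nat.add (Nat.mul oM b.D1) (Nat.mul (Nat.mul oM b.rp) (lsum b.R (fun r => Nat.mul r.1 (dg 72 r.2 al))))))

def cstOK (N : ℕ) (b : BD) : Bool :=
  cond (Nat.beq b.D0 (lsum b.R (fun r => r.1)))
    (cond (Nat.beq b.D1 (lsum b.R (fun r => Nat.mul r.1 r.2)))
      (cond (Nat.beq b.rp (nsum N (fun i => Nat.shiftLeft 1 (Nat.mul 72 i))))
        (cond (Nat.ble (Nat.mul b.D0 1073741824) 1180591620717411303424)
          (cond (lall b.R (fun r => cond (Nat.blt r.2 (Nat.pow 2 (Nat.mul 72 N))) (nall N (fun al => Nat.ble (dg 72 r.2 al) 65536)) false))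
            (nall N (fun al => Nat.blt (b.rows.getD al 0) (Nat.pow 2 (Nat.mul 72 N)))) false) false) false) false) false

/-- coefficient of the target -/
def tcoef (nc : ℕ) (md211 : Bool) (s p q : ℕ) : ℤ :=
  cond md211
    (Int.sub (Int.sub (cond (Nat.beq p q) 4 0) (cond (Nat.beq (pac nc (gtab s) p) q) (cond (Nat.beq (dg 1 SG s) 0) 4 (-4)) 0))
      (cond (Nat.beq (dg 1 SG s) 0) 0 2))
    (Int.sub (cond (Nat.beq p q) 1 0) (cond (Nat.beq (pac nc (gtab s) p) q) 1 0))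

/-- the target; den is the common denominator (divided by 4 when md211) -/
def tgtZ (md : MD) (md211 : Bool) (den : ℕ) (TH : ℕ) : ℤ :=
  Int.mul (Int.ofNat den) (zsum 24 fun s => zsum md.nc fun p => zsum md.nc fun q =>
    Int.mul (tcoef md.nc md211 s p q)
      (Int.ofNat (Nat.shiftLeft 1 (Nat.mul 96 (idxs md (Nat.mod (Nat.div (dg 16 TH s) 32) 2) (Nat.div (dg 16 TH s) 64)
        (pac md.nc (gtab (Nat.mod (dg 16 TH s) 32)) p) (pac md.nc (gtab (Nat.mod (dg 16 TH s) 32)) q))))))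

def tMf (s i : ℕ) : ℕ := cond (Nat.blt i 4) (Nat.mul 5 i) (Nat.add (Nat.mul 4 (Nat.sub i 4)) (dg 2 (gtab s) (Nat.sub i 4)))

def thOK (md : MD) (TH : ℕ) : Bool :=
  nall 24 fun s =>
    cond (Nat.blt (Nat.mod (dg 16 TH s) 32) 24)
      (cond (Nat.blt (Nat.div (dg 16 TH s) 64) md.nm)
        (Nat.beq (mcd (fun i => tf (gtab (Nat.mod (dg 16 TH s) 32)) (Nat.mod (Nat.div (dg 16 TH s) 32) 2) (tMf s i)))
          (dg 64 md.MC (Nat.div (dg 16 TH s) 64))) false) false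

/-- the key table is correct -/
def keyOK (md : MD) : Bool :=
  nall md.nm fun m =>
    cond (Nat.beq (mcd (fun i => dg 4 (dg 32 md.MT m) i)) (dg 64 md.MC m))
      (nall md.nc fun p => nall md.nc fun q =>
        cond (Nat.blt (Nat.mod (dg 8 md.KH (Nat.add (Nat.mul 16 m) (Nat.add (Nat.mul 4 p) q))) 32) 24)
          (cond (Nat.beq (Nat.div (dg 16 md.KEY (idx md m p q)) 16) m)
            (cond (Nat.beq (mcd (fun i => tf (gtab (Nat.mod (dg 8 md.KH (Nat.add (Nat.mul 16 m) (Nat.add (Nat.mul 4 p) q))) 32))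
                (Nat.div (dg 8 md.KH (Nat.add (Nat.mul 16 m) (Nat.add (Nat.mul 4 p) q))) 32) (dg 4 (dg 32 md.MT m) i))) (dg 64 md.MC m))
              (cond (Nat.beq (Nat.div (dg 8 md.KH (Nat.add (Nat.mul 16 m) (Nat.add (Nat.mul 4 p) q))) 32) 0)
                (cond (Nat.beq (pac md.nc (gtab (Nat.mod (dg 8 md.KH (Nat.add (Nat.mul 16 m) (Nat.add (Nat.mul 4 p) q))) 32)) p)
                    (Nat.mod (Nat.div (dg 16 md.KEY (idx md m p q)) 4) 4))
                  (Nat.beq (pac md.nc (gtab (Nat.mod (dg 8 md.KH (Nat.add (Nat.mul 16 m) (Nat.add (Nat.mul 4 p) q))) 32)) q)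
                    (Nat.mod (dg 16 md.KEY (idx md m p q)) 4)) false)
                (cond (Nat.beq (pac md.nc (gtab (Nat.mod (dg 8 md.KH (Nat.add (Nat.mul 16 m) (Nat.add (Nat.mul 4 p) q))) 32)) q)
                    (Nat.mod (Nat.div (dg 16 md.KEY (idx md m p q)) 4) 4))
                  (Nat.beq (pac md.nc (gtab (Nat.mod (dg 8 md.KH (Nat.add (Nat.mul 16 m) (Nat.add (Nat.mul 4 p) q))) 32)) p)
                    (Nat.mod (dg 16 md.KEY (idx md m p q)) 4)) false)) false) false) false)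
      false

end Pool.W258.P4
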