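import Pool.Agent.W258.P4.Spec
import Pool.Agent.W258.P4.Defs

set_option autoImplicit false
open Matrix
open scoped ComplexOrder BigOperators

namespace Pool.W258.P4

/-- action of a permutation on the coordinates (nc = 4: the points; nc = 3: the pairings), on numbers -/
noncomputable def pactN (nc : ℕ) (σ : Equiv.Perm (Fin 4)) (p : ℕ) : ℕ :=
  if nc = 4 then ((σ (Fin.ofNat 4 p) : Fin 4) : ℕ) else ((pact σ (Fin.ofNat 3 p) : Fin 3) : ℕ)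

/-- product of the entries at the eight codes M 0, …, M 7 (code 4 a + b is the entry (σ a, σ b)) -/
noncomputable def evM (A : Matrix (Fin 4) (Fin 4) ℂ) (σ : Equiv.Perm (Fin 4)) (M : ℕ → ℕ) : ℂ :=
  ∏ i ∈ Finset.range 8, A (σ (Fin.ofNat 4 (M i / 4))) (σ (Fin.ofNat 4 (M i % 4)))

/-- the symmetrised value of a term -/
noncomputable def Phi (nc : ℕ) (A : Matrix (Fin 4) (Fin 4) ℂ) (u : ℕ → ℂ) (p q : ℕ) (M : ℕ → ℕ) : ℝ :=
  (∑ σ : Equiv.Perm (Fin 4), (starRingEnd ℂ) (u (pactN nc σ p)) * u (pactN nc σ q) * evM A σ M).re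

/-- P_MC: the value depends only on the multiset code -/
def P_MC : Prop := ∀ (nc : ℕ) (A : Matrix (Fin 4) (Fin 4) ℂ) (u : ℕ → ℂ) (p q : ℕ) (M M' : ℕ → ℕ),
  (∀ i, i < 8 → M i < 16) → (∀ i, i < 8 → M' i < 16) → mcd M = mcd M' →
  Phi nc A u p q M = Phi nc A u p q M'

/-- P_GA: invariance under the group -/
def P_GA : Prop := ∀ (nc : ℕ), (nc = 3 ∨ nc = 4) → ∀ (A : Matrix (Fin 4) (Fin 4) ℂ) (u : ℕ → ℂ) (gi p q : ℕ) (M : ℕ → ℕ),
  gi < 24 → p < nc → q < nc → (∀ i, i < 8 → M i < 16) →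
  Phi nc A u (pac nc (gtab gi) p) (pac nc (gtab gi) q) (fun i => cact (gtab gi) (M i)) = Phi nc A u p q M

/-- P_TR: invariance under transposition -/
def P_TR : Prop := ∀ (nc : ℕ) (A : Matrix (Fin 4) (Fin 4) ℂ) (u : ℕ → ℂ) (p q : ℕ) (M : ℕ → ℕ),
  A.IsHermitian → (∀ i, i < 8 → M i < 16) →
  Phi nc A u q p (fun i => csw (M i)) = Phi nc A u p q M

/-- the Gram matrix entries stored in b -/
def Yr (b : BD) (al be : ℕ) : ℤ := (dg 72 (b.rows.getD al 0) be : ℤ) - 2361183241434822606848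

/-- real version of the entry -/
noncomputable def entR (md : MD) (b : BD) (t t' h : ℕ) (φ : ℕ → ℝ) : ℝ :=
  ∑ p ∈ Finset.range md.nc, ∑ q ∈ Finset.range md.nc,
    ((Yr b (md.nc * t + p) (md.nc * t' + q) : ℤ) : ℝ) *
      φ (idxs md (Nat.xor b.bar (h / 32 % 2)) (h / 64) (pac md.nc (gtab (h % 32)) p) (pac md.nc (gtab (h % 32)) q))

noncomputable def sgR (kd s : ℕ) : ℝ := if sbit kd s = 0 then 1 else -1

noncomputable def blockR (md : MD) (b : BD) (φ : ℕ → ℝ) : ℝ :=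
  ∑ t ∈ Finset.range b.nT, ∑ t' ∈ Finset.range b.nT, ∑ s ∈ Finset.range b.ns,
    sgR b.kd s * entR md b t t' (hnt b t t' s) φ

noncomputable def tgtR (md : MD) (md211 : Bool) (den : ℕ) (TH : ℕ) (φ : ℕ → ℝ) : ℝ :=
  (den : ℝ) * ∑ s ∈ Finset.range 24, ∑ p ∈ Finset.range md.nc, ∑ q ∈ Finset.range md.nc,
    ((tcoef md.nc md211 s p q : ℤ) : ℝ) *
      φ (idxs md (dg 16 TH s / 32 % 2) (dg 16 TH s / 64) (pac md.nc (gtab (dg 16 TH s % 32)) p)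
        (pac md.nc (gtab (dg 16 TH s % 32)) q))

/-- P_TOT: from the integer identity (packed in base 2^96) to the identity for all real values of the keys -/
def P_TOT : Prop := ∀ (md : MD) (bs : List BD) (md211 : Bool) (den TH : ℕ), md.nc ≤ 4 →
  ((bs.map (fun b => b.nT * b.nT * b.ns)).sum * 16 * 2 ^ 72 + 24 * 16 * (16 * den) < 2 ^ 96) →
  (bs.map (fun b => blockZ md b)).sum = tgtZ md md211 den TH →
  ∀ φ : ℕ → ℝ, (bs.map (fun b => blockR md b φ)).sum = tgtR md md211 den TH φ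

/-- P_PSDY: the stored Gram matrix is positive semidefinite -/
def P_PSDY : Prop := ∀ (N : ℕ) (b : BD), cstOK N b = true → rowOK N b = true →
  ∀ x : ℕ → ℝ, 0 ≤ ∑ al ∈ Finset.range N, ∑ be ∈ Finset.range N, ((Yr b al be : ℤ) : ℝ) * x al * x be

/-- the form of a block -/
noncomputable def blkF (nc : ℕ) (A : Matrix (Fin 4) (Fin 4) ℂ) (u : ℕ → ℂ) (kd bar ns nT Ts : ℕ) (Y : ℕ → ℕ → ℝ) : ℝ :=
  ∑ t ∈ Finset.range nT, ∑ t' ∈ Finset.range nT, ∑ s ∈ Finset.range ns,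
    sgR kd s * ∑ p ∈ Finset.range nc, ∑ q ∈ Finset.range nc,
      Y (nc * t + p) (nc * t' + q) *
        Phi nc A u (if bar = 0 then p else q) (if bar = 0 then q else p) (Mf kd (dg 32 Ts t) (dg 32 Ts t') s)

/-- P_BLK kd ns: positivity of the form of a block -/
def P_BLK (kd ns : ℕ) : Prop := ∀ (nc bar nT Ts : ℕ) (A : Matrix (Fin 4) (Fin 4) ℂ) (u : ℕ → ℂ) (Y : ℕ → ℕ → ℝ),
  A.PosSemidef →
  (∀ x : ℕ → ℝ, 0 ≤ ∑ al ∈ Finset.range (nT * nc), ∑ be ∈ Finset.range (nT * nc), Y al be * x al * x be) →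
  0 ≤ blkF nc A u kd bar ns nT Ts Y

/-- the target forms -/
def P_TGT31 : Prop := ∀ (A : Matrix (Fin 4) (Fin 4) ℂ) (v : Fin 4 → ℂ), A.IsHermitian →
  ∑ s ∈ Finset.range 24, ∑ p ∈ Finset.range 4, ∑ q ∈ Finset.range 4,
    ((tcoef 4 false s p q : ℤ) : ℝ) * Phi 4 A (fun n => v (Fin.ofNat 4 n)) p q (tMf s)
  = 24 * ((∏ k, A k k) * Q31 A v).re

def P_TGT22 : Prop := ∀ (A : Matrix (Fin 4) (Fin 4) ℂ) (w : Fin 3 → ℂ), A.IsHermitian →
  ∑ s ∈ Finset.range 24, ∑ p ∈ Finset.range 3, ∑ q ∈ Finset.range 3,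
    ((tcoef 3 false s p q : ℤ) : ℝ) * Phi 3 A (fun n => w (Fin.ofNat 3 n)) p q (tMf s)
  = 24 * ((∏ k, A k k) * Q22 A w).re

def P_TGT211 : Prop := ∀ (A : Matrix (Fin 4) (Fin 4) ℂ) (v : Fin 4 → ℂ), A.IsHermitian → ∑ i, v i = 0 →
  ∑ s ∈ Finset.range 24, ∑ p ∈ Finset.range 4, ∑ q ∈ Finset.range 4,
    ((tcoef 4 true s p q : ℤ) : ℝ) * Phi 4 A (fun n => v (Fin.ofNat 4 n)) p q (tMf s)
  = 96 * ((∏ k, A k k) * Q211 A v).re

end Pool.W258.P4
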