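import Mathlib
import Pool.Agent.W258.P4.Spec2

/-! P_MC and P_TR: the value depends on the multiset code only; transposition (helper287). -/

set_option autoImplicit false
open Matrix
open scoped ComplexOrder BigOperators

namespace Pool.W258.P4

theorem nsum_eq (n : ℕ) (f : ℕ → ℕ) : nsum n f = ∑ i ∈ Finset.range n, f i := by
  induction n with
  | zero => rfl
  | succ n ih =>
    rw [Finset.sum_range_succ, ← ih]
    rfl

theorem mcd_eq (M : ℕ → ℕ) : mcd M = ∑ i ∈ Finset.range 8, 16 ^ M i := by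
  unfold mcd
  rw [nsum_eq]
  apply Finset.sum_congr rfl
  intro i _
  show 1 <<< (4 * M i) = 16 ^ M i
  rw [Nat.shiftLeft_eq, one_mul, pow_mul]
  norm_num

theorem digits_unique (n : ℕ) : ∀ (f g : ℕ → ℕ), (∀ c, f c < 16) → (∀ c, g c < 16) →
    ∑ c ∈ Finset.range n, f c * 16 ^ c = ∑ c ∈ Finset.range n, g c * 16 ^ c →
    ∀ c, c < n → f c = g c := by
  induction n with
  | zero =>
    intro f g _ _ _ c hc
    omega
  | succ n ih =>
    intro f g hf hg h c hc
    have h1 : ∀ f : ℕ → ℕ, ∑ c ∈ Finset.range (n + 1), f c * 16 ^ c =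
        16 * (∑ c ∈ Finset.range n, f (c + 1) * 16 ^ c) + f 0 := by
      intro f
      rw [Finset.sum_range_succ', Finset.mul_sum, pow_zero, mul_one]
      congr 1
      apply Finset.sum_congr rfl
      intro c _
      rw [pow_succ]
      ring
    rw [h1 f, h1 g] at h
    have hf0 := hf 0
    have hg0 := hg 0
    have h2 : f 0 = g 0 := by omega
    have h3 : ∑ c ∈ Finset.range n, f (c + 1) * 16 ^ c =
        ∑ c ∈ Finset.range n, g (c + 1) * 16 ^ c := by omega
    rcases c with _ | c
    · exact h2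
    · exact ih (fun c => f (c + 1)) (fun c => g (c + 1)) (fun c => hf _) (fun c => hg _) h3 c
        (by omega)

/-- number of the places with the code `c` -/
def cntM (M : ℕ → ℕ) (c : ℕ) : ℕ := ((Finset.range 8).filter (fun i => M i = c)).card

theorem cntM_lt (M : ℕ → ℕ) (c : ℕ) : cntM M c < 16 := by
  unfold cntM
  have h := Finset.card_filter_le (Finset.range 8) (fun i => M i = c)
  rw [Finset.card_range] at h
  omega

theorem mcd_cnt (M : ℕ → ℕ) (hM : ∀ i, i < 8 → M i < 16) :
    mcd M = ∑ c ∈ Finset.range 16, cntM M c * 16 ^ c := by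
  rw [mcd_eq]
  rw [← Finset.sum_fiberwise_of_maps_to (s := Finset.range 8) (t := Finset.range 16) (g := M)
    (fun i hi => Finset.mem_range.2 (hM i (Finset.mem_range.1 hi)))]
  apply Finset.sum_congr rfl
  intro c _
  unfold cntM
  rw [Finset.sum_congr rfl (g := fun _ => 16 ^ c) (fun i hi => by
    rw [(Finset.mem_filter.1 hi).2]), Finset.sum_const, smul_eq_mul]

theorem evM_cnt (A : Matrix (Fin 4) (Fin 4) ℂ) (σ : Equiv.Perm (Fin 4)) (M : ℕ → ℕ)
    (hM : ∀ i, i < 8 → M i < 16) :
    evM A σ M = ∏ c ∈ Finset.range 16,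
      (A (σ (Fin.ofNat 4 (c / 4))) (σ (Fin.ofNat 4 (c % 4)))) ^ cntM M c := by
  unfold evM
  rw [← Finset.prod_fiberwise_of_maps_to (s := Finset.range 8) (t := Finset.range 16) (g := M)
    (fun i hi => Finset.mem_range.2 (hM i (Finset.mem_range.1 hi)))]
  apply Finset.prod_congr rfl
  intro c _
  unfold cntM
  rw [Finset.prod_congr rfl
    (g := fun _ => A (σ (Fin.ofNat 4 (c / 4))) (σ (Fin.ofNat 4 (c % 4)))) (fun i hi => by
    rw [(Finset.mem_filter.1 hi).2]), Finset.prod_const]

theorem mc_ : P_MC := by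
  intro nc A u p q M M' hM hM' h
  rw [mcd_cnt M hM, mcd_cnt M' hM'] at h
  have hc := digits_unique 16 (cntM M) (cntM M') (cntM_lt M) (cntM_lt M') h
  unfold Phi
  have hev : ∀ σ : Equiv.Perm (Fin 4), evM A σ M = evM A σ M' := by
    intro σ
    rw [evM_cnt A σ M hM, evM_cnt A σ M' hM']
    apply Finset.prod_congr rfl
    intro c hcr
    rw [hc c (Finset.mem_range.1 hcr)]
  rw [Finset.sum_congr rfl (fun σ _ => by rw [hev σ])]

theorem evM_csw (A : Matrix (Fin 4) (Fin 4) ℂ) (hA : A.IsHermitian) (σ : Equiv.Perm (Fin 4))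
    (M : ℕ → ℕ) (hM : ∀ i, i < 8 → M i < 16) :
    evM A σ (fun i => csw (M i)) = (starRingEnd ℂ) (evM A σ M) := by
  unfold evM
  rw [map_prod]
  apply Finset.prod_congr rfl
  intro i hi
  have h16 := hM i (Finset.mem_range.1 hi)
  have h1 : csw (M i) / 4 = M i % 4 := by
    show (4 * (M i % 4) + M i / 4) / 4 = M i % 4
    omega
  have h2 : csw (M i) % 4 = M i / 4 := by
    show (4 * (M i % 4) + M i / 4) % 4 = M i / 4
    omega
  simp only [h1, h2]
  exact (hA.apply _ _).symm

theorem tr_ : P_TR := by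
  intro nc A u p q M hA hM
  unfold Phi
  have h1 : ∀ σ : Equiv.Perm (Fin 4),
      (starRingEnd ℂ) (u (pactN nc σ q)) * u (pactN nc σ p) * evM A σ (fun i => csw (M i)) =
        (starRingEnd ℂ) ((starRingEnd ℂ) (u (pactN nc σ p)) * u (pactN nc σ q) * evM A σ M) := by
    intro σ
    rw [evM_csw A hA σ M hM, map_mul, map_mul, Complex.conj_conj]
    ring
  rw [Finset.sum_congr rfl (fun σ _ => h1 σ), ← map_sum, Complex.conj_re]

end Pool.W258.P4
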