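import Pool.Agent.W258.P4.Spec

/-!
# P4-POSD

Positive definite matrices are dense in the positive semidefinite ones.
(Proof by helper496 for project P4 of helper258.)
-/

set_option autoImplicit false
open Matrix Filter Topology
open scoped ComplexOrder BigOperators

namespace Pool.W258.P4

theorem posd : Pool.W258.P4.P_POSD := by
  intro Q hQ hpos A hA
  have h1 : ∀ ε : ℝ, 0 < ε → 0 ≤ Q (A + (ε : ℂ) • (1 : Matrix (Fin 4) (Fin 4) ℂ)) := by
    intro ε hε
    apply hpos
    have h2 : ((ε : ℂ) • (1 : Matrix (Fin 4) (Fin 4) ℂ)).PosDef := by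
      apply Matrix.PosDef.smul Matrix.PosDef.one
      exact_mod_cast hε
    exact Matrix.PosDef.posSemidef_add hA h2
  have h3 : Tendsto (fun ε : ℝ => Q (A + (ε : ℂ) • (1 : Matrix (Fin 4) (Fin 4) ℂ)))
      (𝓝[>] 0) (𝓝 (Q A)) := by
    have h4 : Continuous (fun ε : ℝ => Q (A + (ε : ℂ) • (1 : Matrix (Fin 4) (Fin 4) ℂ))) := by
      apply hQ.comp
      exact continuous_const.add (Complex.continuous_ofReal.smul continuous_const)
    have h5 := h4.tendsto 0
    simp only [Complex.ofReal_zero, zero_smul, add_zero] at h5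
    exact h5.mono_left nhdsWithin_le_nhds
  refine ge_of_tendsto h3 ?_
  filter_upwards [self_mem_nhdsWithin] with ε hε
  exact h1 ε hε

end Pool.W258.P4
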