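import Pool.Agent.W258.P4.Spec2

/-! # The stored Gram matrix is positive semidefinite -/

set_option autoImplicit false

namespace Pool.W258.P4
namespace Psdy

theorem nsum_eq (n : ℕ) (f : ℕ → ℕ) : nsum n f = ∑ i ∈ Finset.range n, f i := by
  induction n with
  | zero => rfl
  | succ n ih =>
    rw [Finset.sum_range_succ, ← ih]
    rfl

theorem lsum_eq {α : Type} (l : List α) (f : α → ℕ) : lsum l f = (l.map f).sum := by
  induction l with
  | nil => rfl
  | cons a l ih =>
    rw [List.map_cons, List.sum_cons, ← ih]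
    rfl

theorem cond_tt {a b : Bool} : (cond a b false = true) ↔ (a = true ∧ b = true) := by
  cases a <;> simp

theorem nall_eq (n : ℕ) (f : ℕ → Bool) (h : nall n f = true) : ∀ i, i < n → f i = true := by
  induction n with
  | zero => intro i hi; exact absurd hi (Nat.not_lt_zero i)
  | succ n ih =>
    have h1 : cond (nall n f) (f n) false = true := h
    rw [cond_tt] at h1
    intro i hi
    rcases Nat.lt_succ_iff_lt_or_eq.1 hi with h2 | h2
    · exact ih h1.1 i h2
    · rw [h2]; exact h1.2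

theorem lall_eq {α : Type} (l : List α) (f : α → Bool) (h : lall l f = true) :
    ∀ a ∈ l, f a = true := by
  induction l with
  | nil => intro a ha; exact absurd ha (List.not_mem_nil)
  | cons b l ih =>
    have h1 : cond (f b) (lall l f) false = true := h
    rw [cond_tt] at h1
    intro a ha
    rcases List.mem_cons.1 ha with h2 | h2
    · rw [h2]; exact h1.1
    · exact ih h1.2 a h2

theorem dg_eq (w n i : ℕ) : dg w n i = n / (2 ^ w) ^ i % 2 ^ w := by
  show n >>> (w * i) % 2 ^ w = _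
  rw [Nat.shiftRight_eq_div_pow, pow_mul]

theorem digits (n N : ℕ) (h : n < 2 ^ (72 * N)) :
    ((n : ℕ) : ℤ) = ∑ i ∈ Finset.range N, (dg 72 n i : ℤ) * (2 ^ 72) ^ i := by
  have key : ∀ K : ℕ, n % (2 ^ 72) ^ K = ∑ i ∈ Finset.range K, dg 72 n i * (2 ^ 72) ^ i := by
    intro K
    induction K with
    | zero => rw [pow_zero, Nat.mod_one, Finset.range_zero, Finset.sum_empty]
    | succ K ih =>
      rw [Nat.mod_pow_succ, ih, Finset.sum_range_succ, dg_eq 72 n K, mul_comm (_ ^ K) _]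
  have h1 := key N
  rw [← pow_mul, Nat.mod_eq_of_lt h] at h1
  have h2 : ((n : ℕ) : ℤ) = ((∑ i ∈ Finset.range N, dg 72 n i * (2 ^ 72) ^ i : ℕ) : ℤ) := by
    exact congrArg Nat.cast h1
  rw [h2]
  push_cast
  rfl

theorem zero_digits (N : ℕ) : ∀ f : ℕ → ℤ, (∀ i, i < N → |f i| < 2 ^ 72) →
    ∑ i ∈ Finset.range N, f i * (2 ^ 72) ^ i = 0 → ∀ i, i < N → f i = 0 := by
  induction N with
  | zero => intro f _ _ i hi; exact absurd hi (Nat.not_lt_zero i)
  | succ N ih =>
    intro f hf hs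
    rw [Finset.sum_range_succ'] at hs
    have h1 : ∑ i ∈ Finset.range N, f (i + 1) * (2 ^ 72) ^ (i + 1) =
        2 ^ 72 * ∑ i ∈ Finset.range N, f (i + 1) * (2 ^ 72) ^ i := by
      rw [Finset.mul_sum]
      refine Finset.sum_congr rfl fun i _ => ?_
      rw [pow_succ]
      ring
    rw [h1, pow_zero, mul_one] at hs
    have h2 : f 0 = 0 := by
      refine Int.eq_zero_of_abs_lt_dvd (m := 2 ^ 72) ?_ (hf 0 (Nat.succ_pos N))
      refine ⟨-∑ i ∈ Finset.range N, f (i + 1) * (2 ^ 72) ^ i, ?_⟩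
      rw [mul_neg]
      exact eq_neg_of_add_eq_zero_right hs
    have h3 : ∑ i ∈ Finset.range N, f (i + 1) * (2 ^ 72) ^ i = 0 := by
      rw [h2, add_zero] at hs
      rcases mul_eq_zero.1 hs with h | h
      · exact absurd h (pow_ne_zero _ two_ne_zero)
      · exact h
    have h4 := ih (fun i => f (i + 1)) (fun i hi => hf (i + 1) (Nat.succ_lt_succ hi)) h3
    intro i hi
    cases i with
    | zero => exact h2
    | succ i => exact h4 i (Nat.lt_of_succ_lt_succ hi)

/-- the integer entries -/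
def mr (r : ℕ × ℕ) (al : ℕ) : ℤ := (dg 72 r.2 al : ℤ) - 32768

/-- the Gram matrix -/
def gm (R : List (ℕ × ℕ)) (al be : ℕ) : ℤ := (R.map fun r => (r.1 : ℤ) * mr r al * mr r be).sum

theorem expand (R : List (ℕ × ℕ)) (al : ℕ) (rp : ℤ) :
    (R.map fun r => (r.1 : ℤ) * mr r al * ((r.2 : ℤ) - 32768 * rp)).sum =
      (((R.map fun r => r.1 * dg 72 r.2 al * r.2).sum : ℕ) : ℤ) -
        32768 * (((R.map fun r => r.1 * r.2).sum : ℕ) : ℤ) -
        32768 * rp * (((R.map fun r => r.1 * dg 72 r.2 al).sum : ℕ) : ℤ) +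
        32768 * 32768 * rp * (((R.map fun r => r.1).sum : ℕ) : ℤ) := by
  induction R with
  | nil => simp
  | cons r R ih =>
    simp only [List.map_cons, List.sum_cons, Nat.cast_add, Nat.cast_mul]
    rw [ih]
    unfold mr
    ring

theorem collect (N : ℕ) (R : List (ℕ × ℕ)) (al : ℕ) (rp : ℤ)
    (hrp : rp = ∑ i ∈ Finset.range N, (2 ^ 72) ^ i)
    (hR : ∀ r ∈ R, r.2 < 2 ^ (72 * N)) :
    (R.map fun r => (r.1 : ℤ) * mr r al * ((r.2 : ℤ) - 32768 * rp)).sum =
      ∑ be ∈ Finset.range N, gm R al be * (2 ^ 72) ^ be := by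
  induction R with
  | nil => simp [gm]
  | cons r R ih =>
    have h1 : ∀ be, gm (r :: R) al be = (r.1 : ℤ) * mr r al * mr r be + gm R al be := by
      intro be
      unfold gm
      rw [List.map_cons, List.sum_cons]
    have h2 : (r.2 : ℤ) - 32768 * rp = ∑ be ∈ Finset.range N, mr r be * (2 ^ 72) ^ be := by
      rw [digits r.2 N (hR r List.mem_cons_self), hrp, Finset.mul_sum, ← Finset.sum_sub_distrib]
      refine Finset.sum_congr rfl fun i _ => ?_
      unfold mr
      ring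
    rw [List.map_cons, List.sum_cons, ih (fun s hs => hR s (List.mem_cons_of_mem _ hs)), h2,
      Finset.mul_sum, ← Finset.sum_add_distrib]
    refine Finset.sum_congr rfl fun be _ => ?_
    rw [h1]
    ring

theorem mr_le {r : ℕ × ℕ} {al : ℕ} (h : dg 72 r.2 al ≤ 65536) : |mr r al| ≤ 32768 := by
  unfold mr
  rw [abs_le]
  omega

theorem bound (R : List (ℕ × ℕ)) (al be : ℕ) (h1 : ∀ r ∈ R, dg 72 r.2 al ≤ 65536)
    (h2 : ∀ r ∈ R, dg 72 r.2 be ≤ 65536) :
    |gm R al be| ≤ (((R.map fun r => r.1).sum : ℕ) : ℤ) * 1073741824 := by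
  induction R with
  | nil => simp [gm]
  | cons r R ih =>
    have e : gm (r :: R) al be = (r.1 : ℤ) * mr r al * mr r be + gm R al be := by
      unfold gm
      rw [List.map_cons, List.sum_cons]
    have i1 := ih (fun s hs => h1 s (List.mem_cons_of_mem _ hs))
      (fun s hs => h2 s (List.mem_cons_of_mem _ hs))
    have a1 := mr_le (h1 r List.mem_cons_self)
    have a2 := mr_le (h2 r List.mem_cons_self)
    have a3 : |(r.1 : ℤ) * mr r al * mr r be| ≤ (r.1 : ℤ) * 1073741824 := by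
      rw [abs_mul, abs_mul, Nat.abs_cast, mul_assoc]
      refine mul_le_mul_of_nonneg_left ?_ (Int.natCast_nonneg _)
      calc |mr r al| * |mr r be| ≤ 32768 * 32768 :=
            mul_le_mul a1 a2 (abs_nonneg _) (by norm_num)
        _ = 1073741824 := by norm_num
    rw [e, List.map_cons, List.sum_cons, Nat.cast_add, add_mul]
    exact (abs_add_le _ _).trans (add_le_add a3 i1)

theorem psd (N : ℕ) (R : List (ℕ × ℕ)) (x : ℕ → ℝ) :
    0 ≤ ∑ al ∈ Finset.range N, ∑ be ∈ Finset.range N, ((gm R al be : ℤ) : ℝ) * x al * x be := by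
  induction R with
  | nil => simp [gm]
  | cons r R ih =>
    have e : ∀ al be, ((gm (r :: R) al be : ℤ) : ℝ) =
        (r.1 : ℝ) * ((mr r al : ℤ) : ℝ) * ((mr r be : ℤ) : ℝ) + ((gm R al be : ℤ) : ℝ) := by
      intro al be
      unfold gm
      rw [List.map_cons, List.sum_cons]
      push_cast
      rfl
    have h1 : ∑ al ∈ Finset.range N, ∑ be ∈ Finset.range N,
        ((gm (r :: R) al be : ℤ) : ℝ) * x al * x be =
        (r.1 : ℝ) * (∑ al ∈ Finset.range N, ((mr r al : ℤ) : ℝ) * x al) ^ 2 +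
        ∑ al ∈ Finset.range N, ∑ be ∈ Finset.range N, ((gm R al be : ℤ) : ℝ) * x al * x be := by
      rw [sq, Finset.sum_mul_sum, Finset.mul_sum, ← Finset.sum_add_distrib]
      refine Finset.sum_congr rfl fun al _ => ?_
      rw [Finset.mul_sum, ← Finset.sum_add_distrib]
      refine Finset.sum_congr rfl fun be _ => ?_
      rw [e]
      ring
    rw [h1]
    have h2 : 0 ≤ (r.1 : ℝ) * (∑ al ∈ Finset.range N, ((mr r al : ℤ) : ℝ) * x al) ^ 2 := by
      positivity
    exact add_nonneg h2 ih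

theorem main (N : ℕ) (b : BD) (hc : cstOK N b = true) (hr : rowOK N b = true) :
    ∀ al, al < N → ∀ be, be < N → Yr b al be = gm b.R al be := by
  unfold cstOK at hc
  simp only [cond_tt] at hc
  obtain ⟨c1, c2, c3, c4, c5, c6⟩ := hc
  have d1 := Nat.eq_of_beq_eq_true c1
  have d2 := Nat.eq_of_beq_eq_true c2
  have d3 := Nat.eq_of_beq_eq_true c3
  have d4 := Nat.le_of_ble_eq_true c4
  rw [lsum_eq] at d1 d2
  rw [nsum_eq] at d3
  have d5 : ∀ r ∈ b.R, r.2 < 2 ^ (72 * N) ∧ ∀ al, al < N → dg 72 r.2 al ≤ 65536 := by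
    intro r hr'
    have h1 := lall_eq _ _ c5 r hr'
    rw [cond_tt] at h1
    exact ⟨Nat.le_of_ble_eq_true h1.1, fun al hal => Nat.le_of_ble_eq_true (nall_eq _ _ h1.2 al hal)⟩
  have d6 : ∀ al, al < N → b.rows.getD al 0 < 2 ^ (72 * N) := fun al hal =>
    Nat.le_of_ble_eq_true (nall_eq _ _ c6 al hal)
  have hrp : ((b.rp : ℕ) : ℤ) = ∑ i ∈ Finset.range N, (2 ^ 72) ^ i := by
    rw [d3]
    rw [Nat.cast_sum]
    refine Finset.sum_congr rfl fun i _ => ?_
    have h1 : Nat.shiftLeft 1 (Nat.mul 72 i) = (2 ^ 72) ^ i := by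
      show 1 <<< (72 * i) = _
      rw [Nat.one_shiftLeft, pow_mul]
    rw [h1, Nat.cast_pow]
    rfl
  intro al hal
  have hrow := Nat.eq_of_beq_eq_true (nall_eq _ _ hr al hal)
  rw [lsum_eq, lsum_eq] at hrow
  have hrow' : (b.R.map fun r => r.1 * dg 72 r.2 al * r.2).sum +
      (32768 * 32768 * b.rp * b.D0 + 2361183241434822606848 * b.rp) =
      b.rows.getD al 0 + (32768 * b.D1 + 32768 * b.rp *
        (b.R.map fun r => r.1 * dg 72 r.2 al).sum) := hrow
  have hZ : (((b.R.map fun r => r.1 * dg 72 r.2 al * r.2).sum : ℕ) : ℤ) +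
      (32768 * 32768 * (b.rp : ℤ) * (b.D0 : ℤ) + 2361183241434822606848 * (b.rp : ℤ)) =
      ((b.rows.getD al 0 : ℕ) : ℤ) + (32768 * (b.D1 : ℤ) + 32768 * (b.rp : ℤ) *
        (((b.R.map fun r => r.1 * dg 72 r.2 al).sum : ℕ) : ℤ)) := by
    exact_mod_cast hrow'
  have h1 := expand b.R al (b.rp : ℤ)
  rw [collect N b.R al (b.rp : ℤ) hrp (fun r hr' => (d5 r hr').1)] at h1
  have e1 : (b.D0 : ℤ) = (((b.R.map fun r => r.1).sum : ℕ) : ℤ) := congrArg Nat.cast d1
  have e2 : (b.D1 : ℤ) = (((b.R.map fun r => r.1 * r.2).sum : ℕ) : ℤ) := congrArg Nat.cast d2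
  rw [← e1, ← e2] at h1
  have h2 : ∑ be ∈ Finset.range N, (gm b.R al be - Yr b al be) * (2 ^ 72) ^ be = 0 := by
    have h3 : ∑ be ∈ Finset.range N, (gm b.R al be - Yr b al be) * (2 ^ 72) ^ be =
        ∑ be ∈ Finset.range N, gm b.R al be * (2 ^ 72) ^ be -
        (((b.rows.getD al 0 : ℕ) : ℤ) - 2361183241434822606848 * (b.rp : ℤ)) := by
      rw [digits _ N (d6 al hal), hrp, Finset.mul_sum, ← Finset.sum_sub_distrib,
        ← Finset.sum_sub_distrib]
      refine Finset.sum_congr rfl fun i _ => ?_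
      unfold Yr
      ring
    rw [h3, h1]
    linarith [hZ]
  have h4 := zero_digits N (fun be => gm b.R al be - Yr b al be) (fun be hbe => ?_) h2
  · intro be hbe
    have h5 : gm b.R al be - Yr b al be = 0 := h4 be hbe
    linarith
  · have b1 := bound b.R al be (fun r hr' => (d5 r hr').2 al hal) (fun r hr' => (d5 r hr').2 be hbe)
    rw [← e1] at b1
    have b2 : ((b.D0 * 1073741824 : ℕ) : ℤ) ≤ ((1180591620717411303424 : ℕ) : ℤ) :=
      Nat.cast_le.2 d4
    push_cast at b2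
    have b3 := abs_le.1 (b1.trans b2)
    have b4 : dg 72 (b.rows.getD al 0) be < 2 ^ 72 := by
      rw [dg_eq]
      exact Nat.mod_lt _ (by positivity)
    have b5 : ((dg 72 (b.rows.getD al 0) be : ℕ) : ℤ) < 4722366482869645213696 := by
      have : (2 : ℕ) ^ 72 = 4722366482869645213696 := by norm_num
      rw [this] at b4
      exact_mod_cast b4
    have b6 : (0 : ℤ) ≤ ((dg 72 (b.rows.getD al 0) be : ℕ) : ℤ) := Int.natCast_nonneg _
    have b7 : (2 : ℤ) ^ 72 = 4722366482869645213696 := by norm_num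
    show |gm b.R al be - Yr b al be| < 2 ^ 72
    rw [b7, abs_lt]
    unfold Yr
    constructor <;> linarith [b3.1, b3.2]

end Psdy

theorem psdy_ : P_PSDY := by
  intro N b hc hr x
  have h := Psdy.main N b hc hr
  have e : ∑ al ∈ Finset.range N, ∑ be ∈ Finset.range N, ((Yr b al be : ℤ) : ℝ) * x al * x be =
      ∑ al ∈ Finset.range N, ∑ be ∈ Finset.range N,
        ((Psdy.gm b.R al be : ℤ) : ℝ) * x al * x be := by
    refine Finset.sum_congr rfl fun al hal => Finset.sum_congr rfl fun be hbe => ?_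
    rw [h al (Finset.mem_range.1 hal) be (Finset.mem_range.1 hbe)]
  rw [e]
  exact Psdy.psd N b.R x

end Pool.W258.P4
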