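import Mathlib

set_option autoImplicit false
open Matrix
open scoped ComplexOrder BigOperators

namespace Pool.W258.P4

/-- product along a permutation -/
noncomputable def pr (A : Matrix (Fin 4) (Fin 4) ℂ) (σ : Equiv.Perm (Fin 4)) : ℂ := ∏ t, A t (σ t)

/-- index of the pairing of {0,1,2,3} that contains the pair {a,b} (a ≠ b):
0 for 01|23, 1 for 02|13, 2 for 03|12 -/
def pairIdx (a b : Fin 4) : Fin 3 :=
  if (a = 0 ∧ b = 1) ∨ (a = 1 ∧ b = 0) ∨ (a = 2 ∧ b = 3) ∨ (a = 3 ∧ b = 2) then 0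
  else if (a = 0 ∧ b = 2) ∨ (a = 2 ∧ b = 0) ∨ (a = 1 ∧ b = 3) ∨ (a = 3 ∧ b = 1) then 1
  else 2

/-- action of a permutation on the three pairings -/
def pact (σ : Equiv.Perm (Fin 4)) (p : Fin 3) : Fin 3 := pairIdx (σ 0) (σ p.succ)

/-- the sign as a complex number -/
noncomputable def sg (σ : Equiv.Perm (Fin 4)) : ℂ := ((Equiv.Perm.sign σ : ℤ) : ℂ)

/-- the form of the block (3,1) -/
noncomputable def Q31 (A : Matrix (Fin 4) (Fin 4) ℂ) (v : Fin 4 → ℂ) : ℂ :=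
  ∑ σ : Equiv.Perm (Fin 4), pr A σ * ∑ i : Fin 4, (starRingEnd ℂ) (v i) * (v i - v (σ i))

/-- the form of the block (2,2) -/
noncomputable def Q22 (A : Matrix (Fin 4) (Fin 4) ℂ) (w : Fin 3 → ℂ) : ℂ :=
  ∑ σ : Equiv.Perm (Fin 4), pr A σ * ∑ p : Fin 3, (starRingEnd ℂ) (w p) * (w p - w (pact σ p))

/-- the form of the block (2,1,1) -/
noncomputable def Q211 (A : Matrix (Fin 4) (Fin 4) ℂ) (v : Fin 4 → ℂ) : ℂ :=
  ∑ σ : Equiv.Perm (Fin 4), pr A σ * ∑ i : Fin 4, (starRingEnd ℂ) (v i) * (v i - sg σ * v (σ i))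

/-- the form of the sign block: permanent minus determinant -/
noncomputable def Qdet (A : Matrix (Fin 4) (Fin 4) ℂ) : ℂ :=
  ∑ σ : Equiv.Perm (Fin 4), pr A σ * (1 - sg σ)

/-- the form of the regular representation -/
noncomputable def Qreg (A : Matrix (Fin 4) (Fin 4) ℂ) (x : Equiv.Perm (Fin 4) → ℂ) : ℂ :=
  ∑ ρ : Equiv.Perm (Fin 4), pr A ρ * ∑ σ : Equiv.Perm (Fin 4), (starRingEnd ℂ) (x σ) * (x σ - x (ρ * σ))

/-- subtask REP -/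
def P_REP : Prop := ∀ A : Matrix (Fin 4) (Fin 4) ℂ,
  (∀ v : Fin 4 → ℂ, 0 ≤ (Q31 A v).re) → (∀ w : Fin 3 → ℂ, 0 ≤ (Q22 A w).re) →
  (∀ v : Fin 4 → ℂ, ∑ i, v i = 0 → 0 ≤ (Q211 A v).re) → 0 ≤ (Qdet A).re →
  ∀ x : Equiv.Perm (Fin 4) → ℂ, 0 ≤ (Qreg A x).re

/-- subtask FIN -/
def P_FIN : Prop := (∀ A : Matrix (Fin 4) (Fin 4) ℂ, A.PosSemidef →
    ∀ x : Equiv.Perm (Fin 4) → ℂ, 0 ≤ (Qreg A x).re) →
  ∀ A : Matrix (Fin 4) (Fin 4) ℂ, A.PosSemidef →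
      ((Matrix.of (fun (σ : Equiv.Perm (Fin 4)) (τ : Equiv.Perm (Fin 4)) =>
            ∏ t : Fin 4, A (σ t) (τ t))).mulVec (fun _ : Equiv.Perm (Fin 4) => (1 : ℂ))
          = (Matrix.permanent A) • (fun _ : Equiv.Perm (Fin 4) => (1 : ℂ))) ∧
      ∀ (μ : ℂ) (x : Equiv.Perm (Fin 4) → ℂ), x ≠ 0 →
        (Matrix.of (fun (σ : Equiv.Perm (Fin 4)) (τ : Equiv.Perm (Fin 4)) =>
            ∏ t : Fin 4, A (σ t) (τ t))).mulVec x = μ • x →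
          μ.re ≤ (Matrix.permanent A).re

/-- subtask DET: permanent minus determinant is nonnegative -/
def P_DET : Prop := ∀ A : Matrix (Fin 4) (Fin 4) ℂ, A.PosSemidef → 0 ≤ (Qdet A).re

/-- subtask POSD: it is enough to have the inequalities for positive definite matrices -/
def P_POSD : Prop := ∀ (Q : Matrix (Fin 4) (Fin 4) ℂ → ℝ), Continuous Q →
  (∀ A : Matrix (Fin 4) (Fin 4) ℂ, A.PosDef → 0 ≤ Q A) →
  ∀ A : Matrix (Fin 4) (Fin 4) ℂ, A.PosSemidef → 0 ≤ Q A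

end Pool.W258.P4
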