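import Mathlib
import Pool.Agent.W258.P4.Spec

set_option autoImplicit false
open Matrix
open scoped ComplexOrder BigOperators

namespace Pool.W258.P4

/-- the three vectors of the standard representation -/
def hh (k : Fin 3) (j : Fin 4) : ℤ :=
  (![![1, 1, -1, -1], ![1, -1, 1, -1], ![1, -1, -1, 1]] : Fin 3 → Fin 4 → ℤ) k j

/-- the two vectors of the representation on pairings -/
def gg (k : Fin 2) (q : Fin 3) : ℤ := (![![1, -1, 0], ![1, 1, -2]] : Fin 2 → Fin 3 → ℤ) k q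

/-- the sign -/
def sn (σ : Equiv.Perm (Fin 4)) : ℤ := (Equiv.Perm.sign σ : ℤ)

theorem sg_eq (σ : Equiv.Perm (Fin 4)) : sg σ = ((sn σ : ℤ) : ℂ) := rfl

theorem pact_mul : ∀ (σ τ : Equiv.Perm (Fin 4)) (p : Fin 3),
    pact (σ * τ) p = pact σ (pact τ p) := by
  decide +kernel

theorem sn_mul (σ τ : Equiv.Perm (Fin 4)) : sn (σ * τ) = sn σ * sn τ := by
  unfold sn
  rw [Equiv.Perm.sign_mul]
  push_cast
  rfl

theorem sn_inv (σ : Equiv.Perm (Fin 4)) : sn σ⁻¹ = sn σ := by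
  unfold sn
  rw [Equiv.Perm.sign_inv]

theorem key : ∀ (σ τ : Equiv.Perm (Fin 4)), (if σ = τ then (288 : ℤ) else 0) =
    12 + 12 * (sn σ * sn τ) + 9 * (∑ k : Fin 3, ∑ i : Fin 4, hh k (σ⁻¹ i) * hh k (τ⁻¹ i)) +
    9 * (∑ k : Fin 3, ∑ i : Fin 4, (hh k (σ⁻¹ i) * sn σ) * (hh k (τ⁻¹ i) * sn τ)) +
    12 * (∑ p : Fin 3, gg 0 (pact σ⁻¹ p) * gg 0 (pact τ⁻¹ p)) +
    4 * (∑ p : Fin 3, gg 1 (pact σ⁻¹ p) * gg 1 (pact τ⁻¹ p)) := by
  decide +kernel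

/-- the component of `x` for the coefficients `u` -/
noncomputable def cmp (u : Equiv.Perm (Fin 4) → ℤ) (x : Equiv.Perm (Fin 4) → ℂ) : ℂ :=
  ∑ σ, (u σ : ℂ) * x σ

theorem cmp_mul (u : Equiv.Perm (Fin 4) → ℤ) (x y : Equiv.Perm (Fin 4) → ℂ) :
    (starRingEnd ℂ) (cmp u x) * cmp u y =
      ∑ σ, ∑ τ, ((u σ * u τ : ℤ) : ℂ) * ((starRingEnd ℂ) (x σ) * y τ) := by
  unfold cmp
  rw [map_sum, Finset.sum_mul_sum]
  refine Finset.sum_congr rfl fun σ _ => Finset.sum_congr rfl fun τ _ => ?_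
  have hu : (starRingEnd ℂ) ((u σ : ℤ) : ℂ) = ((u σ : ℤ) : ℂ) := by simp
  rw [map_mul, hu]
  push_cast
  ring

theorem cmp_sum {ι : Type} [Fintype ι] (u : ι → Equiv.Perm (Fin 4) → ℤ)
    (x y : Equiv.Perm (Fin 4) → ℂ) :
    ∑ i, (starRingEnd ℂ) (cmp (u i) x) * cmp (u i) y =
      ∑ σ, ∑ τ, ((∑ i, u i σ * u i τ : ℤ) : ℂ) * ((starRingEnd ℂ) (x σ) * y τ) := by
  simp_rw [cmp_mul]
  rw [Finset.sum_comm]
  refine Finset.sum_congr rfl fun σ _ => ?_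
  rw [Finset.sum_comm]
  refine Finset.sum_congr rfl fun τ _ => ?_
  rw [← Finset.sum_mul]
  push_cast
  rfl

/-- components for the standard representation -/
noncomputable def Vk (x : Equiv.Perm (Fin 4) → ℂ) (k : Fin 3) (i : Fin 4) : ℂ :=
  cmp (fun σ => hh k (σ⁻¹ i)) x

/-- components for the standard representation times the sign -/
noncomputable def Zk (x : Equiv.Perm (Fin 4) → ℂ) (k : Fin 3) (i : Fin 4) : ℂ :=
  cmp (fun σ => hh k (σ⁻¹ i) * sn σ) x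

/-- components for the pairings -/
noncomputable def Wk (x : Equiv.Perm (Fin 4) → ℂ) (k : Fin 2) (p : Fin 3) : ℂ :=
  cmp (fun σ => gg k (pact σ⁻¹ p)) x

theorem parseval (x y : Equiv.Perm (Fin 4) → ℂ) :
    288 * ∑ σ, (starRingEnd ℂ) (x σ) * y σ =
      12 * ((starRingEnd ℂ) (cmp (fun _ => 1) x) * cmp (fun _ => 1) y) +
      12 * ((starRingEnd ℂ) (cmp sn x) * cmp sn y) +
      9 * (∑ k : Fin 3, ∑ i : Fin 4, (starRingEnd ℂ) (Vk x k i) * Vk y k i) +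
      9 * (∑ k : Fin 3, ∑ i : Fin 4, (starRingEnd ℂ) (Zk x k i) * Zk y k i) +
      12 * (∑ p : Fin 3, (starRingEnd ℂ) (Wk x 0 p) * Wk y 0 p) +
      4 * (∑ p : Fin 3, (starRingEnd ℂ) (Wk x 1 p) * Wk y 1 p) := by
  have h1 : 288 * ∑ σ, (starRingEnd ℂ) (x σ) * y σ =
      ∑ σ, ∑ τ, (((if σ = τ then (288 : ℤ) else 0) : ℤ) : ℂ) *
        ((starRingEnd ℂ) (x σ) * y τ) := by
    rw [Finset.mul_sum]
    refine Finset.sum_congr rfl fun σ _ => ?_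
    rw [Finset.sum_eq_single σ]
    · simp
    · intro τ _ hτ
      rw [if_neg (Ne.symm hτ)]
      simp
    · intro h
      exact absurd (Finset.mem_univ σ) h
  have hV : ∀ k : Fin 3, ∑ i : Fin 4, (starRingEnd ℂ) (Vk x k i) * Vk y k i =
      ∑ σ, ∑ τ, ((∑ i : Fin 4, hh k (σ⁻¹ i) * hh k (τ⁻¹ i) : ℤ) : ℂ) *
        ((starRingEnd ℂ) (x σ) * y τ) := fun k =>
    cmp_sum (fun (i : Fin 4) σ => hh k (σ⁻¹ i)) x y
  have hZ : ∀ k : Fin 3, ∑ i : Fin 4, (starRingEnd ℂ) (Zk x k i) * Zk y k i =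
      ∑ σ, ∑ τ, ((∑ i : Fin 4, (hh k (σ⁻¹ i) * sn σ) * (hh k (τ⁻¹ i) * sn τ) : ℤ) : ℂ) *
        ((starRingEnd ℂ) (x σ) * y τ) := fun k =>
    cmp_sum (fun (i : Fin 4) σ => hh k (σ⁻¹ i) * sn σ) x y
  have hW : ∀ k : Fin 2, ∑ p : Fin 3, (starRingEnd ℂ) (Wk x k p) * Wk y k p =
      ∑ σ, ∑ τ, ((∑ p : Fin 3, gg k (pact σ⁻¹ p) * gg k (pact τ⁻¹ p) : ℤ) : ℂ) *
        ((starRingEnd ℂ) (x σ) * y τ) := fun k =>
    cmp_sum (fun (p : Fin 3) σ => gg k (pact σ⁻¹ p)) x y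
  rw [h1, cmp_mul, cmp_mul, Fin.sum_univ_three, Fin.sum_univ_three, hV, hV, hV, hZ, hZ, hZ,
    hW, hW]
  simp only [Finset.mul_sum, ← Finset.sum_add_distrib]
  refine Finset.sum_congr rfl fun σ _ => Finset.sum_congr rfl fun τ _ => ?_
  rw [key σ τ, Fin.sum_univ_three, Fin.sum_univ_three]
  push_cast
  ring

/-- translation -/
def tr (ρ : Equiv.Perm (Fin 4)) (x : Equiv.Perm (Fin 4) → ℂ) : Equiv.Perm (Fin 4) → ℂ :=
  fun σ => x (ρ * σ)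

theorem cmp_tr (u : Equiv.Perm (Fin 4) → ℤ) (ρ : Equiv.Perm (Fin 4))
    (x : Equiv.Perm (Fin 4) → ℂ) : cmp u (tr ρ x) = cmp (fun σ => u (ρ⁻¹ * σ)) x := by
  unfold cmp tr
  rw [← Equiv.sum_comp (Equiv.mulLeft ρ) (fun σ => ((u (ρ⁻¹ * σ) : ℤ) : ℂ) * x σ)]
  refine Finset.sum_congr rfl fun σ _ => ?_
  simp

theorem V_tr (ρ : Equiv.Perm (Fin 4)) (x : Equiv.Perm (Fin 4) → ℂ) (k : Fin 3) (i : Fin 4) :
    Vk (tr ρ x) k i = Vk x k (ρ i) := by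
  unfold Vk
  rw [cmp_tr]
  simp [Equiv.Perm.mul_apply]

theorem Z_tr (ρ : Equiv.Perm (Fin 4)) (x : Equiv.Perm (Fin 4) → ℂ) (k : Fin 3) (i : Fin 4) :
    Zk (tr ρ x) k i = sg ρ * Zk x k (ρ i) := by
  unfold Zk
  rw [cmp_tr]
  unfold cmp
  rw [Finset.mul_sum]
  refine Finset.sum_congr rfl fun σ _ => ?_
  show (((hh k ((ρ⁻¹ * σ)⁻¹ i) * sn (ρ⁻¹ * σ) : ℤ)) : ℂ) * x σ =
    sg ρ * (((hh k (σ⁻¹ (ρ i)) * sn σ : ℤ) : ℂ) * x σ)
  rw [sn_mul, sn_inv, sg_eq, _root_.mul_inv_rev, inv_inv, Equiv.Perm.mul_apply]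
  push_cast
  ring

theorem W_tr (ρ : Equiv.Perm (Fin 4)) (x : Equiv.Perm (Fin 4) → ℂ) (k : Fin 2) (p : Fin 3) :
    Wk (tr ρ x) k p = Wk x k (pact ρ p) := by
  unfold Wk
  rw [cmp_tr]
  simp only [_root_.mul_inv_rev, inv_inv, pact_mul]

theorem one_tr (ρ : Equiv.Perm (Fin 4)) (x : Equiv.Perm (Fin 4) → ℂ) :
    cmp (fun _ => 1) (tr ρ x) = cmp (fun _ => 1) x := by
  rw [cmp_tr]

theorem sn_tr (ρ : Equiv.Perm (Fin 4)) (x : Equiv.Perm (Fin 4) → ℂ) :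
    cmp sn (tr ρ x) = sg ρ * cmp sn x := by
  rw [cmp_tr]
  unfold cmp
  rw [Finset.mul_sum]
  refine Finset.sum_congr rfl fun σ _ => ?_
  show ((sn (ρ⁻¹ * σ) : ℤ) : ℂ) * x σ = sg ρ * (((sn σ : ℤ) : ℂ) * x σ)
  rw [sn_mul, sn_inv, sg_eq]
  push_cast
  ring

/-- the decomposition for one permutation -/
theorem one_perm (x : Equiv.Perm (Fin 4) → ℂ) (ρ : Equiv.Perm (Fin 4)) :
    288 * ∑ σ, (starRingEnd ℂ) (x σ) * (x σ - x (ρ * σ)) =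
      12 * ((starRingEnd ℂ) (cmp sn x) * cmp sn x * (1 - sg ρ)) +
      9 * (∑ k : Fin 3, ∑ i : Fin 4, (starRingEnd ℂ) (Vk x k i) * (Vk x k i - Vk x k (ρ i))) +
      9 * (∑ k : Fin 3, ∑ i : Fin 4, (starRingEnd ℂ) (Zk x k i) *
        (Zk x k i - sg ρ * Zk x k (ρ i))) +
      12 * (∑ p : Fin 3, (starRingEnd ℂ) (Wk x 0 p) * (Wk x 0 p - Wk x 0 (pact ρ p))) +
      4 * (∑ p : Fin 3, (starRingEnd ℂ) (Wk x 1 p) * (Wk x 1 p - Wk x 1 (pact ρ p))) := by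
  have h1 := parseval x x
  have h2 := parseval x (tr ρ x)
  simp only [V_tr, Z_tr, W_tr, one_tr, sn_tr] at h2
  have h3 : ∑ σ, (starRingEnd ℂ) (x σ) * (x σ - x (ρ * σ)) =
      ∑ σ, (starRingEnd ℂ) (x σ) * x σ - ∑ σ, (starRingEnd ℂ) (x σ) * tr ρ x σ := by
    rw [← Finset.sum_sub_distrib]
    refine Finset.sum_congr rfl fun σ _ => ?_
    unfold tr
    ring
  rw [h3, mul_sub, h1, h2]
  simp only [mul_sub, Finset.sum_sub_distrib]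
  ring

theorem Z_sum (x : Equiv.Perm (Fin 4) → ℂ) (k : Fin 3) : ∑ i, Zk x k i = 0 := by
  unfold Zk cmp
  rw [Finset.sum_comm]
  apply Finset.sum_eq_zero
  intro σ _
  rw [← Finset.sum_mul]
  have h1 : ∑ i : Fin 4, hh k (σ⁻¹ i) = ∑ i : Fin 4, hh k i :=
    Equiv.sum_comp (σ⁻¹ : Equiv.Perm (Fin 4)) (hh k)
  have h2 : ∀ k : Fin 3, ∑ i : Fin 4, hh k i = 0 := by decide
  have h3 : ∑ i : Fin 4, ((hh k (σ⁻¹ i) * sn σ : ℤ) : ℂ) =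
      (((∑ i : Fin 4, hh k (σ⁻¹ i)) * sn σ : ℤ) : ℂ) := by
    rw [Finset.sum_mul]
    push_cast
    rfl
  rw [h3, h1, h2 k]
  simp

/-- the decomposition of the form -/
theorem decomp (A : Matrix (Fin 4) (Fin 4) ℂ) (x : Equiv.Perm (Fin 4) → ℂ) :
    288 * Qreg A x = 12 * ((starRingEnd ℂ) (cmp sn x) * cmp sn x * Qdet A) +
      9 * (∑ k : Fin 3, Q31 A (Vk x k)) + 9 * (∑ k : Fin 3, Q211 A (Zk x k)) +
      12 * Q22 A (Wk x 0) + 4 * Q22 A (Wk x 1) := by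
  have hsw : ∀ F : Equiv.Perm (Fin 4) → Fin 3 → ℂ,
      ∑ k : Fin 3, ∑ ρ, pr A ρ * F ρ k = ∑ ρ, pr A ρ * ∑ k : Fin 3, F ρ k := by
    intro F
    rw [Finset.sum_comm]
    refine Finset.sum_congr rfl fun ρ _ => ?_
    rw [Finset.mul_sum]
  have h31 : ∑ k : Fin 3, Q31 A (Vk x k) = ∑ ρ, pr A ρ * ∑ k : Fin 3, ∑ i : Fin 4,
      (starRingEnd ℂ) (Vk x k i) * (Vk x k i - Vk x k (ρ i)) :=
    hsw fun ρ k => ∑ i : Fin 4, (starRingEnd ℂ) (Vk x k i) * (Vk x k i - Vk x k (ρ i))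
  have h211 : ∑ k : Fin 3, Q211 A (Zk x k) = ∑ ρ, pr A ρ * ∑ k : Fin 3, ∑ i : Fin 4,
      (starRingEnd ℂ) (Zk x k i) * (Zk x k i - sg ρ * Zk x k (ρ i)) :=
    hsw fun ρ k => ∑ i : Fin 4, (starRingEnd ℂ) (Zk x k i) * (Zk x k i - sg ρ * Zk x k (ρ i))
  rw [h31, h211]
  unfold Qreg Qdet Q22
  have hL : 288 * ∑ ρ, pr A ρ * ∑ σ, (starRingEnd ℂ) (x σ) * (x σ - x (ρ * σ)) =
      ∑ ρ, pr A ρ * (288 * ∑ σ, (starRingEnd ℂ) (x σ) * (x σ - x (ρ * σ))) := by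
    rw [Finset.mul_sum]
    refine Finset.sum_congr rfl fun ρ _ => ?_
    ring
  have hR : ∀ (c : ℂ) (F : Equiv.Perm (Fin 4) → ℂ),
      c * ∑ ρ, pr A ρ * F ρ = ∑ ρ, pr A ρ * (c * F ρ) := by
    intro c F
    rw [Finset.mul_sum]
    refine Finset.sum_congr rfl fun ρ _ => ?_
    ring
  rw [hL, hR, hR, hR, hR, hR, hR, ← Finset.sum_add_distrib, ← Finset.sum_add_distrib,
    ← Finset.sum_add_distrib, ← Finset.sum_add_distrib]
  refine Finset.sum_congr rfl fun ρ _ => ?_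
  rw [one_perm]
  ring

theorem rep : Pool.W258.P4.P_REP := by
  intro A h31 h22 h211 hdet x
  have h := congrArg Complex.re (decomp A x)
  have hn : (starRingEnd ℂ) (cmp sn x) * cmp sn x = ((Complex.normSq (cmp sn x) : ℝ) : ℂ) := by
    rw [mul_comm, Complex.mul_conj]
  rw [hn] at h
  have e1 : ((288 : ℂ) * Qreg A x).re = 288 * (Qreg A x).re := by
    simp
  have e2 : ((12 : ℂ) * (((Complex.normSq (cmp sn x) : ℝ) : ℂ) * Qdet A)).re =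
      12 * (Complex.normSq (cmp sn x) * (Qdet A).re) := by
    simp
  have e3 : ((9 : ℂ) * (∑ k : Fin 3, Q31 A (Vk x k))).re =
      9 * ∑ k : Fin 3, (Q31 A (Vk x k)).re := by
    simp
  have e4 : ((9 : ℂ) * (∑ k : Fin 3, Q211 A (Zk x k))).re =
      9 * ∑ k : Fin 3, (Q211 A (Zk x k)).re := by
    simp
  have e5 : ((12 : ℂ) * Q22 A (Wk x 0)).re = 12 * (Q22 A (Wk x 0)).re := by
    simp
  have e6 : ((4 : ℂ) * Q22 A (Wk x 1)).re = 4 * (Q22 A (Wk x 1)).re := by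
    simp
  rw [Complex.add_re, Complex.add_re, Complex.add_re, Complex.add_re, e1, e2, e3, e4, e5,
    e6] at h
  have p2 : 0 ≤ Complex.normSq (cmp sn x) * (Qdet A).re :=
    mul_nonneg (Complex.normSq_nonneg _) hdet
  have p3 : 0 ≤ ∑ k : Fin 3, (Q31 A (Vk x k)).re := Finset.sum_nonneg fun k _ => h31 _
  have p4 : 0 ≤ ∑ k : Fin 3, (Q211 A (Zk x k)).re :=
    Finset.sum_nonneg fun k _ => h211 _ (Z_sum x k)
  have p5 := h22 (Wk x 0)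
  have p6 := h22 (Wk x 1)
  linarith

end Pool.W258.P4
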