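import Pool.Agent.W258.P4.Spec2

/-!
# The target form of the block (2,2)
-/

set_option autoImplicit false
open Matrix Finset
open scoped ComplexOrder BigOperators

namespace Pool.W258.P4.T22

/-- the table of the permutation number `s` -/
def f (s : Fin 24) (a : Fin 4) : Fin 4 := Fin.ofNat 4 (dg 2 (gtab s) a)

theorem f_val : ∀ s : Fin 24, ∀ a : Fin 4, dg 2 (gtab s) a = (f s a : ℕ) := by decide +kernel

theorem f_inj : ∀ s : Fin 24, ∀ a b : Fin 4, f s a = f s b → a = b := by decide +kernel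

theorem f_ne : ∀ s t : Fin 24, (∀ a, f s a = f t a) → s = t := by decide +kernel

/-- the permutation number `s` -/
noncomputable def g (s : Fin 24) : Equiv.Perm (Fin 4) :=
  Equiv.ofBijective (f s) (Finite.injective_iff_bijective.1 fun a b => f_inj s a b)

theorem g_apply (s : Fin 24) (a : Fin 4) : g s a = f s a := rfl

theorem g_bij : Function.Bijective g := by
  refine (Fintype.bijective_iff_injective_and_card g).2 ⟨fun s t h => f_ne s t fun a => ?_, ?_⟩
  · rw [← g_apply, ← g_apply, h]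
  · rw [Fintype.card_fin, Fintype.card_perm, Fintype.card_fin]
    rfl

theorem sum_g {M : Type*} [AddCommMonoid M] (F : Equiv.Perm (Fin 4) → M) :
    ∑ s : Fin 24, F (g s) = ∑ σ, F σ :=
  (Equiv.ofBijective g g_bij).sum_comp F

theorem pac_f : ∀ s : Fin 24, ∀ p : Fin 3, pac 3 (gtab s) p = (pairIdx (f s 0) (f s p.succ) : ℕ) := by
  decide +kernel

theorem pair_f : ∀ s : Fin 24, ∀ a b : Fin 4, a ≠ b →
    pairIdx (f s a) (f s b) = pairIdx (f s 0) (f s (pairIdx a b).succ) := by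
  decide +kernel

theorem pair_g (σ : Equiv.Perm (Fin 4)) (a b : Fin 4) (h : a ≠ b) :
    pairIdx (σ a) (σ b) = pact σ (pairIdx a b) := by
  obtain ⟨s, rfl⟩ := g_bij.2 σ
  exact pair_f s a b h

theorem pact_mul (σ τ : Equiv.Perm (Fin 4)) (p : Fin 3) : pact (σ * τ) p = pact σ (pact τ p) := by
  unfold pact
  rw [Equiv.Perm.mul_apply, Equiv.Perm.mul_apply, pair_g σ _ _ ?_]
  · rfl
  · intro h
    exact (Fin.succ_ne_zero p) (τ.injective h).symm

theorem pact_one : ∀ p : Fin 3, pact 1 p = p := by decide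

theorem pact_bij (σ : Equiv.Perm (Fin 4)) : Function.Bijective (pact σ) := by
  refine Function.bijective_iff_has_inverse.2 ⟨pact σ⁻¹, fun p => ?_, fun p => ?_⟩
  · rw [← pact_mul, inv_mul_cancel, pact_one]
  · rw [← pact_mul, mul_inv_cancel, pact_one]

theorem tc_f : ∀ s : Fin 24, ∀ p q : Fin 3, tcoef 3 false s p q =
    (if p = q then 1 else 0) - (if pairIdx (f s 0) (f s p.succ) = q then 1 else 0) := by
  decide +kernel

theorem tc (s : Fin 24) (p q : Fin 3) : ((tcoef 3 false s p q : ℤ) : ℂ) =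
    (if p = q then 1 else 0) - (if pact (g s) p = q then 1 else 0) := by
  rw [tc_f s p q]
  change _ = _ - (if pairIdx (f s 0) (f s p.succ) = q then (1 : ℂ) else 0)
  push_cast
  rfl

theorem tm_lo : ∀ s : Fin 24, ∀ i : Fin 4, tMf s i = 4 * (i : ℕ) + i := by decide +kernel

theorem tm_hi : ∀ s : Fin 24, ∀ i : Fin 4, tMf s (4 + i) = 4 * (i : ℕ) + (f s i : ℕ) := by
  decide +kernel

theorem fin4_div : ∀ i j : Fin 4, (Fin.ofNat 4 ((4 * (i : ℕ) + j) / 4) : Fin 4) = i := by decide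

theorem fin4_mod : ∀ i j : Fin 4, (Fin.ofNat 4 ((4 * (i : ℕ) + j) % 4) : Fin 4) = j := by decide

theorem ev (A : Matrix (Fin 4) (Fin 4) ℂ) (σ : Equiv.Perm (Fin 4)) (s : Fin 24) :
    evM A σ (tMf s) = (∏ k, A k k) * ∏ t, A (σ t) (σ (g s t)) := by
  unfold evM
  rw [show (8 : ℕ) = 4 + 4 from rfl, prod_range_add, prod_range, prod_range]
  congr 1
  · rw [← Equiv.prod_comp σ (fun k => A k k)]
    refine prod_congr rfl fun i _ => ?_
    rw [tm_lo, fin4_div, fin4_mod]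
  · refine prod_congr rfl fun i _ => ?_
    rw [tm_hi, fin4_div, fin4_mod, g_apply]

/-- the value for a fixed permutation -/
theorem inn (A : Matrix (Fin 4) (Fin 4) ℂ) (w : Fin 3 → ℂ) (σ : Equiv.Perm (Fin 4)) :
    ∑ τ : Equiv.Perm (Fin 4), (∏ t, A (σ t) (σ (τ t))) * ∑ p : Fin 3,
      (starRingEnd ℂ) (w (pact σ p)) * (w (pact σ p) - w (pact σ (pact τ p))) = Q22 A w := by
  unfold Q22
  refine Fintype.sum_equiv (MulAut.conj σ).toEquiv _ _ fun τ => ?_
  have h0 : (MulAut.conj σ).toEquiv τ = σ * τ * σ⁻¹ := rfl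
  rw [h0]
  congr 1
  · unfold pr
    rw [← Equiv.prod_comp σ (fun t => A t ((σ * τ * σ⁻¹) t))]
    refine prod_congr rfl fun t _ => ?_
    have h1 : (σ * τ * σ⁻¹) (σ t) = σ (τ t) := by
      rw [← Equiv.Perm.mul_apply, inv_mul_cancel_right, Equiv.Perm.mul_apply]
    rw [h1]
  · rw [← (Equiv.ofBijective _ (pact_bij σ)).sum_comp (fun p => (starRingEnd ℂ) (w p) *
      (w p - w (pact (σ * τ * σ⁻¹) p)))]
    refine sum_congr rfl fun p _ => ?_
    rw [Equiv.ofBijective_apply, ← pact_mul, ← pact_mul, inv_mul_cancel_right]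

theorem inner2 (w : Fin 3 → ℂ) (σ : Equiv.Perm (Fin 4)) (s : Fin 24) :
    ∑ p : Fin 3, ∑ q : Fin 3, ((tcoef 3 false s p q : ℤ) : ℂ) *
      ((starRingEnd ℂ) (w (pact σ p)) * w (pact σ q)) =
    ∑ p : Fin 3, (starRingEnd ℂ) (w (pact σ p)) * (w (pact σ p) - w (pact σ (pact (g s) p))) := by
  refine sum_congr rfl fun p _ => ?_
  have h : ∀ q : Fin 3, ((tcoef 3 false s p q : ℤ) : ℂ) *
      ((starRingEnd ℂ) (w (pact σ p)) * w (pact σ q)) =
      (if p = q then (starRingEnd ℂ) (w (pact σ p)) * w (pact σ q) else 0) -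
      (if pact (g s) p = q then (starRingEnd ℂ) (w (pact σ p)) * w (pact σ q) else 0) := by
    intro q
    rw [tc, sub_mul, ite_mul, ite_mul, one_mul, zero_mul]
  rw [sum_congr rfl fun q _ => h q, sum_sub_distrib, sum_ite_eq, sum_ite_eq, if_pos (mem_univ _),
    if_pos (mem_univ _), mul_sub]

theorem phi (A : Matrix (Fin 4) (Fin 4) ℂ) (w : Fin 3 → ℂ) (s : Fin 24) (p q : Fin 3) :
    Phi 3 A (fun n => w (Fin.ofNat 3 n)) p q (tMf s) =
    (∑ σ : Equiv.Perm (Fin 4), (starRingEnd ℂ) (w (pact σ p)) * w (pact σ q) *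
      ((∏ k, A k k) * ∏ t, A (σ t) (σ (g s t)))).re := by
  have h3 : ∀ r : Fin 3, (Fin.ofNat 3 (r : ℕ) : Fin 3) = r := by decide
  unfold Phi
  congr 1
  refine sum_congr rfl fun σ _ => ?_
  rw [ev]
  unfold pactN
  rw [if_neg (by norm_num), if_neg (by norm_num)]
  simp only [h3]

end Pool.W258.P4.T22

namespace Pool.W258.P4

open T22

theorem tgt22_ : P_TGT22 := by
  intro A w _
  rw [sum_range]
  simp_rw [sum_range]
  simp_rw [phi]
  have h1 : ∀ s : Fin 24, (∑ p : Fin 3, ∑ q : Fin 3, ((tcoef 3 false s p q : ℤ) : ℝ) *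
      (∑ σ : Equiv.Perm (Fin 4), (starRingEnd ℂ) (w (pact σ p)) * w (pact σ q) *
        ((∏ k, A k k) * ∏ t, A (σ t) (σ (g s t)))).re) =
      (∑ σ : Equiv.Perm (Fin 4), (∏ k, A k k) * ((∏ t, A (σ t) (σ (g s t))) * ∑ p : Fin 3,
        (starRingEnd ℂ) (w (pact σ p)) * (w (pact σ p) - w (pact σ (pact (g s) p))))).re := by
    intro s
    have h2 : ∀ p q : Fin 3, ((tcoef 3 false s p q : ℤ) : ℝ) *
      (∑ σ : Equiv.Perm (Fin 4), (starRingEnd ℂ) (w (pact σ p)) * w (pact σ q) *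
        ((∏ k, A k k) * ∏ t, A (σ t) (σ (g s t)))).re =
      (((tcoef 3 false s p q : ℤ) : ℂ) * (∑ σ : Equiv.Perm (Fin 4),
        (starRingEnd ℂ) (w (pact σ p)) * w (pact σ q) *
        ((∏ k, A k k) * ∏ t, A (σ t) (σ (g s t))))).re := by
      intro p q
      rw [← Complex.ofReal_intCast, Complex.re_ofReal_mul]
    simp_rw [h2]
    simp_rw [← Complex.re_sum]
    congr 1
    simp_rw [mul_sum]
    rw [sum_congr rfl fun p _ => sum_comm, sum_comm]
    refine sum_congr rfl fun σ _ => ?_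
    rw [← mul_sum, ← mul_sum, ← inner2 w σ s, mul_sum, mul_sum]
    refine sum_congr rfl fun p _ => ?_
    rw [mul_sum, mul_sum]
    refine sum_congr rfl fun q _ => ?_
    ring
  rw [sum_congr rfl fun s _ => h1 s, ← Complex.re_sum, sum_comm]
  have h3 : ∀ σ : Equiv.Perm (Fin 4), ∑ s : Fin 24, (∏ k, A k k) *
      ((∏ t, A (σ t) (σ (g s t))) * ∑ p : Fin 3,
        (starRingEnd ℂ) (w (pact σ p)) * (w (pact σ p) - w (pact σ (pact (g s) p)))) =
      (∏ k, A k k) * Q22 A w := by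
    intro σ
    rw [← mul_sum, sum_g (fun τ => (∏ t, A (σ t) (σ (τ t))) * ∑ p : Fin 3,
        (starRingEnd ℂ) (w (pact σ p)) * (w (pact σ p) - w (pact σ (pact τ p)))), inn]
  rw [sum_congr rfl fun σ _ => h3 σ, sum_const, card_univ, Fintype.card_perm, Fintype.card_fin,
    nsmul_eq_mul]
  have h4 : ((Nat.factorial 4 : ℕ) : ℂ) = ((24 : ℝ) : ℂ) := by norm_num [Nat.factorial]
  rw [h4, Complex.re_ofReal_mul]

end Pool.W258.P4
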