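import Pool.Agent.W258.P4.Spec2

/-!
P_TOT: the packed integer identity implies the identity for all real values of the keys.
-/

set_option autoImplicit false
open scoped BigOperators

namespace Pool.W258.P4

/-- `z` is the value at `B` of an integral linear form `f` with sum of absolute values of the
coefficients at most `N` -/
def LF (B : ℤ) (N : ℕ) (z : ℤ) (f : (ℕ → ℝ) → ℝ) : Prop :=
  ∃ L : List (ℤ × ℕ), (L.map (fun x => x.1.natAbs)).sum ≤ N ∧
    (L.map (fun x => x.1 * B ^ x.2)).sum = z ∧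
    ∀ φ, f φ = (L.map (fun x => (x.1 : ℝ) * φ x.2)).sum

lemma LF.mono {B : ℤ} {N N' : ℕ} {z : ℤ} {f : (ℕ → ℝ) → ℝ} (h : LF B N z f) (hN : N ≤ N') :
    LF B N' z f := by
  obtain ⟨L, h1, h2, h3⟩ := h
  exact ⟨L, h1.trans hN, h2, h3⟩

lemma LF.zero (B : ℤ) : LF B 0 0 (fun _ => 0) := ⟨[], by simp⟩

lemma LF.single (B : ℤ) (c : ℤ) (k N : ℕ) (h : c.natAbs ≤ N) :
    LF B N (c * B ^ k) (fun φ => (c : ℝ) * φ k) := ⟨[(c, k)], by simpa using h, by simp, by simp⟩

lemma LF.add {B : ℤ} {N N' : ℕ} {z z' : ℤ} {f f' : (ℕ → ℝ) → ℝ} (h : LF B N z f)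
    (h' : LF B N' z' f') : LF B (N + N') (z + z') (fun φ => f φ + f' φ) := by
  obtain ⟨L, h1, h2, h3⟩ := h
  obtain ⟨L', h1', h2', h3'⟩ := h'
  refine ⟨L ++ L', ?_, ?_, ?_⟩
  · rw [List.map_append, List.sum_append]
    exact Nat.add_le_add h1 h1'
  · rw [List.map_append, List.sum_append, h2, h2']
  · intro φ
    show f φ + f' φ = _
    rw [List.map_append, List.sum_append, h3, h3']

lemma LF.smul {B : ℤ} {N : ℕ} {z : ℤ} {f : (ℕ → ℝ) → ℝ} (h : LF B N z f) (c : ℤ) :
    LF B (c.natAbs * N) (c * z) (fun φ => (c : ℝ) * f φ) := by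
  obtain ⟨L, h1, h2, h3⟩ := h
  refine ⟨L.map (fun x => (c * x.1, x.2)), ?_, ?_, ?_⟩
  · rw [List.map_map]
    have e : (L.map ((fun x : ℤ × ℕ => x.1.natAbs) ∘ fun x => (c * x.1, x.2))) =
        L.map (fun x => c.natAbs * x.1.natAbs) :=
      List.map_congr_left (fun x _ => Int.natAbs_mul c x.1)
    rw [e, List.sum_map_mul_left]
    exact Nat.mul_le_mul_left _ h1
  · rw [List.map_map, ← h2]
    have e : (L.map ((fun x : ℤ × ℕ => x.1 * B ^ x.2) ∘ fun x => (c * x.1, x.2))) =
        L.map (fun x => c * (x.1 * B ^ x.2)) :=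
      List.map_congr_left (fun x _ => by simp [mul_assoc])
    rw [e, List.sum_map_mul_left]
  · intro φ
    show (c : ℝ) * f φ = _
    rw [List.map_map, h3]
    have e : (L.map ((fun x : ℤ × ℕ => (x.1 : ℝ) * φ x.2) ∘ fun x => (c * x.1, x.2))) =
        L.map (fun x => (c : ℝ) * ((x.1 : ℝ) * φ x.2)) :=
      List.map_congr_left (fun x _ => by simp [mul_assoc])
    rw [e, List.sum_map_mul_left]

lemma LF.rsum {B : ℤ} (n N : ℕ) (z : ℕ → ℤ) (f : ℕ → (ℕ → ℝ) → ℝ)
    (h : ∀ i, i < n → LF B N (z i) (f i)) :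
    LF B (n * N) (∑ i ∈ Finset.range n, z i) (fun φ => ∑ i ∈ Finset.range n, f i φ) := by
  induction n with
  | zero => simpa using LF.zero B
  | succ n ih =>
    have h1 := (ih (fun i hi => h i (by omega))).add (h n (by omega))
    simp only [Finset.sum_range_succ]
    rw [Nat.succ_mul]
    exact h1

lemma LF.lsum {B : ℤ} {α : Type*} (l : List α) (N : α → ℕ) (z : α → ℤ)
    (f : α → (ℕ → ℝ) → ℝ) (h : ∀ a, LF B (N a) (z a) (f a)) :
    LF B (l.map N).sum (l.map z).sum (fun φ => (l.map (fun a => f a φ)).sum) := by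
  induction l with
  | nil => simpa using LF.zero B
  | cons a l ih =>
    simp only [List.map_cons, List.sum_cons]
    exact (h a).add ih

lemma dig (B : ℤ) (hB : 0 < B) (K : ℕ) : ∀ d : ℕ → ℤ, (∀ k, |d k| < B) →
    ∑ k ∈ Finset.range K, d k * B ^ k = 0 → ∀ k, k < K → d k = 0 := by
  induction K with
  | zero => intro d _ _ k hk; omega
  | succ K ih =>
    intro d hd h
    rw [Finset.sum_range_succ'] at h
    have e : ∑ k ∈ Finset.range K, d (k + 1) * B ^ (k + 1) =
        B * ∑ k ∈ Finset.range K, d (k + 1) * B ^ k := by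
      rw [Finset.mul_sum]
      exact Finset.sum_congr rfl (fun k _ => by ring)
    rw [e, pow_zero, mul_one] at h
    have h1 : B ∣ d 0 := ⟨-(∑ k ∈ Finset.range K, d (k + 1) * B ^ k), by linarith⟩
    have h0 : d 0 = 0 := Int.eq_zero_of_abs_lt_dvd h1 (hd 0)
    rw [h0, add_zero] at h
    have h2 : ∑ k ∈ Finset.range K, d (k + 1) * B ^ k = 0 := by
      rcases mul_eq_zero.1 h with h3 | h3
      · omega
      · exact h3
    have h3 := ih (fun k => d (k + 1)) (fun k => hd (k + 1)) h2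
    intro k hk
    rcases k with _ | k
    · exact h0
    · exact h3 k (by omega)

lemma LF.eq_zero {B : ℤ} {N : ℕ} {f : (ℕ → ℝ) → ℝ} (h : LF B N 0 f) (hN : (N : ℤ) < B) :
    ∀ φ, f φ = 0 := by
  obtain ⟨L, h1, h2, h3⟩ := h
  have hB : 0 < B := lt_of_le_of_lt (by positivity) hN
  set d : ℕ → ℤ := fun k => (L.map (fun x => if x.2 = k then x.1 else 0)).sum with hd
  obtain ⟨K, hK⟩ : ∃ K : ℕ, ∀ x ∈ L, x.2 < K := by
    clear h1 h2 h3 hd
    induction L with
    | nil => exact ⟨0, by simp⟩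
    | cons a L ih =>
      obtain ⟨K, hK⟩ := ih
      refine ⟨max K (a.2 + 1), ?_⟩
      intro x hx
      rcases List.mem_cons.1 hx with rfl | hx
      · omega
      · have := hK x hx
        omega
  have hdle : ∀ k, |d k| < B := by
    intro k
    refine lt_of_le_of_lt ?_ hN
    have : ∀ L : List (ℤ × ℕ), |(L.map (fun x => if x.2 = k then x.1 else 0)).sum| ≤
        (((L.map (fun x => x.1.natAbs)).sum : ℕ) : ℤ) := by
      intro L
      induction L with
      | nil => simp
      | cons a L ih =>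
        simp only [List.map_cons, List.sum_cons]
        rw [Nat.cast_add]
        refine (abs_add_le _ _).trans (add_le_add ?_ ih)
        split_ifs
        · simp
        · simp
    refine (this L).trans (by exact_mod_cast h1)
  have gen : ∀ (R : Type) [CommRing R] (ψ : ℕ → R) (L : List (ℤ × ℕ)), (∀ x ∈ L, x.2 < K) →
      (L.map (fun x => (x.1 : R) * ψ x.2)).sum =
      ∑ k ∈ Finset.range K, (((L.map (fun x => if x.2 = k then x.1 else 0)).sum : ℤ) : R) * ψ k := by
    intro R _ ψ L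
    induction L with
    | nil => intro _; simp
    | cons a L ih =>
      intro hL
      have ih' := ih (fun x hx => hL x (List.mem_cons_of_mem _ hx))
      simp only [List.map_cons, List.sum_cons]
      rw [ih']
      have ha := hL a List.mem_cons_self
      have e : (a.1 : R) * ψ a.2 =
          ∑ k ∈ Finset.range K, (((if a.2 = k then a.1 else 0 : ℤ)) : R) * ψ k := by
        rw [Finset.sum_eq_single a.2]
        · simp
        · intro b _ hb
          rw [if_neg (Ne.symm hb)]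
          simp
        · intro hb
          exact absurd (Finset.mem_range.2 ha) hb
      rw [e, ← Finset.sum_add_distrib]
      refine Finset.sum_congr rfl (fun k _ => ?_)
      push_cast
      ring
  have h4 := gen ℤ (fun k => B ^ k) L hK
  simp only [Int.cast_id] at h4
  rw [h2] at h4
  have h5 := dig B hB K d hdle h4.symm
  intro φ
  rw [h3, gen ℝ φ L hK]
  refine Finset.sum_eq_zero (fun k hk => ?_)
  have h6 := h5 k (Finset.mem_range.1 hk)
  rw [hd] at h6
  simp only at h6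
  rw [h6]
  simp

lemma nsum_eq (n : ℕ) (f : ℕ → ℕ) : nsum n f = ∑ i ∈ Finset.range n, f i := by
  induction n with
  | zero => rfl
  | succ n ih =>
    rw [Finset.sum_range_succ, ← ih]
    rfl

lemma zsum_eq (n : ℕ) (f : ℕ → ℤ) : zsum n f = ∑ i ∈ Finset.range n, f i := by
  induction n with
  | zero => rfl
  | succ n ih =>
    rw [Finset.sum_range_succ, ← ih]
    rfl

lemma frc1_eq {β : Type} (n : ℕ) (f : ℕ → β) : frc1 n f = f n := by
  cases n with
  | zero => rfl
  | succ n => rfl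

lemma shl (k : ℕ) : ((Nat.shiftLeft 1 (Nat.mul 96 k) : ℕ) : ℤ) = ((2 : ℤ) ^ 96) ^ k := by
  have h : Nat.shiftLeft 1 (Nat.mul 96 k) = (2 ^ 96) ^ k := by
    show 1 <<< (96 * k) = (2 ^ 96) ^ k
    rw [Nat.shiftLeft_eq, one_mul, pow_mul]
  rw [h]
  push_cast
  rfl

lemma dg_lt (w n i : ℕ) : dg w n i < 2 ^ w := Nat.mod_lt _ (Nat.two_pow_pos w)

lemma Yr_le (b : BD) (al be : ℕ) : (Yr b al be).natAbs ≤ 2 ^ 72 := by
  unfold Yr
  have h := dg_lt 72 (b.rows.getD al 0) be
  generalize dg 72 (b.rows.getD al 0) be = x at h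
  have h2 : (2 : ℕ) ^ 72 = 4722366482869645213696 := by norm_num
  rw [h2] at h ⊢
  omega

lemma entLF (md : MD) (hmd : md.nc ≤ 4) (b : BD) (t t' h : ℕ) :
    LF ((2 : ℤ) ^ 96) (16 * 2 ^ 72) (entZ md b t t' h) (entR md b t t' h) := by
  have e : entZ md b t t' h = ∑ p ∈ Finset.range md.nc, ∑ q ∈ Finset.range md.nc,
      Yr b (md.nc * t + p) (md.nc * t' + q) * ((2 : ℤ) ^ 96) ^
        (idxs md (Nat.xor b.bar (h / 32 % 2)) (h / 64) (pac md.nc (gtab (h % 32)) p)
          (pac md.nc (gtab (h % 32)) q)) := by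
    unfold entZ
    rw [frc1_eq, frc1_eq, frc1_eq]
    unfold entS entO
    simp only [nsum_eq]
    show ((_ : ℕ) : ℤ) - ((_ : ℕ) : ℤ) = _
    have hm : ∀ a c : ℕ, Nat.mul a c = a * c := fun _ _ => rfl
    have ha : ∀ a c : ℕ, Nat.add a c = a + c := fun _ _ => rfl
    simp only [hm (dg _ _ _), hm oYN]
    push_cast
    rw [Finset.mul_sum, ← Finset.sum_sub_distrib]
    refine Finset.sum_congr rfl (fun p _ => ?_)
    rw [Finset.mul_sum, ← Finset.sum_sub_distrib]
    refine Finset.sum_congr rfl (fun q _ => ?_)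
    rw [shl, ← sub_mul]
    rfl
  rw [e]
  have h16 : md.nc * (md.nc * 2 ^ 72) ≤ 16 * 2 ^ 72 := by
    rw [← mul_assoc]
    exact Nat.mul_le_mul_right _ (Nat.mul_le_mul hmd hmd)
  refine LF.mono ?_ h16
  unfold entR
  refine LF.rsum md.nc _ _ _ (fun p _ => ?_)
  refine LF.rsum md.nc _ _ _ (fun q _ => ?_)
  exact LF.single _ _ _ _ (Yr_le _ _ _)

lemma blockLF (md : MD) (hmd : md.nc ≤ 4) (b : BD) :
    LF ((2 : ℤ) ^ 96) (b.nT * (b.nT * (b.ns * (16 * 2 ^ 72)))) (blockZ md b) (blockR md b) := by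
  unfold blockZ blockR
  simp only [zsum_eq, frc1_eq]
  refine LF.rsum b.nT _ _ _ (fun t _ => ?_)
  refine LF.rsum b.nT _ _ _ (fun t' _ => ?_)
  refine LF.rsum b.ns _ _ _ (fun s _ => ?_)
  have h := entLF md hmd b t t' (hnt b t t' s)
  unfold sgR
  by_cases hs : sbit b.kd s = 0
  · have hb : Nat.beq (sbit b.kd s) 0 = true := by rw [hs]; rfl
    rw [if_pos hs, hb]
    simpa using h
  · have hb : Nat.beq (sbit b.kd s) 0 = false := by
      cases hc : Nat.beq (sbit b.kd s) 0 with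
      | false => rfl
      | true => exact absurd (Nat.eq_of_beq_eq_true hc) hs
    rw [if_neg hs, hb]
    have h2 := h.smul (-1)
    have e1 : (-1 : ℤ).natAbs * (16 * 2 ^ 72) = 16 * 2 ^ 72 := by
      rw [show (-1 : ℤ).natAbs = 1 from rfl, one_mul]
    rw [e1] at h2
    convert h2 using 1
    · show -(entZ md b t t' (hnt b t t' s)) = _
      ring
    · funext φ
      push_cast
      rfl

lemma tcoef_le (nc : ℕ) (md211 : Bool) (s p q : ℕ) : (tcoef nc md211 s p q).natAbs ≤ 16 := by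
  unfold tcoef
  cases md211 <;> cases (Nat.beq p q) <;> cases (Nat.beq (pac nc (gtab s) p) q) <;>
    cases (Nat.beq (dg 1 SG s) 0) <;> decide

lemma tgtLF (md : MD) (hmd : md.nc ≤ 4) (md211 : Bool) (den TH : ℕ) :
    LF ((2 : ℤ) ^ 96) (den * (24 * (16 * 16))) (tgtZ md md211 den TH) (tgtR md md211 den TH) := by
  unfold tgtZ tgtR
  simp only [zsum_eq]
  have h16 : md.nc * (md.nc * 16) ≤ 16 * 16 := by
    rw [← mul_assoc]
    exact Nat.mul_le_mul_right _ (Nat.mul_le_mul hmd hmd)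
  have h := (LF.rsum (B := (2 : ℤ) ^ 96) 24 (16 * 16) _ _ (fun s _ => LF.mono
    (LF.rsum (B := (2 : ℤ) ^ 96) md.nc (md.nc * 16) _ _ (fun p _ =>
      LF.rsum (B := (2 : ℤ) ^ 96) md.nc 16 _ _ (fun q _ =>
      LF.single ((2 : ℤ) ^ 96) (tcoef md.nc md211 s p q) (idxs md (dg 16 TH s / 32 % 2)
        (dg 16 TH s / 64) (pac md.nc (gtab (dg 16 TH s % 32)) p)
        (pac md.nc (gtab (dg 16 TH s % 32)) q)) 16 (tcoef_le _ _ _ _ _)))) h16)).smul (den : ℤ)
  simp only [Int.natAbs_natCast, Int.cast_natCast] at h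
  convert h using 1
  show (den : ℤ) * _ = _
  refine congrArg _ ?_
  refine Finset.sum_congr rfl (fun s _ => ?_)
  refine Finset.sum_congr rfl (fun p _ => ?_)
  refine Finset.sum_congr rfl (fun q _ => ?_)
  show tcoef md.nc md211 s p q * ((Nat.shiftLeft 1 _ : ℕ) : ℤ) = _
  rw [shl]
  rfl

/-- P_TOT -/
theorem tot_ : P_TOT := by
  intro md bs md211 den TH hmd hN hZ φ
  have h1 := LF.lsum (B := (2 : ℤ) ^ 96) bs
    (fun b => b.nT * (b.nT * (b.ns * (16 * 2 ^ 72)))) (fun b => blockZ md b)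
    (fun b => blockR md b) (fun b => blockLF md hmd b)
  have h2 := (tgtLF md hmd md211 den TH).smul (-1)
  have h3 := h1.add h2
  have e : (bs.map (fun b => blockZ md b)).sum + -1 * tgtZ md md211 den TH = 0 := by
    rw [hZ]; ring
  rw [e] at h3
  have eN : (bs.map (fun b => b.nT * (b.nT * (b.ns * (16 * 2 ^ 72))))).sum =
      (bs.map (fun b => b.nT * b.nT * b.ns)).sum * 16 * 2 ^ 72 := by
    rw [mul_assoc, ← List.sum_map_mul_right]
    exact congrArg _ (List.map_congr_left (fun b _ => by ring))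
  have h4 := h3.eq_zero (by
    rw [eN]
    have : (-1 : ℤ).natAbs * (den * (24 * (16 * 16))) = 24 * 16 * (16 * den) := by
      rw [show (-1 : ℤ).natAbs = 1 from rfl]; ring
    rw [this]
    exact_mod_cast hN) φ
  have h5 : (bs.map (fun b => blockR md b φ)).sum + ((-1 : ℤ) : ℝ) * tgtR md md211 den TH φ = 0 := h4
  push_cast at h5
  linarith

end Pool.W258.P4
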