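import Pool.Agent.W258.P4.Asm
import Pool.Agent.W258.P4.Chk22
import Pool.Agent.W258.P4.Chk31
import Pool.Agent.W258.P4.Chk211
import Pool.Agent.W258.P4.Rep
import Pool.Agent.W258.P4.Fin
import Pool.Agent.W258.P4.DetLe
import Pool.Agent.W258.P4.Posd
import Pool.Agent.W258.P4.Tot
import Pool.Agent.W258.P4.Psdy
import Pool.Agent.W258.P4.Mc
import Pool.Agent.W258.P4.Ga
import Pool.Agent.W258.P4.Tgt22
import Pool.Agent.W15.P4.Tgt

set_option autoImplicit false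
set_option maxHeartbeats 4000000
open Matrix
open scoped ComplexOrder BigOperators

namespace Pool.W258.P4

theorem hb22 : ∀ b ∈ bs22, hintOK md22 b = true ∧ cstOK (b.nT * md22.nc) b = true ∧ rowOK (b.nT * md22.nc) b = true ∧
      ((b.kd = 0 ∧ b.ns = 1) ∨ (b.kd = 2 ∧ b.ns = 2) ∨ (b.kd = 4 ∧ b.ns = 24)) ∧ (b.bar = 0 ∨ b.bar = 1) := by
  intro b hb
  unfold bs22 at hb
  simp only [List.mem_cons, List.not_mem_nil, or_false] at hb
  rcases hb with rfl | rfl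
  · exact ⟨hint22_0, cst22_0, row22_0, Or.inr (Or.inl ⟨rfl, rfl⟩), Or.inr rfl⟩
  · exact ⟨hint22_1, cst22_1, row22_1, Or.inl ⟨rfl, rfl⟩, Or.inl rfl⟩

theorem hb31 : ∀ b ∈ bs31, hintOK md31 b = true ∧ cstOK (b.nT * md31.nc) b = true ∧ rowOK (b.nT * md31.nc) b = true ∧
      ((b.kd = 0 ∧ b.ns = 1) ∨ (b.kd = 2 ∧ b.ns = 2) ∨ (b.kd = 4 ∧ b.ns = 24)) ∧ (b.bar = 0 ∨ b.bar = 1) := by
  intro b hb
  unfold bs31 at hb
  simp only [List.mem_cons, List.not_mem_nil, or_false] at hb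
  rcases hb with rfl | rfl | rfl | rfl
  · exact ⟨hint31_0, cst31_0, row31_0, Or.inr (Or.inr ⟨rfl, rfl⟩), Or.inl rfl⟩
  · exact ⟨hint31_1, cst31_1, row31_1, Or.inr (Or.inl ⟨rfl, rfl⟩), Or.inl rfl⟩
  · exact ⟨hint31_2, cst31_2, row31_2, Or.inr (Or.inl ⟨rfl, rfl⟩), Or.inr rfl⟩
  · exact ⟨hint31_3, cst31_3, row31_3, Or.inl ⟨rfl, rfl⟩, Or.inl rfl⟩

theorem hb211 : ∀ b ∈ bs211, hintOK md211 b = true ∧ cstOK (b.nT * md211.nc) b = true ∧ rowOK (b.nT * md211.nc) b = true ∧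
      ((b.kd = 0 ∧ b.ns = 1) ∨ (b.kd = 2 ∧ b.ns = 2) ∨ (b.kd = 4 ∧ b.ns = 24)) ∧ (b.bar = 0 ∨ b.bar = 1) := by
  intro b hb
  unfold bs211 at hb
  simp only [List.mem_cons, List.not_mem_nil, or_false] at hb
  rcases hb with rfl | rfl | rfl
  · exact ⟨hint211_0, cst211_0, row211_0, Or.inr (Or.inr ⟨rfl, rfl⟩), Or.inl rfl⟩
  · exact ⟨hint211_1, cst211_1, row211_1, Or.inr (Or.inl ⟨rfl, rfl⟩), Or.inl rfl⟩
  · exact ⟨hint211_2, cst211_2, row211_2, Or.inl ⟨rfl, rfl⟩, Or.inl rfl⟩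

/-- the diagonal product of a positive definite matrix is a positive real -/
theorem diag_pos (A : Matrix (Fin 4) (Fin 4) ℂ) (hA : A.PosDef) : ∃ r : ℝ, 0 < r ∧ ∏ k, A k k = (r : ℂ) := by
  have h1 : ∀ k, 0 < A k k := fun k => hA.diag_pos
  have h2 : ∀ k, A k k = ((A k k).re : ℂ) := fun k => by
    have h3 := (Complex.lt_def.mp (h1 k)).2
    apply Complex.ext
    · rfl
    · simpa using h3.symm
  refine ⟨∏ k, (A k k).re, Finset.prod_pos fun k _ => ?_, ?_⟩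
  · exact (Complex.lt_def.mp (h1 k)).1
  · push_cast
    exact Finset.prod_congr rfl fun k _ => h2 k

theorem div_pos_form (A : Matrix (Fin 4) (Fin 4) ℂ) (hA : A.PosDef) (c : ℝ) (hc : 0 < c) (z : ℂ)
    (h : 0 ≤ c * ((∏ k, A k k) * z).re) : 0 ≤ z.re := by
  obtain ⟨r, hr, e⟩ := diag_pos A hA
  rw [e, Complex.re_ofReal_mul] at h
  exact nonneg_of_mul_nonneg_right (nonneg_of_mul_nonneg_right h hc) hr

theorem cont_pr (σ : Equiv.Perm (Fin 4)) : Continuous fun A : Matrix (Fin 4) (Fin 4) ℂ => pr A σ :=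
  continuous_finsetProd _ fun _ _ => continuous_id.matrix_elem _ _

theorem cont22 (w : Fin 3 → ℂ) : Continuous fun A => (Q22 A w).re :=
  Complex.continuous_re.comp (continuous_finsetSum _ fun σ _ => (cont_pr σ).mul continuous_const)
theorem cont31 (w : Fin 4 → ℂ) : Continuous fun A => (Q31 A w).re :=
  Complex.continuous_re.comp (continuous_finsetSum _ fun σ _ => (cont_pr σ).mul continuous_const)
theorem cont211 (w : Fin 4 → ℂ) : Continuous fun A => (Q211 A w).re :=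
  Complex.continuous_re.comp (continuous_finsetSum _ fun σ _ => (cont_pr σ).mul continuous_const)

theorem q22 (h0 : P_BLK 0 1) (h2 : P_BLK 2 2) (h4 : P_BLK 4 24) (A : Matrix (Fin 4) (Fin 4) ℂ)
    (hA : A.PosSemidef) (w : Fin 3 → ℂ) : 0 ≤ (Q22 A w).re := by
  refine posd (fun A => (Q22 A w).re) (cont22 w) (fun A hA => ?_) A hA
  refine div_pos_form A hA 24 (by norm_num) _ ?_
  rw [← tgt22_ A w hA.posSemidef.isHermitian]
  exact mode_sound mc_ ga_ tr_ tot_ psdy_ h0 h2 h4 md22 (Or.inl rfl) key22 bs22 hb22 false den22 th22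
    (by decide +kernel) thok22 (by decide +kernel) (of_decide_eq_true tot22) A hA.posSemidef _

theorem q31 (h0 : P_BLK 0 1) (h2 : P_BLK 2 2) (h4 : P_BLK 4 24) (A : Matrix (Fin 4) (Fin 4) ℂ)
    (hA : A.PosSemidef) (v : Fin 4 → ℂ) : 0 ≤ (Q31 A v).re := by
  refine posd (fun A => (Q31 A v).re) (cont31 v) (fun A hA => ?_) A hA
  refine div_pos_form A hA 24 (by norm_num) _ ?_
  rw [← Pool.Agent.W15.P4.tgt31_ A v hA.posSemidef.isHermitian]
  exact mode_sound mc_ ga_ tr_ tot_ psdy_ h0 h2 h4 md31 (Or.inr rfl) key31 bs31 hb31 false den31 th31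
    (by decide +kernel) thok31 (by decide +kernel) (of_decide_eq_true tot31) A hA.posSemidef _

theorem q211 (h0 : P_BLK 0 1) (h2 : P_BLK 2 2) (h4 : P_BLK 4 24) (A : Matrix (Fin 4) (Fin 4) ℂ)
    (hA : A.PosSemidef) (v : Fin 4 → ℂ) (hv : ∑ i, v i = 0) : 0 ≤ (Q211 A v).re := by
  refine posd (fun A => (Q211 A v).re) (cont211 v) (fun A hA => ?_) A hA
  refine div_pos_form A hA 96 (by norm_num) _ ?_
  rw [← Pool.Agent.W15.P4.tgt211_ A v hA.posSemidef.isHermitian hv]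
  exact mode_sound mc_ ga_ tr_ tot_ psdy_ h0 h2 h4 md211 (Or.inr rfl) key211 bs211 hb211 true den211 th211
    (by decide +kernel) thok211 (by decide +kernel) (of_decide_eq_true tot211) A hA.posSemidef _

theorem pot4 (h0 : P_BLK 0 1) (h2 : P_BLK 2 2) (h4 : P_BLK 4 24) :
    ∀ A : Matrix (Fin 4) (Fin 4) ℂ, A.PosSemidef →
      ((Matrix.of (fun (σ : Equiv.Perm (Fin 4)) (τ : Equiv.Perm (Fin 4)) =>
            ∏ t : Fin 4, A (σ t) (τ t))).mulVec (fun _ : Equiv.Perm (Fin 4) => (1 : ℂ))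
          = (Matrix.permanent A) • (fun _ : Equiv.Perm (Fin 4) => (1 : ℂ))) ∧
      ∀ (μ : ℂ) (x : Equiv.Perm (Fin 4) → ℂ), x ≠ 0 →
        (Matrix.of (fun (σ : Equiv.Perm (Fin 4)) (τ : Equiv.Perm (Fin 4)) =>
            ∏ t : Fin 4, A (σ t) (τ t))).mulVec x = μ • x →
          μ.re ≤ (Matrix.permanent A).re :=
  fin_ fun A hA => rep A (q31 h0 h2 h4 A hA) (q22 h0 h2 h4 A hA) (q211 h0 h2 h4 A hA) (det_ A hA)

end Pool.W258.P4
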