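import Pool.Agent.W258.P4.Spec2

set_option autoImplicit false
set_option maxHeartbeats 4000000
open Matrix
open scoped ComplexOrder BigOperators

namespace Pool.W258.P4

theorem nall_iff (n : ℕ) (f : ℕ → Bool) : nall n f = true ↔ ∀ i, i < n → f i = true := by
  induction n with
  | zero => simp [nall]
  | succ n ih =>
    have h : nall (n + 1) f = cond (nall n f) (f n) false := rfl
    rw [h]
    constructor
    · intro h1 i hi
      cases h2 : nall n f with
      | false => rw [h2] at h1; simp at h1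
      | true =>
        rw [h2] at h1
        rcases Nat.lt_succ_iff_lt_or_eq.mp hi with h3 | h3
        · exact (ih.mp h2) i h3
        · rw [h3]; exact h1
    · intro h1
      have h2 : nall n f = true := ih.mpr fun i hi => h1 i (Nat.lt_succ_of_lt hi)
      rw [h2]; exact h1 n (Nat.lt_succ_self n)

theorem dg_lt (w n i : ℕ) : dg w n i < 2 ^ w := Nat.mod_lt _ (Nat.two_pow_pos w)

theorem pac_lt (nc gi p : ℕ) (hnc : nc = 3 ∨ nc = 4) (hg : gi < 24) (hp : p < nc) :
    pac nc (gtab gi) p < nc := by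
  rcases hnc with rfl | rfl
  · have h1 : ∀ gi, gi < 24 → ∀ p, p < 3 → pac 3 (gtab gi) p < 3 := by decide +kernel
    exact h1 gi hg p hp
  · have h1 : ∀ gi, gi < 24 → ∀ p, p < 4 → pac 4 (gtab gi) p < 4 := by decide +kernel
    exact h1 gi hg p hp

theorem csw_lt (c : ℕ) (h : c < 16) : csw c < 16 := by
  revert c; decide

theorem tf_lt (gi tr c : ℕ) (hg : gi < 24) (hc : c < 16) : tf (gtab gi) tr c < 16 := by
  have h1 : ∀ gi, gi < 24 → ∀ c, c < 16 → cact (gtab gi) c < 16 := by decide +kernel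
  unfold tf
  cases h : Nat.beq tr 0 with
  | true => exact h1 gi hg c hc
  | false => exact h1 gi hg _ (csw_lt c hc)

theorem Mf_lt (kd T T' s i : ℕ) (hi : i < 8) (hkd : kd = 0 ∨ kd = 2 ∨ kd = 4) : Mf kd T T' s i < 16 := by
  have hd : ∀ n j, dg 4 n j < 16 := fun n j => dg_lt 4 n j
  have hd2 : ∀ n j, dg 2 n j < 4 := fun n j => dg_lt 2 n j
  unfold Mf
  have h2 : (cond (Nat.blt i (Nat.add kd (Nat.div (Nat.sub 8 kd) 2)))
      (dg 4 T' (Nat.add 1 (Nat.sub i kd)))
      (csw (dg 4 T (Nat.add 1 (Nat.sub i (Nat.add kd (Nat.div (Nat.sub 8 kd) 2))))))) < 16 := by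
    cases Nat.blt i (Nat.add kd (Nat.div (Nat.sub 8 kd) 2)) with
    | true => exact hd _ _
    | false => exact csw_lt _ (hd _ _)
  cases h1 : Nat.blt i kd with
  | false => exact h2
  | true =>
    have hik : i < kd := by
      have := Nat.le_of_ble_eq_true (show Nat.ble (i+1) kd = true from h1)
      omega
    show frcod kd T T' s i < 16
    unfold frcod
    have ha : ∀ n, n < 16 → Nat.div n 4 < 4 := by decide
    have hb : ∀ n, n < 16 → Nat.mod n 4 < 4 := by decide
    have hab : ∀ a, a < 4 → ∀ b, b < 4 → Nat.add (Nat.mul 4 a) b < 16 := by decide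
    rcases hkd with rfl | rfl | rfl
    · omega
    · show (cond (Nat.beq i 0) _ _) < 16
      cases Nat.beq i 0 with
      | true =>
        refine hab _ (ha _ (hd _ _)) _ ?_
        cases Nat.beq s 0 with
        | true => exact ha _ (hd _ _)
        | false => exact hb _ (hd _ _)
      | false =>
        refine hab _ (hb _ (hd _ _)) _ ?_
        cases Nat.beq s 0 with
        | true => exact hb _ (hd _ _)
        | false => exact ha _ (hd _ _)
    · show Nat.add (Nat.mul 4 i) (dg 2 (gtab s) i) < 16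
      exact hab _ hik _ (hd2 _ _)

theorem tMf_lt (s i : ℕ) (hi : i < 8) : tMf s i < 16 := by
  have hd2 : ∀ n j, dg 2 n j < 4 := fun n j => dg_lt 2 n j
  have hab : ∀ a, a < 4 → ∀ b, b < 4 → Nat.add (Nat.mul 4 a) b < 16 := by decide
  unfold tMf
  cases h1 : Nat.blt i 4 with
  | true =>
    have := Nat.le_of_ble_eq_true (show Nat.ble (i+1) 4 = true from h1)
    show 5 * i < 16
    omega
  | false => exact hab _ (by show i - 4 < 4; omega) _ (hd2 _ _)

/-- representative monomial -/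
def repM (md : MD) (m i : ℕ) : ℕ := dg 4 (dg 32 md.MT m) i

/-- value of a key -/
noncomputable def keyV (md : MD) (A : Matrix (Fin 4) (Fin 4) ℂ) (u : ℕ → ℂ) (k : ℕ) : ℝ :=
  Phi md.nc A u (dg 16 md.KEY k / 4 % 4) (dg 16 md.KEY k % 4) (repM md (dg 16 md.KEY k / 16))

/-- one step: transformation by a hint -/
theorem hint_step (hGA : P_GA) (hTR : P_TR) (nc : ℕ) (hnc : nc = 3 ∨ nc = 4) (A : Matrix (Fin 4) (Fin 4) ℂ)
    (hA : A.IsHermitian) (u : ℕ → ℂ) (gi tr p q : ℕ) (M : ℕ → ℕ) (hM : ∀ i, i < 8 → M i < 16)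
    (hg : gi < 24) (hp : p < nc) (hq : q < nc) :
    Phi nc A u p q M =
      cond (Nat.beq tr 0)
        (Phi nc A u (pac nc (gtab gi) p) (pac nc (gtab gi) q) (fun i => tf (gtab gi) tr (M i)))
        (Phi nc A u (pac nc (gtab gi) q) (pac nc (gtab gi) p) (fun i => tf (gtab gi) tr (M i))) := by
  cases h : Nat.beq tr 0 with
  | true =>
    show _ = Phi nc A u (pac nc (gtab gi) p) (pac nc (gtab gi) q) (fun i => tf (gtab gi) tr (M i))
    have e : (fun i => tf (gtab gi) tr (M i)) = fun i => cact (gtab gi) (M i) := by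
      funext i; unfold tf; rw [h]; rfl
    rw [e, hGA nc hnc A u gi p q M hg hp hq hM]
  | false =>
    show _ = Phi nc A u (pac nc (gtab gi) q) (pac nc (gtab gi) p) (fun i => tf (gtab gi) tr (M i))
    have e : (fun i => tf (gtab gi) tr (M i)) = fun i => cact (gtab gi) ((fun j => csw (M j)) i) := by
      funext i; unfold tf; rw [h]; rfl
    rw [e, hGA nc hnc A u gi q p (fun j => csw (M j)) hg hq hp (fun i hi => csw_lt _ (hM i hi)),
      hTR nc A u p q M hA hM]

theorem key_val (hMC : P_MC) (hGA : P_GA) (hTR : P_TR) (md : MD) (hnc : md.nc = 3 ∨ md.nc = 4)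
    (hkey : keyOK md = true) (A : Matrix (Fin 4) (Fin 4) ℂ)
    (hA : A.IsHermitian) (u : ℕ → ℂ) (m p q : ℕ) (hm : m < md.nm) (hp : p < md.nc) (hq : q < md.nc) :
    Phi md.nc A u p q (repM md m) = keyV md A u (idx md m p q) ∧ mcd (repM md m) = dg 64 md.MC m := by
  have hrep : ∀ m i, i < 8 → repM md m i < 16 := fun m i _ => dg_lt 4 _ _
  have h1 := (nall_iff _ _).mp hkey m hm
  cases h2 : Nat.beq (mcd (fun i => dg 4 (dg 32 md.MT m) i)) (dg 64 md.MC m) with
  | false => rw [h2] at h1; simp at h1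
  | true =>
  rw [h2] at h1
  have h3 := (nall_iff _ _).mp ((nall_iff _ _).mp h1 p hp) q hq
  clear h1
  have hmc : mcd (repM md m) = dg 64 md.MC m := Nat.eq_of_beq_eq_true h2
  refine ⟨?_, hmc⟩
  generalize hh : dg 8 md.KH (Nat.add (Nat.mul 16 m) (Nat.add (Nat.mul 4 p) q)) = h at h3
  cases h4 : Nat.blt (Nat.mod h 32) 24 with
  | false => rw [h4] at h3; simp at h3
  | true =>
  rw [h4] at h3
  cases h5 : Nat.beq (Nat.div (dg 16 md.KEY (idx md m p q)) 16) m with
  | false => simp only [cond_true, h5, cond_false] at h3; simp at h3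
  | true =>
  simp only [cond_true, h5] at h3
  cases h6 : Nat.beq (mcd (fun i => tf (gtab (Nat.mod h 32)) (Nat.div h 32) (dg 4 (dg 32 md.MT m) i))) (dg 64 md.MC m) with
  | false => simp only [h6, cond_false] at h3; simp at h3
  | true =>
  simp only [h6, cond_true] at h3
  have hg : h % 32 < 24 := by
    have := Nat.le_of_ble_eq_true (show Nat.ble (Nat.mod h 32 + 1) 24 = true from h4)
    exact this
  have hkm : dg 16 md.KEY (idx md m p q) / 16 = m := Nat.eq_of_beq_eq_true h5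
  have hmc' : mcd (fun i => tf (gtab (h % 32)) (h / 32) (repM md m i)) = mcd (repM md m) := by
    rw [hmc]; exact Nat.eq_of_beq_eq_true h6
  rw [hint_step hGA hTR md.nc hnc A hA u (h % 32) (h / 32) p q (repM md m) (hrep m) hg hp hq]
  have hlt : ∀ i, i < 8 → (fun i => tf (gtab (h % 32)) (h / 32) (repM md m i)) i < 16 :=
    fun i hi => tf_lt _ _ _ hg (hrep m i hi)
  unfold keyV
  rw [hkm]
  cases h7 : Nat.beq (h / 32) 0 with
  | true =>
    have h7' : Nat.beq (Nat.div h 32) 0 = true := h7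
    simp only [h7', cond_true] at h3
    cases h8 : Nat.beq (pac md.nc (gtab (Nat.mod h 32)) p) (Nat.mod (Nat.div (dg 16 md.KEY (idx md m p q)) 4) 4) with
    | false => simp only [h8, cond_false] at h3; simp at h3
    | true =>
    simp only [h8, cond_true] at h3
    have e1 : pac md.nc (gtab (h % 32)) p = dg 16 md.KEY (idx md m p q) / 4 % 4 := Nat.eq_of_beq_eq_true h8
    have e2 : pac md.nc (gtab (h % 32)) q = dg 16 md.KEY (idx md m p q) % 4 := Nat.eq_of_beq_eq_true h3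
    show Phi md.nc A u (pac md.nc (gtab (h % 32)) p) (pac md.nc (gtab (h % 32)) q) _ = _
    rw [e1, e2]
    exact hMC md.nc A u _ _ _ _ hlt (hrep m) hmc'
  | false =>
    have h7' : Nat.beq (Nat.div h 32) 0 = false := h7
    simp only [h7', cond_false] at h3
    cases h8 : Nat.beq (pac md.nc (gtab (Nat.mod h 32)) q) (Nat.mod (Nat.div (dg 16 md.KEY (idx md m p q)) 4) 4) with
    | false => simp only [h8, cond_false] at h3; simp at h3
    | true =>
    simp only [h8, cond_true] at h3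
    have e1 : pac md.nc (gtab (h % 32)) q = dg 16 md.KEY (idx md m p q) / 4 % 4 := Nat.eq_of_beq_eq_true h8
    have e2 : pac md.nc (gtab (h % 32)) p = dg 16 md.KEY (idx md m p q) % 4 := Nat.eq_of_beq_eq_true h3
    show Phi md.nc A u (pac md.nc (gtab (h % 32)) q) (pac md.nc (gtab (h % 32)) p) _ = _
    rw [e1, e2]
    exact hMC md.nc A u _ _ _ _ hlt (hrep m) hmc'

theorem hint_val (hMC : P_MC) (hGA : P_GA) (hTR : P_TR) (md : MD) (hnc : md.nc = 3 ∨ md.nc = 4)
    (hkey : keyOK md = true) (A : Matrix (Fin 4) (Fin 4) ℂ)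
    (hA : A.IsHermitian) (u : ℕ → ℂ) (h p q : ℕ) (M : ℕ → ℕ) (hM : ∀ i, i < 8 → M i < 16)
    (hg : h % 32 < 24) (hm : h / 64 < md.nm)
    (hc : mcd (fun i => tf (gtab (h % 32)) (h / 32 % 2) (M i)) = dg 64 md.MC (h / 64))
    (hp : p < md.nc) (hq : q < md.nc) :
    Phi md.nc A u p q M =
      keyV md A u (idxs md (h / 32 % 2) (h / 64) (pac md.nc (gtab (h % 32)) p) (pac md.nc (gtab (h % 32)) q)) := by
  have hrep : ∀ m i, i < 8 → repM md m i < 16 := fun m i _ => dg_lt 4 _ _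
  have hp' := pac_lt md.nc (h % 32) p hnc hg hp
  have hq' := pac_lt md.nc (h % 32) q hnc hg hq
  have hlt : ∀ i, i < 8 → (fun i => tf (gtab (h % 32)) (h / 32 % 2) (M i)) i < 16 :=
    fun i hi => tf_lt _ _ _ hg (hM i hi)
  rw [hint_step hGA hTR md.nc hnc A hA u (h % 32) (h / 32 % 2) p q M hM hg hp hq]
  unfold idxs
  cases h7 : Nat.beq (h / 32 % 2) 0 with
  | true =>
    obtain ⟨k1, k2⟩ := key_val hMC hGA hTR md hnc hkey A hA u (h / 64) _ _ hm hp' hq'
    show Phi md.nc A u _ _ _ = keyV md A u (idx md (h / 64) _ _)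
    rw [← k1]
    exact hMC md.nc A u _ _ _ _ hlt (hrep _) (by rw [hc, k2])
  | false =>
    obtain ⟨k1, k2⟩ := key_val hMC hGA hTR md hnc hkey A hA u (h / 64) _ _ hm hq' hp'
    show Phi md.nc A u _ _ _ = keyV md A u (idx md (h / 64) _ _)
    rw [← k1]
    exact hMC md.nc A u _ _ _ _ hlt (hrep _) (by rw [hc, k2])

theorem idxs_swap (md : MD) (tr m p q : ℕ) (htr : tr < 2) :
    idxs md tr m q p = idxs md (Nat.xor 1 tr) m p q := by
  have : tr = 0 ∨ tr = 1 := by omega
  rcases this with rfl | rfl <;> rfl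

theorem hintOK_spec (md : MD) (b : BD) (hb : hintOK md b = true) (t t' s : ℕ) (ht : t < b.nT)
    (ht' : t' < b.nT) (hs : s < b.ns) :
    hnt b t t' s % 32 < 24 ∧ hnt b t t' s / 64 < md.nm ∧
    mcd (fun i => tf (gtab (hnt b t t' s % 32)) (hnt b t t' s / 32 % 2)
      (Mf b.kd (dg 32 b.Ts t) (dg 32 b.Ts t') s i)) = dg 64 md.MC (hnt b t t' s / 64) := by
  have h1 := (nall_iff _ _).mp ((nall_iff _ _).mp ((nall_iff _ _).mp hb t ht) t' ht') s hs
  generalize hnt b t t' s = h at h1 ⊢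
  cases h4 : Nat.blt (Nat.mod h 32) 24 with
  | false => rw [h4] at h1; simp at h1
  | true =>
  rw [h4] at h1
  cases h5 : Nat.blt (Nat.div h 64) md.nm with
  | false => simp only [cond_true, h5, cond_false] at h1; simp at h1
  | true =>
  simp only [cond_true, h5] at h1
  exact ⟨Nat.le_of_ble_eq_true (show Nat.ble (Nat.mod h 32 + 1) 24 = true from h4),
    Nat.le_of_ble_eq_true (show Nat.ble (Nat.div h 64 + 1) md.nm = true from h5), Nat.eq_of_beq_eq_true h1⟩

theorem thOK_spec (md : MD) (TH : ℕ) (hb : thOK md TH = true) (s : ℕ) (hs : s < 24) :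
    dg 16 TH s % 32 < 24 ∧ dg 16 TH s / 64 < md.nm ∧
    mcd (fun i => tf (gtab (dg 16 TH s % 32)) (dg 16 TH s / 32 % 2) (tMf s i)) = dg 64 md.MC (dg 16 TH s / 64) := by
  have h1 := (nall_iff _ _).mp hb s hs
  generalize dg 16 TH s = h at h1 ⊢
  cases h4 : Nat.blt (Nat.mod h 32) 24 with
  | false => rw [h4] at h1; simp at h1
  | true =>
  rw [h4] at h1
  cases h5 : Nat.blt (Nat.div h 64) md.nm with
  | false => simp only [cond_true, h5, cond_false] at h1; simp at h1
  | true =>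
  simp only [cond_true, h5] at h1
  exact ⟨Nat.le_of_ble_eq_true (show Nat.ble (Nat.mod h 32 + 1) 24 = true from h4),
    Nat.le_of_ble_eq_true (show Nat.ble (Nat.div h 64 + 1) md.nm = true from h5), Nat.eq_of_beq_eq_true h1⟩

theorem block_eq (hMC : P_MC) (hGA : P_GA) (hTR : P_TR) (md : MD) (hnc : md.nc = 3 ∨ md.nc = 4)
    (hkey : keyOK md = true) (A : Matrix (Fin 4) (Fin 4) ℂ)
    (hA : A.IsHermitian) (u : ℕ → ℂ) (b : BD) (hb : hintOK md b = true)
    (hkd : b.kd = 0 ∨ b.kd = 2 ∨ b.kd = 4) (hbar : b.bar = 0 ∨ b.bar = 1) :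
    blockR md b (keyV md A u) =
      blkF md.nc A u b.kd b.bar b.ns b.nT b.Ts (fun al be => ((Yr b al be : ℤ) : ℝ)) := by
  unfold blockR blkF entR
  refine Finset.sum_congr rfl fun t ht => Finset.sum_congr rfl fun t' ht' => Finset.sum_congr rfl fun s hs => ?_
  obtain ⟨k1, k2, k3⟩ := hintOK_spec md b hb t t' s (Finset.mem_range.mp ht) (Finset.mem_range.mp ht') (Finset.mem_range.mp hs)
  refine congrArg (HMul.hMul (sgR b.kd s)) ?_
  refine Finset.sum_congr rfl fun p hp => Finset.sum_congr rfl fun q hq => ?_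
  have hp := Finset.mem_range.mp hp
  have hq := Finset.mem_range.mp hq
  have hM : ∀ i, i < 8 → Mf b.kd (dg 32 b.Ts t) (dg 32 b.Ts t') s i < 16 := fun i hi => Mf_lt _ _ _ _ _ hi hkd
  refine congrArg (HMul.hMul _) ?_
  rcases hbar with h0 | h0
  · rw [h0]
    simp only [if_true]
    rw [hint_val hMC hGA hTR md hnc hkey A hA u (hnt b t t' s) p q _ hM k1 k2 k3 hp hq]
    have : Nat.xor 0 (hnt b t t' s / 32 % 2) = hnt b t t' s / 32 % 2 := Nat.zero_xor _
    rw [this]
  · rw [h0]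
    simp only [one_ne_zero, if_false]
    rw [hint_val hMC hGA hTR md hnc hkey A hA u (hnt b t t' s) q p _ hM k1 k2 k3 hq hp,
      idxs_swap md _ _ _ _ (Nat.mod_lt _ (by norm_num))]

theorem tgt_eq (hMC : P_MC) (hGA : P_GA) (hTR : P_TR) (md : MD) (hnc : md.nc = 3 ∨ md.nc = 4)
    (hkey : keyOK md = true) (A : Matrix (Fin 4) (Fin 4) ℂ)
    (hA : A.IsHermitian) (u : ℕ → ℂ) (md211 : Bool) (den TH : ℕ) (hth : thOK md TH = true) :
    tgtR md md211 den TH (keyV md A u) =
      (den : ℝ) * ∑ s ∈ Finset.range 24, ∑ p ∈ Finset.range md.nc, ∑ q ∈ Finset.range md.nc,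
        ((tcoef md.nc md211 s p q : ℤ) : ℝ) * Phi md.nc A u p q (tMf s) := by
  unfold tgtR
  refine congrArg (HMul.hMul (den:ℝ)) ?_
  refine Finset.sum_congr rfl fun s hs => ?_
  obtain ⟨k1, k2, k3⟩ := thOK_spec md TH hth s (Finset.mem_range.mp hs)
  refine Finset.sum_congr rfl fun p hp => Finset.sum_congr rfl fun q hq => ?_
  have hp := Finset.mem_range.mp hp
  have hq := Finset.mem_range.mp hq
  rw [hint_val hMC hGA hTR md hnc hkey A hA u (dg 16 TH s) p q _ (fun i hi => tMf_lt s i hi) k1 k2 k3 hp hq]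

theorem mode_sound (hMC : P_MC) (hGA : P_GA) (hTR : P_TR) (hTOT : P_TOT) (hPSDY : P_PSDY)
    (h0 : P_BLK 0 1) (h2 : P_BLK 2 2) (h4 : P_BLK 4 24)
    (md : MD) (hnc : md.nc = 3 ∨ md.nc = 4)
    (hkey : keyOK md = true) (bs : List BD)
    (hb : ∀ b ∈ bs, hintOK md b = true ∧ cstOK (b.nT * md.nc) b = true ∧ rowOK (b.nT * md.nc) b = true ∧
      ((b.kd = 0 ∧ b.ns = 1) ∨ (b.kd = 2 ∧ b.ns = 2) ∨ (b.kd = 4 ∧ b.ns = 24)) ∧ (b.bar = 0 ∨ b.bar = 1))
    (md211 : Bool) (den TH : ℕ) (hden : 0 < den) (hth : thOK md TH = true)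
    (hbound : (bs.map (fun b => b.nT * b.nT * b.ns)).sum * 16 * 2 ^ 72 + 24 * 16 * (16 * den) < 2 ^ 96)
    (htot : (bs.map (fun b => blockZ md b)).sum = tgtZ md md211 den TH)
    (A : Matrix (Fin 4) (Fin 4) ℂ) (hA : A.PosSemidef) (u : ℕ → ℂ) :
    0 ≤ ∑ s ∈ Finset.range 24, ∑ p ∈ Finset.range md.nc, ∑ q ∈ Finset.range md.nc,
        ((tcoef md.nc md211 s p q : ℤ) : ℝ) * Phi md.nc A u p q (tMf s) := by
  have e := hTOT md bs md211 den TH (by rcases hnc with h | h <;> omega) hbound htot (keyV md A u)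
  rw [tgt_eq hMC hGA hTR md hnc hkey A hA.isHermitian u md211 den TH hth] at e
  have hpos : 0 ≤ (bs.map (fun b => blockR md b (keyV md A u))).sum := by
    apply List.sum_nonneg
    intro x hx
    obtain ⟨b, hbm, rfl⟩ := List.mem_map.mp hx
    obtain ⟨k1, k2, k3, k4, k5⟩ := hb b hbm
    have hY := hPSDY (b.nT * md.nc) b k2 k3
    rcases k4 with ⟨q1, q2⟩ | ⟨q1, q2⟩ | ⟨q1, q2⟩
    · rw [block_eq hMC hGA hTR md hnc hkey A hA.isHermitian u b k1 (Or.inl q1) k5, q1, q2]
      exact h0 md.nc b.bar b.nT b.Ts A u _ hA hY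
    · rw [block_eq hMC hGA hTR md hnc hkey A hA.isHermitian u b k1 (Or.inr (Or.inl q1)) k5, q1, q2]
      exact h2 md.nc b.bar b.nT b.Ts A u _ hA hY
    · rw [block_eq hMC hGA hTR md hnc hkey A hA.isHermitian u b k1 (Or.inr (Or.inr q1)) k5, q1, q2]
      exact h4 md.nc b.bar b.nT b.Ts A u _ hA hY
  rw [e] at hpos
  have hd : (0:ℝ) < den := by exact_mod_cast hden
  exact nonneg_of_mul_nonneg_right hpos hd

end Pool.W258.P4
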