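import Pool.Agent.W258.P4.Fin2
import Pool.Agent.W258.P4.Blk0
import Pool.Agent.W258.P4.Blk2
import Pool.Agent.W258.P4.Blk4

set_option autoImplicit false
open Matrix
open scoped ComplexOrder BigOperators

namespace Pool.W258.P4

/-- permanent-on-top for 4 x 4 matrices, as a quadratic form inequality on functions on S_4 -/
theorem qreg_nonneg (A : Matrix (Fin 4) (Fin 4) ℂ) (hA : A.PosSemidef) (x : Equiv.Perm (Fin 4) → ℂ) :
    0 ≤ (Qreg A x).re :=
  rep A (q31 blk0_ blk2_ blk4_ A hA) (q22 blk0_ blk2_ blk4_ A hA) (q211 blk0_ blk2_ blk4_ A hA) (det_ A hA) x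

theorem q31_nonneg (A : Matrix (Fin 4) (Fin 4) ℂ) (hA : A.PosSemidef) (v : Fin 4 → ℂ) :
    0 ≤ (Q31 A v).re := q31 blk0_ blk2_ blk4_ A hA v

theorem permanent_eq_pr (A : Matrix (Fin 4) (Fin 4) ℂ) : A.permanent = ∑ σ, pr A σ := by
  rw [← Matrix.permanent_transpose]
  rfl

end Pool.W258.P4
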